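import Pool.Agent.R902.HN.Stm

/-! Pieces AL and DQ for MP_3d6eda_nt. -/

namespace Pool.R902.HN

theorem AL : StmAL := by
  intro K _ V _ _ ν hν0 hνs hνa X P hXP hXν r hr0 hr1 q hq hD
  have hne : (Finset.range q).Nonempty := Finset.nonempty_range_iff.mpr (by omega)
  set D : V →ₗ[K] V := X - 1 with hDdef
  have hDv : ∀ v, D v = X v - v := fun v => by simp [hDdef]
  have hneg : ∀ v, ν (-v) = ν v := fun v => by
    have := hνs (-1) v
    simpa using this
  have hνsub : ∀ v w, ν (v - w) ≤ max (ν v) (ν w) := fun v w => by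
    have := hνa v (-w)
    rwa [hneg, ← sub_eq_add_neg] at this
  have hDP : ∀ v ∈ P, D v ∈ P := fun v hv => by
    rw [hDv]; exact P.sub_mem (hXP v hv) hv
  have hDν : ∀ v ∈ P, ν (D v) ≤ ν v := fun v hv => by
    rw [hDv]
    exact (hνsub _ _).trans (max_le (hXν v hv) le_rfl)
  have hDkP : ∀ (k : ℕ), ∀ v ∈ P, (D ^ k) v ∈ P := by
    intro k
    induction k with
    | zero => intro v hv; simpa using hv
    | succ k ih =>
      intro v hv
      rw [pow_succ, Module.End.mul_apply]
      exact ih _ (hDP v hv)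
  have hDkν : ∀ (k : ℕ), ∀ v ∈ P, ν ((D ^ k) v) ≤ ν v := by
    intro k
    induction k with
    | zero => intro v hv; simp
    | succ k ih =>
      intro v hv
      rw [pow_succ, Module.End.mul_apply]
      exact (ih _ (hDP v hv)).trans (hDν v hv)
  have hcomm : ∀ (k : ℕ) v, (D ^ k) (X v) = X ((D ^ k) v) := by
    intro k v
    have h1 : Commute D X := by
      rw [hDdef]
      exact (Commute.refl X).sub_left (Commute.one_left X)
    have h2 : D ^ k * X = X * D ^ k := (h1.pow_left k).eq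
    calc (D ^ k) (X v) = (D ^ k * X) v := rfl
      _ = (X * D ^ k) v := by rw [h2]
      _ = X ((D ^ k) v) := rfl
  let μ : V → ℝ := fun v => (Finset.range q).sup' hne (fun k => (r ^ k)⁻¹ * ν ((D ^ k) v))
  have hle : ∀ v (k : ℕ), k < q → (r ^ k)⁻¹ * ν ((D ^ k) v) ≤ μ v := fun v k hk =>
    Finset.le_sup' (fun k => (r ^ k)⁻¹ * ν ((D ^ k) v)) (Finset.mem_range.mpr hk)
  have hle' : ∀ v (B : ℝ), (∀ k, k < q → (r ^ k)⁻¹ * ν ((D ^ k) v) ≤ B) → μ v ≤ B :=
    fun v B h => Finset.sup'_le hne _ (fun k hk => h k (Finset.mem_range.mp hk))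
  have hνμ : ∀ v, ν v ≤ μ v := fun v => by
    have := hle v 0 (by omega)
    simpa using this
  have hμ0 : ∀ v, 0 ≤ μ v := fun v => (hν0 v).trans (hνμ v)
  have hrk : ∀ k : ℕ, 0 < r ^ k := fun k => pow_pos hr0 k
  have hμadd : ∀ v w, μ (v + w) ≤ max (μ v) (μ w) := by
    intro v w
    apply hle'
    intro k hk
    rw [map_add]
    have h1 := hνa ((D ^ k) v) ((D ^ k) w)
    have h2 := mul_le_mul_of_nonneg_left h1 (inv_pos.mpr (hrk k)).le
    refine h2.trans ?_
    rw [mul_max_of_nonneg _ _ (inv_pos.mpr (hrk k)).le]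
    exact max_le_max (hle v k hk) (hle w k hk)
  have hμs_le : ∀ (c : K) v, μ (c • v) ≤ ‖c‖ * μ v := by
    intro c v
    apply hle'
    intro k hk
    rw [map_smul, hνs]
    have := mul_le_mul_of_nonneg_left (hle v k hk) (norm_nonneg c)
    calc (r ^ k)⁻¹ * (‖c‖ * ν ((D ^ k) v)) = ‖c‖ * ((r ^ k)⁻¹ * ν ((D ^ k) v)) := by ring
      _ ≤ _ := this
  have hμs : ∀ (c : K) v, μ (c • v) = ‖c‖ * μ v := by
    intro c v
    apply le_antisymm (hμs_le c v)
    by_cases hc : c = 0
    · subst hc; simpa using hμ0 _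
    · have h1 := hμs_le c⁻¹ (c • v)
      rw [smul_smul, inv_mul_cancel₀ hc, one_smul, norm_inv] at h1
      have hcn : 0 < ‖c‖ := norm_pos_iff.mpr hc
      calc ‖c‖ * μ v ≤ ‖c‖ * (‖c‖⁻¹ * μ (c • v)) := mul_le_mul_of_nonneg_left h1 hcn.le
        _ = μ (c • v) := by rw [← mul_assoc, mul_inv_cancel₀ hcn.ne', one_mul]
  have hμD : ∀ v ∈ P, μ (D v) ≤ r * μ v := by
    intro v hv
    apply hle'
    intro k hk
    have e1 : (D ^ k) (D v) = (D ^ (k + 1)) v := by
      rw [pow_succ, Module.End.mul_apply]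
    rw [e1]
    rcases Nat.lt_or_ge (k + 1) q with h | h
    · have h1 := mul_le_mul_of_nonneg_left (hle v (k + 1) h) hr0.le
      refine le_trans (le_of_eq ?_) h1
      rw [pow_succ r k]
      have := (hrk k).ne'
      field_simp
    · have hkq : k + 1 = q := by omega
      rw [hkq]
      have h1 := mul_le_mul_of_nonneg_left (hD v hv) (inv_pos.mpr (hrk k)).le
      refine h1.trans ?_
      have e2 : (r ^ k)⁻¹ * (r ^ q * ν v) = r * ν v := by
        rw [← hkq, pow_succ r k]
        have := (hrk k).ne'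
        field_simp
      rw [e2]
      exact mul_le_mul_of_nonneg_left (hνμ v) hr0.le
  have hμX : ∀ v ∈ P, μ (X v) ≤ μ v := by
    intro v hv
    apply hle'
    intro k hk
    rw [hcomm]
    exact (mul_le_mul_of_nonneg_left (hXν _ (hDkP k v hv)) (inv_pos.mpr (hrk k)).le).trans
      (hle v k hk)
  have hXaP : ∀ (a : ℕ), ∀ v ∈ P, (X ^ a) v ∈ P := by
    intro a
    induction a with
    | zero => intro v hv; simpa using hv
    | succ a ih =>
      intro v hv
      rw [pow_succ, Module.End.mul_apply]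
      exact ih _ (hXP v hv)
  have hXa : ∀ (a : ℕ), ∀ v ∈ P, μ ((X ^ a) v - v) ≤ r * μ v := by
    intro a
    induction a with
    | zero =>
      intro v hv
      have h0 : μ (0 : V) ≤ 0 := by
        have := hμs_le (0 : K) (0 : V)
        simpa using this
      simp only [pow_zero, Module.End.one_apply, sub_self]
      exact h0.trans (mul_nonneg hr0.le (hμ0 v))
    | succ a ih =>
      intro v hv
      have e : (X ^ (a + 1)) v - v = X ((X ^ a) v - v) + D v := by
        rw [pow_succ', Module.End.mul_apply, hDv, map_sub]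
        abel
      rw [e]
      refine (hμadd _ _).trans (max_le ?_ (hμD v hv))
      exact (hμX _ (P.sub_mem (hXaP a v hv) hv)).trans (ih v hv)
  refine ⟨μ, fun v _ => hνμ v, ?_, ?_⟩
  · intro v hv
    have h1 : μ v ≤ (r ^ (q - 1))⁻¹ * ν v := by
      apply hle'
      intro k hk
      apply mul_le_mul _ (hDkν k v hv) (hν0 _) (inv_pos.mpr (hrk _)).le
      apply inv_anti₀ (hrk _)
      exact pow_le_pow_of_le_one hr0.le hr1.le (by omega)
    calc r ^ (q - 1) * μ v ≤ r ^ (q - 1) * ((r ^ (q - 1))⁻¹ * ν v) :=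
          mul_le_mul_of_nonneg_left h1 (hrk _).le
      _ = ν v := by rw [← mul_assoc, mul_inv_cancel₀ (hrk _).ne', one_mul]
  · intro z a v hv hz hrz
    have e : z • (X ^ a) v - v = (z - 1) • v + z • ((X ^ a) v - v) := by
      rw [sub_smul, smul_sub, one_smul]; abel
    have hA : μ ((z - 1) • v) = ‖z - 1‖ * μ v := hμs _ _
    have hB : μ (z • ((X ^ a) v - v)) ≤ r * μ v := by
      rw [hμs, hz, one_mul]; exact hXa a v hv
    have hrle : r * μ v ≤ ‖z - 1‖ * μ v := mul_le_mul_of_nonneg_right hrz.le (hμ0 v)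
    rw [e]
    apply le_antisymm
    · exact (hμadd _ _).trans (max_le hA.le (hB.trans hrle))
    · have h1 : μ ((z - 1) • v) ≤
          max (μ ((z - 1) • v + z • ((X ^ a) v - v))) (μ (z • ((X ^ a) v - v))) := by
        have h2 := hμadd ((z - 1) • v + z • ((X ^ a) v - v)) ((-1 : K) • (z • ((X ^ a) v - v)))
        rw [hμs (-1)] at h2
        simpa using h2
      rw [hA] at h1
      rcases le_max_iff.mp h1 with h | h
      · exact h
      · have h3 : ‖z - 1‖ * μ v ≤ r * μ v := h.trans hB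
        have h4 : μ v ≤ 0 := by
          by_contra hcon
          push Not at hcon
          have := mul_lt_mul_of_pos_right hrz hcon
          linarith
        have h5 : μ v = 0 := le_antisymm h4 (hμ0 v)
        rw [h5, mul_zero]
        exact hμ0 _

open Polynomial in
theorem DQ : StmDQ := by
  intro p _ l
  have h : (C (p : ℤ)) ∣ ((X - 1 : ℤ[X]) ^ (p ^ l) - (X ^ (p ^ l) - 1)) := by
    have h1 : Polynomial.map (Int.castRingHom (ZMod p))
        ((X - 1 : ℤ[X]) ^ (p ^ l) - (X ^ (p ^ l) - 1)) = 0 := by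
      simp only [Polynomial.map_sub, Polynomial.map_pow, Polynomial.map_X, Polynomial.map_one]
      rw [sub_pow_char_pow]
      simp
    rw [Polynomial.C_dvd_iff_dvd_coeff]
    intro i
    have h2 := congrArg (fun f => Polynomial.coeff f i) h1
    simp only [Polynomial.coeff_map, Polynomial.coeff_zero] at h2
    rw [← ZMod.intCast_zmod_eq_zero_iff_dvd]
    simpa using h2
  obtain ⟨E, hE⟩ := h
  refine ⟨E, ?_⟩
  have h3 : (p : ℤ[X]) = C (p : ℤ) := by simp
  rw [h3, ← hE]
  ring

end Pool.R902.HN
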