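import Pool.Agent.R902.HN.Stm

open scoped Matrix

namespace Pool.R902.HN

noncomputable section

section

variable {K : Type} [NormedField K] {p : ℕ} [Fact p.Prime] {d : ℕ}

theorem norm_natCast_of_not_dvd {c : ℕ} (h : ¬ p ∣ c) : ‖(c : ℚ_[p])‖ = 1 := by
  have h1 : ‖((c : ℤ) : ℚ_[p])‖ ≤ 1 := Padic.norm_int_le_one _
  have h2 : ¬ ‖((c : ℤ) : ℚ_[p])‖ < 1 := by
    rw [Padic.norm_intCast_lt_one_iff]
    exact_mod_cast h
  rw [Int.cast_natCast] at h1 h2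
  exact le_antisymm h1 (not_lt.mp h2)

theorem card_cset (j : ℕ) : (cset p (j + 1)).card = p ^ j * (p - 1) := by
  have hp : p.Prime := Fact.out
  rw [← Nat.totient_prime_pow_succ hp j, Nat.totient, cset]
  congr 1
  ext c
  simp only [Finset.mem_filter, Finset.mem_range, and_congr_right_iff]
  intro _
  rw [Nat.coprime_pow_left_iff (Nat.succ_pos j), Nat.Prime.coprime_iff_not_dvd hp]

/-- The elements of `𝒮` supported on the unit ball. -/
def PZ (K : Type) [NormedField K] (p : ℕ) [Fact p.Prime] (d : ℕ) : Submodule K (SB K p d) where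
  carrier := {f | ∀ x, x ∉ ballSet (0 : Q p d) 0 → f.1 x = 0}
  add_mem' := by
    intro f g hf hg x hx
    simp [hf x hx, hg x hx]
  zero_mem' := by
    intro x _
    rfl
  smul_mem' := by
    intro c f hf x hx
    simp [hf x hx]

theorem mem_PZ {f : SB K p d} : f ∈ PZ K p d ↔ ∀ x, x ∉ ballSet (0 : Q p d) 0 → f.1 x = 0 := Iff.rfl

theorem mulC_mem_PZ (χ : LocallyConstant (Q p d) K) {f : SB K p d} (hf : f ∈ PZ K p d) :
    mulC χ f ∈ PZ K p d := by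
  intro x hx
  rw [mulC_apply, hf x hx, mul_zero]

theorem mulC_mul (χ χ' : LocallyConstant (Q p d) K) (f : SB K p d) :
    mulC (χ * χ') f = mulC χ (mulC χ' f) := by
  ext x
  simp [mul_assoc]

theorem mulC_one (f : SB K p d) : mulC (1 : LocallyConstant (Q p d) K) f = f := by
  ext x
  simp

theorem norm_p_gt_one : (1 : ℝ) < p := by exact_mod_cast (Fact.out : p.Prime).one_lt

theorem mem_ball00 {x : Q p d} : x ∈ ballSet (0 : Q p d) 0 ↔ ∀ i, ‖x i‖ ≤ 1 := by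
  simp [ballSet]

end

/-- The numerical bound. -/
theorem num_bound (p : ℕ) [Fact p.Prime] (j : ℕ) :
    (p : ℝ) ^ ((1 : ℝ) / ((p : ℝ) ^ (2 * j) * ((p : ℝ) - 1)) *
      ((p ^ j * (p - 1) : ℕ) + 2 * ((p ^ j : ℕ) - 1))) ≤ (p : ℝ) ^ ((3 : ℝ) / 2 ^ j) := by
  have hp : p.Prime := Fact.out
  have hp1 : (1 : ℝ) < p := norm_p_gt_one
  have hp2 : (2 : ℝ) ≤ p := by exact_mod_cast hp.two_le
  apply Real.rpow_le_rpow_of_exponent_le hp1.le
  have hq : (0 : ℝ) < (p : ℝ) ^ j := by positivity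
  have hq2 : (2 : ℝ) ^ j ≤ (p : ℝ) ^ j := pow_le_pow_left₀ (by norm_num) hp2 j
  have h2 : (0 : ℝ) < (2 : ℝ) ^ j := by positivity
  have hpm : (0 : ℝ) < (p : ℝ) - 1 := by linarith
  have hcast : ((p ^ j * (p - 1) : ℕ) : ℝ) = (p : ℝ) ^ j * ((p : ℝ) - 1) := by
    push_cast [Nat.cast_sub hp.one_le]
    ring
  rw [hcast]
  push_cast
  have e1 : (p : ℝ) ^ (2 * j) = (p : ℝ) ^ j * (p : ℝ) ^ j := by rw [two_mul, pow_add]
  rw [e1]
  calc 1 / ((p : ℝ) ^ j * (p : ℝ) ^ j * ((p : ℝ) - 1)) *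
        ((p : ℝ) ^ j * ((p : ℝ) - 1) + 2 * ((p : ℝ) ^ j - 1))
      ≤ 1 / ((p : ℝ) ^ j * (p : ℝ) ^ j * ((p : ℝ) - 1)) *
        ((p : ℝ) ^ j * ((p : ℝ) - 1) + 2 * ((p : ℝ) ^ j * ((p : ℝ) - 1))) := by
        apply mul_le_mul_of_nonneg_left _ (by positivity)
        nlinarith
    _ = 3 / (p : ℝ) ^ j := by
        field_simp
        ring
    _ ≤ 3 / 2 ^ j := by
        apply div_le_div_of_nonneg_left (by norm_num) h2 hq2

section aux

variable {K : Type} [NormedField K] [IsUltrametricDist K] {V : Type} [AddCommGroup V] [Module K V]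

/-- An integer polynomial in a contraction is a contraction. -/
theorem nu_poly (ν : V → ℝ) (hs : ∀ (c : K) v, ν (c • v) = ‖c‖ * ν v)
    (h0 : ∀ v, 0 ≤ ν v)
    (ha : ∀ v w, ν (v + w) ≤ max (ν v) (ν w)) (X : V →ₗ[K] V)
    (hX : ∀ v, ν (X v) ≤ ν v) (E : Polynomial ℤ) (v : V) :
    ν ((Polynomial.aeval X E) v) ≤ ν v := by
  have hpow : ∀ (k : ℕ) (v : V), ν ((X ^ k) v) ≤ ν v := by
    intro k
    induction k with
    | zero => intro v; simp
    | succ k ih =>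
      intro v
      rw [pow_succ', Module.End.mul_apply]
      exact (hX _).trans (ih v)
  induction E using Polynomial.induction_on' with
  | add f g hf hg =>
    rw [map_add, LinearMap.add_apply]
    exact (ha _ _).trans (max_le hf hg)
  | monomial n a =>
    rw [Polynomial.aeval_monomial, Module.End.mul_apply]
    have h1 : (algebraMap ℤ (Module.End K V) a) ((X ^ n) v) = (a : K) • ((X ^ n) v) := by
      rw [eq_intCast, Module.End.intCast_apply, Int.cast_smul_eq_zsmul]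
    rw [h1, hs]
    calc ‖(a : K)‖ * ν ((X ^ n) v) ≤ 1 * ν v :=
          mul_le_mul (IsUltrametricDist.norm_intCast_le_one K a) (hpow n v) (h0 _) zero_le_one
      _ = ν v := one_mul _

theorem Dq_bound (hDQ : StmDQ) (ν : V → ℝ) (hs : ∀ (c : K) v, ν (c • v) = ‖c‖ * ν v)
    (h0 : ∀ v, 0 ≤ ν v)
    (ha : ∀ v w, ν (v + w) ≤ max (ν v) (ν w)) (X : V →ₗ[K] V)
    (hX : ∀ v, ν (X v) ≤ ν v) (p : ℕ) [Fact p.Prime] (l : ℕ) (v : V)
    (hv : (X ^ (p ^ l)) v = v) : ν (((X - 1) ^ (p ^ l)) v) ≤ ‖(p : K)‖ * ν v := by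
  obtain ⟨E, hE⟩ := hDQ p l
  have h1 : (X - 1) ^ (p ^ l) = X ^ (p ^ l) - 1 + (p : Module.End K V) * (Polynomial.aeval X E) := by
    have h2 := congrArg (Polynomial.aeval X) hE
    simp only [map_pow, map_sub, Polynomial.aeval_X, map_one, map_add, map_mul,
      map_natCast] at h2
    exact h2
  rw [h1, LinearMap.add_apply, LinearMap.sub_apply, Module.End.one_apply, hv, sub_self,
    zero_add, Module.End.mul_apply, Module.End.natCast_apply, ← Nat.cast_smul_eq_nsmul K, hs]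
  exact mul_le_mul_of_nonneg_left (nu_poly ν hs h0 ha X hX E v) (norm_nonneg _)

end aux


section one

variable {K : Type} [NormedField K] {p : ℕ} [Fact p.Prime] {d : ℕ}

theorem padic_id (m : ℤ) (l c : ℕ) (t : ℚ_[p]) :
    (p : ℚ_[p]) ^ (m + 1) * (t - c / (p : ℚ_[p]) ^ (l + 1)) ^ 2 =
      ((p : ℚ_[p]) ^ (m + 1) * (c / (p : ℚ_[p]) ^ (l + 1)) ^ 2 +
        ((2 * c * (p ^ l - 1) : ℕ) : ℚ_[p]) * ((p : ℚ_[p]) ^ (m - l) * t)) +
        (p : ℚ_[p]) ^ m * (p * t ^ 2 - 2 * c * t) := by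
  have hpq : (p : ℚ_[p]) ≠ 0 := by exact_mod_cast (Fact.out : p.Prime).ne_zero
  have hq1 : 1 ≤ p ^ l := Nat.one_le_pow _ _ (Fact.out : p.Prime).pos
  have e4 : ((2 * c * (p ^ l - 1) : ℕ) : ℚ_[p]) = 2 * c * ((p : ℚ_[p]) ^ l - 1) := by
    rw [Nat.cast_mul, Nat.cast_sub hq1]
    push_cast
    ring
  have e5 : (p : ℚ_[p]) ^ (m + 1) = (p : ℚ_[p]) ^ m * p := by
    rw [zpow_add₀ hpq, zpow_one]
  have e6 : (p : ℚ_[p]) ^ (m - l) = (p : ℚ_[p]) ^ m * ((p : ℚ_[p]) ^ l)⁻¹ := by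
    rw [zpow_sub₀ hpq, zpow_natCast, div_eq_mul_inv]
  have h7 : (p : ℚ_[p]) ^ l ≠ 0 := pow_ne_zero _ hpq
  have e7 : (p : ℚ_[p]) ^ (l + 1) = (p : ℚ_[p]) ^ l * p := pow_succ _ _
  rw [e4, e5, e6, e7]
  clear e4 e5 e6 e7 hq1
  revert h7 hpq
  generalize (p : ℚ_[p]) ^ m = A
  generalize (p : ℚ_[p]) ^ l = B
  generalize (p : ℚ_[p]) = P
  intro hP hB
  field_simp
  ring

theorem norm_le_aux (m : ℤ) (c : ℕ) (t : ℚ_[p]) (ht : ‖t‖ ≤ 1) :
    ‖(p : ℚ_[p]) ^ m * (p * t ^ 2 - 2 * c * t)‖ ≤ (p : ℝ) ^ (-m) := by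
  have hp0 : (0 : ℝ) < p := by exact_mod_cast (Fact.out : p.Prime).pos
  rw [norm_mul, Padic.norm_p_zpow]
  have h9 : ‖(p : ℚ_[p]) * t ^ 2 - 2 * c * t‖ ≤ 1 := by
    have a1 : ‖(p : ℚ_[p]) * t ^ 2‖ ≤ 1 := by
      rw [norm_mul, norm_pow]
      calc ‖(p : ℚ_[p])‖ * ‖t‖ ^ 2 ≤ 1 * 1 ^ 2 := by
            gcongr
            exact Padic.norm_p_lt_one.le
        _ = 1 := by norm_num
    have a2 : ‖(2 : ℚ_[p]) * c * t‖ ≤ 1 := by
      have a3 : ‖(2 : ℚ_[p]) * c‖ ≤ 1 := by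
        have := Padic.norm_int_le_one (p := p) (2 * c : ℤ)
        exact_mod_cast this
      rw [norm_mul]
      calc ‖(2 : ℚ_[p]) * c‖ * ‖t‖ ≤ 1 * 1 := by gcongr
        _ = 1 := by norm_num
    have := Padic.nonarchimedean ((p : ℚ_[p]) * t ^ 2) (-((2 : ℚ_[p]) * (c : ℚ_[p]) * t))
    rw [norm_neg, ← sub_eq_add_neg] at this
    exact this.trans (max_le a1 a2)
  calc (p : ℝ) ^ (-m) * ‖(p : ℚ_[p]) * t ^ 2 - 2 * c * t‖
      ≤ (p : ℝ) ^ (-m) * 1 := by gcongr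
    _ = _ := mul_one _

/-- the translation operator `X` -/
def opX (ψ : AddChar ℚ_[p] K) (hψ : IsOpen {t : ℚ_[p] | ψ t = 1}) (m : ℤ) (l : ℕ) (i : Fin d) :
    SB K p d →ₗ[K] SB K p d := mulC (chr ψ hψ (Pi.single i ((p : ℚ_[p]) ^ (m - l))))

theorem opX_apply (ψ : AddChar ℚ_[p] K) (hψ : IsOpen {t : ℚ_[p] | ψ t = 1}) (m : ℤ) (l : ℕ)
    (i : Fin d) (v : SB K p d) (x : Q p d) :
    (opX ψ hψ m l i v).1 x = ψ ((p : ℚ_[p]) ^ (m - l) * x i) * v.1 x := by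
  simp only [opX, mulC_apply, chr_apply, single_dotProduct]

theorem opX_pow (ψ : AddChar ℚ_[p] K) (hψ : IsOpen {t : ℚ_[p] | ψ t = 1}) (m : ℤ) (l : ℕ)
    (i : Fin d) (a : ℕ) (v : SB K p d) (x : Q p d) :
    (((opX ψ hψ m l i) ^ a) v).1 x =
      ψ ((a : ℚ_[p]) * ((p : ℚ_[p]) ^ (m - l) * x i)) * v.1 x := by
  induction a with
  | zero => simp
  | succ a ih =>
    rw [pow_succ', Module.End.mul_apply, opX_apply, ih, ← mul_assoc, ← AddChar.map_add_eq_mul]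
    congr 2
    push_cast
    ring

theorem opX_q (ψ : AddChar ℚ_[p] K) (hψ : IsOpen {t : ℚ_[p] | ψ t = 1}) (m : ℤ)
    (hm : IsCond ψ m) (l : ℕ) (i : Fin d) (v : SB K p d) (hv : v ∈ PZ K p d) :
    ((opX ψ hψ m l i) ^ (p ^ l)) v = v := by
  have hp0 : (0 : ℝ) < p := by exact_mod_cast (Fact.out : p.Prime).pos
  have hpq : (p : ℚ_[p]) ≠ 0 := by exact_mod_cast (Fact.out : p.Prime).ne_zero
  ext x
  rw [opX_pow]
  by_cases hx : x ∈ ballSet (0 : Q p d) 0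
  · have h1 : ψ (((p ^ l : ℕ) : ℚ_[p]) * ((p : ℚ_[p]) ^ (m - l) * x i)) = 1 := by
      apply hm.1
      have e : ((p ^ l : ℕ) : ℚ_[p]) * ((p : ℚ_[p]) ^ (m - l) * x i) = (p : ℚ_[p]) ^ m * x i := by
        rw [← mul_assoc]
        congr 1
        rw [Nat.cast_pow, ← zpow_natCast, ← zpow_add₀ hpq]
        congr 1
        ring
      rw [e, norm_mul, Padic.norm_p_zpow]
      have := mem_ball00.mp hx i
      calc (p : ℝ) ^ (-m) * ‖x i‖ ≤ (p : ℝ) ^ (-m) * 1 := by gcongr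
        _ = _ := mul_one _
    rw [h1, one_mul]
  · rw [hv x hx, mul_zero]

theorem theta_op (ψ : AddChar ℚ_[p] K) (hψ : IsOpen {t : ℚ_[p] | ψ t = 1}) (m : ℤ)
    (hm : IsCond ψ m) (l c : ℕ) (i : Fin d) (v : SB K p d) (hv : v ∈ PZ K p d) :
    mulC (theta ψ hψ m i (l + 1) c) v =
      ψ ((p : ℚ_[p]) ^ (m + 1) * (c / (p : ℚ_[p]) ^ (l + 1)) ^ 2) •
        ((opX ψ hψ m l i) ^ (2 * c * (p ^ l - 1))) v - v := by
  ext x
  have e1 : ∀ (z : K) (w : SB K p d), (z • w - v).1 x = z * w.1 x - v.1 x := by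
    intro z w; rfl
  rw [e1, opX_pow, mulC_apply, theta_apply]
  by_cases hx : x ∈ ballSet (0 : Q p d) 0
  · have hxi := mem_ball00.mp hx i
    rw [padic_id, AddChar.map_add_eq_mul, AddChar.map_add_eq_mul,
      hm.1 _ (norm_le_aux m c (x i) hxi), mul_one]
    ring
  · rw [hv x hx]
    ring

end one

theorem BLK (hFT : StmFT) (hSN : StmSN) (hAL : StmAL) (hDQ : StmDQ) (hRU : StmRU) : StmBLK := by
  intro K _ _ _ p _ hK d ψ hψ m hm I hI i j hj h B hsupp hB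
  obtain ⟨l, rfl⟩ : ∃ l, j = l + 1 := ⟨j - 1, by omega⟩
  simp only [Nat.add_sub_cancel]
  have hp : p.Prime := Fact.out
  have hp1 : (1 : ℝ) < p := norm_p_gt_one
  have hp0 : (0 : ℝ) < p := by linarith
  have hpq : (p : ℚ_[p]) ≠ 0 := by exact_mod_cast hp.ne_zero
  obtain ⟨F, hF1, -⟩ := hFT K p d ψ hψ m hm I hI
  obtain ⟨sn1, sn2, sn3, sn4, sn5, sn6, sn7⟩ := hSN K p d
  obtain ⟨hu, hru⟩ := hRU K p hK ψ m hm
  obtain ⟨ν, hν⟩ : ∃ ν : SB K p d → ℝ, ∀ f, ν f = supNorm (F f) := ⟨_, fun _ => rfl⟩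
  have ν0 : ∀ v, 0 ≤ ν v := fun v => by rw [hν]; exact sn4 _
  have νs : ∀ (c : K) v, ν (c • v) = ‖c‖ * ν v := fun c v => by
    simp only [hν, map_smul]; exact sn5 _ _
  have νa : ∀ v w, ν (v + w) ≤ max (ν v) (ν w) := fun v w => by
    simp only [hν, map_add]; exact sn6 _ _
  have hXP : ∀ v ∈ PZ K p d, opX ψ hψ m l i v ∈ PZ K p d := fun v hv => mulC_mem_PZ _ hv
  have hXν : ∀ v, ν (opX ψ hψ m l i v) ≤ ν v := by
    intro v
    rw [hν, hν]
    apply sn2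
    intro y
    rw [hF1]
    have : mulC (chr ψ hψ y) (opX ψ hψ m l i v) =
        mulC (chr ψ hψ (y + Pi.single i ((p : ℚ_[p]) ^ (m - l)))) v := by
      ext x
      simp only [opX, mulC_apply, chr_apply]
      rw [add_dotProduct, AddChar.map_add_eq_mul, mul_assoc]
    rw [this, ← hF1]
    exact sn1 _ _
  -- the constants
  obtain ⟨r0, hr0⟩ : ∃ r0 : ℝ,
    r0 = (p : ℝ) ^ (-((1 : ℝ) / ((p : ℝ) ^ (2 * l) * ((p : ℝ) - 1)))) := ⟨_, rfl⟩
  have hden : (0 : ℝ) < (p : ℝ) ^ (2 * l) * ((p : ℝ) - 1) := by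
    apply mul_pos (by positivity); linarith
  have hr0pos : 0 < r0 := by rw [hr0]; exact Real.rpow_pos_of_pos hp0 _
  have hr0lt : r0 < 1 := by
    rw [hr0]
    apply Real.rpow_lt_one_of_one_lt_of_neg hp1
    rw [neg_lt_zero]
    positivity
  have hrpos : 0 < r0 ^ 2 := by positivity
  have hrr0 : r0 ^ 2 < r0 := by nlinarith
  have hrlt : r0 ^ 2 < 1 := hrr0.trans hr0lt
  have hq1 : 1 ≤ p ^ l := Nat.one_le_pow _ _ hp.pos
  have hD : ∀ v ∈ PZ K p d, ν (((opX ψ hψ m l i - 1) ^ (p ^ l)) v) ≤ (r0 ^ 2) ^ (p ^ l) * ν v := by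
    intro v hv
    rcases Nat.eq_zero_or_pos l with hl | hl
    · have h2 : ((opX ψ hψ m l i - 1) ^ (p ^ l)) v = 0 := by
        have h3 := opX_q ψ hψ m hm l i v hv
        subst hl
        rw [pow_zero, pow_one] at h3
        rw [pow_zero, pow_one, LinearMap.sub_apply, Module.End.one_apply, h3, sub_self]
      rw [h2]
      have h3 : ν 0 = 0 := by
        have := νs 0 0
        simpa using this
      rw [h3]
      have := ν0 v
      positivity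
    · have h3 := Dq_bound hDQ ν νs ν0 νa (opX ψ hψ m l i) hXν p l v (opX_q ψ hψ m hm l i v hv)
      rw [hK] at h3
      have h4 : (p : ℝ)⁻¹ ≤ (r0 ^ 2) ^ (p ^ l) := by
        rw [← pow_mul, hr0, ← Real.rpow_natCast, ← Real.rpow_mul hp0.le,
          ← Real.rpow_neg_one]
        apply Real.rpow_le_rpow_of_exponent_le hp1.le
        rw [neg_mul, neg_le_neg_iff]
        rw [one_div, inv_mul_le_iff₀ hden, mul_one]
        push_cast
        obtain ⟨l', rfl⟩ : ∃ l', l = l' + 1 := ⟨l - 1, by omega⟩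
        have h5 : (2 : ℝ) ≤ (p : ℝ) ^ (l' + 1) * ((p : ℝ) - 1) := by
          have hp2 : (2 : ℝ) ≤ p := by exact_mod_cast hp.two_le
          have h6 : (2 : ℝ) ≤ (p : ℝ) ^ (l' + 1) := by
            calc (2 : ℝ) ≤ (p : ℝ) ^ 1 := by simpa using hp2
              _ ≤ _ := pow_le_pow_right₀ hp1.le (by omega)
          nlinarith
        have h7 : (0 : ℝ) < (p : ℝ) ^ (l' + 1) := by positivity
        calc 2 * (p : ℝ) ^ (l' + 1) ≤ ((p : ℝ) ^ (l' + 1) * ((p : ℝ) - 1)) * (p : ℝ) ^ (l' + 1) := by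
              gcongr
          _ = _ := by ring
      exact h3.trans (mul_le_mul_of_nonneg_right h4 (ν0 _))
  obtain ⟨μ, hμ1, hμ2, hμ3⟩ := hAL K (SB K p d) ν ν0 νs νa (opX ψ hψ m l i) (PZ K p d) hXP
    (fun v _ => hXν v) (r0 ^ 2) hrpos hrlt (p ^ l) hq1 hD
  -- one factor
  have hone : ∀ c ∈ cset p (l + 1), ∀ v ∈ PZ K p d,
      μ (mulC (theta ψ hψ m i (l + 1) c) v) = r0 * μ v := by
    intro c hc v hv
    have hc' : ¬ p ∣ c := (Finset.mem_filter.mp hc).2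
    have hz1 := hu ((p : ℚ_[p]) ^ (m + 1) * (c / (p : ℚ_[p]) ^ (l + 1)) ^ 2)
    have hz2 : ‖ψ ((p : ℚ_[p]) ^ (m + 1) * (c / (p : ℚ_[p]) ^ (l + 1)) ^ 2) - 1‖ = r0 := by
      have h1 := hru (2 * l + 1) (by omega)
        ((p : ℚ_[p]) ^ (m + 1) * (c / (p : ℚ_[p]) ^ (l + 1)) ^ 2) (by
          rw [norm_mul, Padic.norm_p_zpow, norm_pow, norm_div, norm_natCast_of_not_dvd hc',
            norm_pow, Padic.norm_p]
          have e9 : ((1 : ℝ) / (p : ℝ)⁻¹ ^ (l + 1)) ^ 2 = (p : ℝ) ^ ((2 * (l + 1) : ℕ) : ℤ) := by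
            rw [zpow_natCast, one_div, inv_pow, inv_pow, inv_pow, inv_inv, ← pow_mul, mul_comm]
          rw [e9, ← zpow_add₀ hp0.ne']
          congr 1
          push_cast
          ring)
      rw [h1, hr0]
      congr 1
      simp only [Nat.add_sub_cancel]
      ring
    rw [theta_op ψ hψ m hm l c i v hv, hμ3 _ _ v hv hz1 (by rw [hz2]; exact hrr0), hz2]
  -- the block
  have hblk : ∀ s : Finset ℕ, s ⊆ cset p (l + 1) → ∀ v ∈ PZ K p d,
      μ (mulC (∏ c ∈ s, theta ψ hψ m i (l + 1) c) v) = r0 ^ s.card * μ v := by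
    intro s
    induction s using Finset.induction_on with
    | empty => intro _ v _; simp [mulC_one]
    | insert c s hcs ih =>
      intro hs v hv
      rw [Finset.prod_insert hcs, mulC_mul, Finset.card_insert_of_notMem hcs,
        hone c (hs (Finset.mem_insert_self _ _)) _ (mulC_mem_PZ _ hv),
        ih (fun x hx => hs (Finset.mem_insert_of_mem hx)) v hv]
      ring
  have hmain : μ (mulC (block ψ hψ m i (l + 1)) h) = r0 ^ (p ^ l * (p - 1)) * μ h := by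
    rw [← card_cset]
    exact hblk _ (Finset.Subset.refl _) h hsupp
  have hνB : ν (mulC (block ψ hψ m i (l + 1)) h) ≤ B := by
    rw [hν]
    apply sn2
    intro y
    rw [hF1]
    exact hB y
  have h1 : (r0 ^ 2) ^ (p ^ l - 1) * (r0 ^ (p ^ l * (p - 1)) * μ h) ≤ B := by
    rw [← hmain]
    exact (hμ2 _ (mulC_mem_PZ _ hsupp)).trans hνB
  have h2 : ν h ≤ μ h := hμ1 h hsupp
  have hB0 : 0 ≤ B := (ν0 _).trans hνB
  have hprod : (r0 ^ 2) ^ (p ^ l - 1) * r0 ^ (p ^ l * (p - 1)) =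
      (p : ℝ) ^ (-((1 : ℝ) / ((p : ℝ) ^ (2 * l) * ((p : ℝ) - 1)) *
      ((p ^ l * (p - 1) : ℕ) + 2 * ((p ^ l : ℕ) - 1)))) := by
    rw [← pow_mul, ← pow_add, hr0, ← Real.rpow_natCast, ← Real.rpow_mul hp0.le]
    congr 1
    have e1 : ((p ^ l - 1 : ℕ) : ℝ) = ((p ^ l : ℕ) : ℝ) - 1 := by
      rw [Nat.cast_sub hq1, Nat.cast_one]
    rw [Nat.cast_add, Nat.cast_mul 2, e1]
    push_cast
    ring
  have h3 : ν h ≤ (p : ℝ) ^ ((3 : ℝ) / 2 ^ l) * B := by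
    have hpp : 0 < (r0 ^ 2) ^ (p ^ l - 1) * r0 ^ (p ^ l * (p - 1)) := by positivity
    have h4 : ν h ≤ ((r0 ^ 2) ^ (p ^ l - 1) * r0 ^ (p ^ l * (p - 1)))⁻¹ * B := by
      rw [inv_mul_eq_div, le_div_iff₀ hpp]
      calc ν h * ((r0 ^ 2) ^ (p ^ l - 1) * r0 ^ (p ^ l * (p - 1)))
          ≤ μ h * ((r0 ^ 2) ^ (p ^ l - 1) * r0 ^ (p ^ l * (p - 1))) := by gcongr
        _ = (r0 ^ 2) ^ (p ^ l - 1) * (r0 ^ (p ^ l * (p - 1)) * μ h) := by ring
        _ ≤ B := h1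
    refine h4.trans (mul_le_mul_of_nonneg_right ?_ hB0)
    rw [hprod, Real.rpow_neg hp0.le, inv_inv]
    exact num_bound p l
  intro y
  rw [← hF1]
  have h5 := sn1 (F h) y
  rw [← hν] at h5
  exact h5.trans h3

end

end Pool.R902.HN
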