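import Pool.Agent.R902.HN.Stm

/-! HN-COV: digits, `p^a ℤ_p^d` is the disjoint union of balls, and the cut of `f` into pieces
supported on unit balls. (helper619 for helper902) -/

namespace Pool.R902.HN

/-- The one-dimensional digit lemma. -/
theorem cover_one (p : ℕ) [Fact p.Prime] (a : ℤ) (n : ℕ) (x : ℚ_[p])
    (hx : ‖x‖ ≤ (p : ℝ) ^ (-a)) :
    ∃! j : Fin (p ^ n), ‖x - (p : ℚ_[p]) ^ a * ((j : ℕ) : ℚ_[p])‖ ≤ (p : ℝ) ^ (-(a + n)) := by
  have hp0 : (p : ℚ_[p]) ≠ 0 := by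
    exact_mod_cast (Fact.out : p.Prime).ne_zero
  have hpR : (0 : ℝ) < p := by exact_mod_cast (Fact.out : p.Prime).pos
  have hpa : (0 : ℝ) < (p : ℝ) ^ (-a) := zpow_pos hpR _
  have hu : ‖x * (p : ℚ_[p]) ^ (-a)‖ ≤ 1 := by
    rw [norm_mul, Padic.norm_p_zpow, neg_neg]
    calc ‖x‖ * (p : ℝ) ^ a ≤ (p : ℝ) ^ (-a) * (p : ℝ) ^ a :=
          mul_le_mul_of_nonneg_right hx (zpow_pos hpR _).le
      _ = 1 := by rw [← zpow_add₀ hpR.ne']; simp
  have key : ∀ j : ℕ, ‖x - (p : ℚ_[p]) ^ a * (j : ℚ_[p])‖ ≤ (p : ℝ) ^ (-(a + n)) ↔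
      ‖x * (p : ℚ_[p]) ^ (-a) - (j : ℚ_[p])‖ ≤ (p : ℝ) ^ (-(n : ℤ)) := by
    intro j
    have h1 : x - (p : ℚ_[p]) ^ a * (j : ℚ_[p]) =
        (p : ℚ_[p]) ^ a * (x * (p : ℚ_[p]) ^ (-a) - (j : ℚ_[p])) := by
      have h2 : (p : ℚ_[p]) ^ a * (p : ℚ_[p]) ^ (-a) = 1 := by
        rw [← zpow_add₀ hp0]; simp
      linear_combination (-x) * h2
    rw [h1, norm_mul, Padic.norm_p_zpow]
    have h3 : (p : ℝ) ^ (-(a + n)) = (p : ℝ) ^ (-a) * (p : ℝ) ^ (-(n : ℤ)) := by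
      rw [← zpow_add₀ hpR.ne']
      congr 1
      ring
    rw [h3, mul_le_mul_iff_right₀ hpa]
  set u : ℤ_[p] := ⟨x * (p : ℚ_[p]) ^ (-a), hu⟩ with hudef
  refine ⟨⟨u.appr n, PadicInt.appr_lt u n⟩, ?_, ?_⟩
  · show ‖x - (p : ℚ_[p]) ^ a * ((u.appr n : ℕ) : ℚ_[p])‖ ≤ (p : ℝ) ^ (-(a + n))
    rw [key]
    have h4 := (PadicInt.norm_le_pow_iff_mem_span_pow (u - (u.appr n : ℤ_[p])) n).2
      (PadicInt.appr_spec n u)
    rw [PadicInt.norm_def] at h4
    push_cast at h4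
    exact h4
  · intro j hj
    have hj' : ‖x - (p : ℚ_[p]) ^ a * ((j : ℕ) : ℚ_[p])‖ ≤ (p : ℝ) ^ (-(a + n)) := hj
    rw [key] at hj'
    have h4 := (PadicInt.norm_le_pow_iff_mem_span_pow (u - (u.appr n : ℤ_[p])) n).2
      (PadicInt.appr_spec n u)
    rw [PadicInt.norm_def] at h4
    push_cast at h4
    have h5 : ‖(((j : ℕ) : ℤ) - ((u.appr n : ℕ) : ℤ) : ℚ_[p])‖ ≤ (p : ℝ) ^ (-(n : ℤ)) := by
      have h6 : (((j : ℕ) : ℤ) - ((u.appr n : ℕ) : ℤ) : ℚ_[p]) =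
          ((u : ℚ_[p]) - ((u.appr n : ℕ) : ℚ_[p])) -
          (x * (p : ℚ_[p]) ^ (-a) - ((j : ℕ) : ℚ_[p])) := by
        rw [hudef]
        push_cast
        ring
      rw [h6]
      rw [sub_eq_add_neg]
      refine (IsUltrametricDist.norm_add_le_max _ _).trans (max_le h4 ?_)
      rw [norm_neg]
      exact hj'
    have h7 : ((p ^ n : ℕ) : ℤ) ∣ (((j : ℕ) : ℤ) - ((u.appr n : ℕ) : ℤ)) := by
      have h70 := (Padic.norm_int_le_pow_iff_dvd (p := p)
        (((j : ℕ) : ℤ) - ((u.appr n : ℕ) : ℤ)) n).1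
      push_cast at h70
      push_cast
      apply h70
      push_cast at h5
      exact h5
    have h8 : ((j : ℕ) : ℤ) - ((u.appr n : ℕ) : ℤ) = 0 := by
      refine Int.eq_zero_of_abs_lt_dvd h7 ?_
      have h9 : (j : ℕ) < p ^ n := j.2
      have h10 := PadicInt.appr_lt u n
      rw [abs_lt]
      constructor
      · have : ((u.appr n : ℕ) : ℤ) < ((p ^ n : ℕ) : ℤ) := by exact_mod_cast h10
        have h0 : (0 : ℤ) ≤ ((j : ℕ) : ℤ) := Int.natCast_nonneg _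
        linarith
      · have : ((j : ℕ) : ℤ) < ((p ^ n : ℕ) : ℤ) := by exact_mod_cast h9
        have h0 : (0 : ℤ) ≤ ((u.appr n : ℕ) : ℤ) := Int.natCast_nonneg _
        linarith
    apply Fin.ext
    show (j : ℕ) = u.appr n
    omega

/-- LV, part 2. -/
theorem Cover : StmCover := by
  intro p _ d a n x hx
  have hx' : ∀ i, ‖x i‖ ≤ (p : ℝ) ^ (-a) := by
    intro i
    have h := hx i
    simpa using h
  choose j hj hju using fun i => cover_one p a n (x i) (hx' i)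
  refine ⟨j, fun i => hj i, ?_⟩
  intro j' hj'
  funext i
  exact hju i (j' i) (hj' i)

/-- LV, part 4. -/
theorem Cut (hLevel : StmLevel) (hCover : StmCover) : StmCut := by
  intro K _ p _ d f
  classical
  obtain ⟨n, hn, -⟩ := hLevel K p d f
  set z : (Fin d → Fin (p ^ n)) → Q p d :=
    fun j i => (p : ℚ_[p]) ^ (-(n : ℤ)) * ((j i : ℕ) : ℚ_[p]) with hz
  refine ⟨Finset.univ.image z, ?_⟩
  apply Subtype.ext
  funext x
  have hsum : (∑ a ∈ Finset.univ.image z, mulC (ballLC K a 0) f).1 x =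
      ∑ a ∈ Finset.univ.image z, (ballSet a 0).indicator 1 x * f.1 x := by
    rw [AddSubmonoidClass.coe_finsetSum, Finset.sum_apply]
    rfl
  rw [hsum]
  by_cases hx : x ∈ ballSet (0 : Q p d) (-(n : ℤ))
  · obtain ⟨j, hj, hju⟩ := hCover p d (-(n : ℤ)) n x hx
    have hj' : x ∈ ballSet (z j) 0 := by
      have h := hj
      simp only [neg_add_cancel] at h
      exact h
    rw [Finset.sum_eq_single (z j)]
    · rw [Set.indicator_of_mem hj']
      simp
    · intro b hb hbj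
      obtain ⟨j', -, rfl⟩ := Finset.mem_image.1 hb
      have hne : x ∉ ballSet (z j') 0 := by
        intro h
        apply hbj
        have : j' = j := by
          apply hju
          show x ∈ ballSet (z j') (-(n : ℤ) + n)
          rw [neg_add_cancel]
          exact h
        rw [this]
      rw [Set.indicator_of_notMem hne, zero_mul]
    · intro h
      exact absurd (Finset.mem_image_of_mem z (Finset.mem_univ j)) h
  · rw [hn x hx]
    simp

end Pool.R902.HN
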