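import Pool.Agent.R902.HN.Stm

/-!
# HN-EXP: finite Fourier expansion on `ℤ_p^d`, and HN-FE
-/

set_option autoImplicit false

open scoped Matrix

namespace Pool.R902.HN

namespace EXPaux

variable {K : Type} [NormedField K] {p : ℕ} [Fact p.Prime] {d : ℕ}

/-- approximating a `p`-adic integer by a natural number -/
theorem approx (u : ℚ_[p]) (hu : ‖u‖ ≤ 1) (n : ℕ) :
    ∃ a : ℕ, ‖u - a‖ ≤ (p : ℝ) ^ (-(n : ℤ)) := by
  obtain ⟨v, hv⟩ : ∃ v : ℤ_[p], v = ⟨u, hu⟩ := ⟨_, rfl⟩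
  refine ⟨v.appr n, ?_⟩
  have h1 := PadicInt.appr_spec n v
  rw [← PadicInt.norm_le_pow_iff_mem_span_pow] at h1
  have h2 : ‖v - (v.appr n : ℤ_[p])‖ = ‖u - (v.appr n : ℚ_[p])‖ := by
    rw [PadicInt.norm_def]
    push_cast
    rw [hv]
  rw [h2] at h1
  exact h1

/-- if `ψ v = 1` with `|v| > p^{-m}` then `ψ` is trivial on `p^{m-1} ℤ_p` -/
theorem psi_ne (ψ : AddChar ℚ_[p] K) (m : ℤ) (hm : IsCond ψ m) (v : ℚ_[p])
    (hv : (p : ℝ) ^ (-m) < ‖v‖) : ψ v ≠ 1 := by
  intro h1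
  obtain ⟨h0, t, ht, hne⟩ := hm
  apply hne
  have hp1 : (1 : ℝ) < p := by exact_mod_cast (Fact.out : p.Prime).one_lt
  have hp0 : (0 : ℝ) < p := by linarith
  have hv0 : v ≠ 0 := by
    rintro rfl
    rw [norm_zero] at hv
    have := zpow_pos hp0 (-m)
    linarith
  have hvn : (p : ℝ) ^ (-m + 1) ≤ ‖v‖ := by
    rw [Padic.norm_eq_zpow_neg_valuation hv0] at hv ⊢
    rw [zpow_lt_zpow_iff_right₀ hp1] at hv
    exact zpow_le_zpow_right₀ hp1.le (by omega)
  have hvpos : 0 < ‖v‖ := norm_pos_iff.2 hv0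
  have hu : ‖t / v‖ ≤ 1 := by
    rw [norm_div, div_le_one hvpos]
    exact ht.trans hvn
  obtain ⟨n, hn⟩ : ∃ n : ℕ, ‖v‖ * (p : ℝ) ^ (-(n : ℤ)) ≤ (p : ℝ) ^ (-m) := by
    refine ⟨(v.valuation * (-1) + m).toNat, ?_⟩
    rw [Padic.norm_eq_zpow_neg_valuation hv0, ← zpow_add₀ hp0.ne']
    refine zpow_le_zpow_right₀ hp1.le ?_
    have := Int.self_le_toNat (v.valuation * (-1) + m)
    omega
  obtain ⟨a, ha⟩ := approx (t / v) hu n
  have e1 : t = v * (t / v - a) + a • v := by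
    rw [nsmul_eq_mul]
    field_simp
    ring
  have e2 : ψ (v * (t / v - a)) = 1 := by
    apply h0
    rw [norm_mul]
    exact (mul_le_mul_of_nonneg_left ha hvpos.le).trans hn
  rw [e1, AddChar.map_add_eq_mul, e2, one_mul, AddChar.map_nsmul_eq_pow, h1, one_pow]

theorem norm_pz (k : ℤ) : ‖((p : ℚ_[p]) ^ k)‖ = (p : ℝ) ^ (-k) := by
  rw [norm_zpow, Padic.norm_p, inv_zpow, zpow_neg]

/-- one coordinate -/
theorem sum_one (ψ : AddChar ℚ_[p] K) (m : ℤ) (hm : IsCond ψ m) (n : ℕ) (v : ℚ_[p])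
    (hv : ‖v‖ ≤ 1) : ∑ j : Fin (p ^ n), ψ ((p : ℚ_[p]) ^ (m - n) * ((j : ℕ) : ℚ_[p]) * v) =
      if ‖v‖ ≤ (p : ℝ) ^ (-(n : ℤ)) then (p : K) ^ n else 0 := by
  obtain ⟨z, hz⟩ : ∃ z : K, z = ψ ((p : ℚ_[p]) ^ (m - n) * v) := ⟨_, rfl⟩
  have hp1 : (1 : ℝ) < p := by exact_mod_cast (Fact.out : p.Prime).one_lt
  have hp0 : (0 : ℝ) < p := by linarith
  have hpQ : (p : ℚ_[p]) ≠ 0 := by exact_mod_cast (Fact.out : p.Prime).ne_zero
  have h1 : ∀ j : ℕ, ψ ((p : ℚ_[p]) ^ (m - n) * (j : ℚ_[p]) * v) = z ^ j := by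
    intro j
    rw [hz, ← AddChar.map_nsmul_eq_pow, nsmul_eq_mul]
    congr 1
    ring
  have h2 : ∑ j : Fin (p ^ n), ψ ((p : ℚ_[p]) ^ (m - n) * ((j : ℕ) : ℚ_[p]) * v) =
      ∑ j ∈ Finset.range (p ^ n), z ^ j := by
    rw [← Fin.sum_univ_eq_sum_range]
    exact Finset.sum_congr rfl fun j _ => h1 j
  rw [h2]
  split_ifs with h
  · have h3 : z = 1 := by
      rw [hz]
      apply hm.1
      rw [norm_mul, norm_pz]
      calc (p : ℝ) ^ (-(m - n)) * ‖v‖ ≤ (p : ℝ) ^ (-(m - n)) * (p : ℝ) ^ (-(n : ℤ)) :=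
            mul_le_mul_of_nonneg_left h (zpow_pos hp0 _).le
        _ = (p : ℝ) ^ (-m) := by
            rw [← zpow_add₀ hp0.ne']
            congr 1
            ring
    rw [h3]
    simp
  · have h3 : z ≠ 1 := by
      rw [hz]
      refine psi_ne ψ m hm _ ?_
      rw [norm_mul, norm_pz]
      push Not at h
      calc (p : ℝ) ^ (-m) = (p : ℝ) ^ (-(m - n)) * (p : ℝ) ^ (-(n : ℤ)) := by
            rw [← zpow_add₀ hp0.ne']
            congr 1
            ring
        _ < _ := mul_lt_mul_of_pos_left h (zpow_pos hp0 _)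
    have h4 : z ^ (p ^ n) = 1 := by
      rw [← h1 (p ^ n)]
      apply hm.1
      have h5 : (p : ℚ_[p]) ^ (m - n) * ((p ^ n : ℕ) : ℚ_[p]) = (p : ℚ_[p]) ^ m := by
        push_cast
        rw [← zpow_natCast, ← zpow_add₀ hpQ]
        congr 1
        ring
      rw [h5, norm_mul, norm_pz]
      calc (p : ℝ) ^ (-m) * ‖v‖ ≤ (p : ℝ) ^ (-m) * 1 :=
            mul_le_mul_of_nonneg_left hv (zpow_pos hp0 _).le
        _ = _ := mul_one _
    have h5 := geom_sum_mul z (p ^ n)
    rw [h4, sub_self] at h5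
    rcases mul_eq_zero.1 h5 with h6 | h6
    · exact h6
    · exact absurd (sub_eq_zero.1 h6) h3

/-- the frequencies -/
noncomputable def frq (p : ℕ) [Fact p.Prime] (d : ℕ) (m : ℤ) (n : ℕ)
    (j : Fin d → Fin (p ^ n)) : Q p d :=
  fun i => (p : ℚ_[p]) ^ (m - n) * ((j i : ℕ) : ℚ_[p])

theorem frq_inj (m : ℤ) (n : ℕ) : Function.Injective (frq p d m n) := by
  intro j j' h
  funext i
  have h1 := congrFun h i
  unfold frq at h1
  have hpQ : (p : ℚ_[p]) ≠ 0 := by exact_mod_cast (Fact.out : p.Prime).ne_zero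
  have h2 := mul_left_cancel₀ (zpow_ne_zero _ hpQ) h1
  have h3 : ((j i : ℕ)) = ((j' i : ℕ)) := by exact_mod_cast h2
  exact Fin.ext h3

theorem psi_sum {ι : Type} (ψ : AddChar ℚ_[p] K) (s : Finset ι) (f : ι → ℚ_[p]) :
    ψ (∑ i ∈ s, f i) = ∏ i ∈ s, ψ (f i) := by
  classical
  induction s using Finset.induction_on with
  | empty => rw [Finset.sum_empty, Finset.prod_empty, AddChar.map_zero_eq_one]
  | insert a s ha ih => rw [Finset.sum_insert ha, Finset.prod_insert ha,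
      AddChar.map_add_eq_mul, ih]

theorem char_sum (ψ : AddChar ℚ_[p] K) (m : ℤ) (hm : IsCond ψ m) (n : ℕ) (v : Q p d)
    (hv : ∀ i, ‖v i‖ ≤ 1) : ∑ j : Fin d → Fin (p ^ n), ψ (frq p d m n j ⬝ᵥ v) =
      if ∀ i, ‖v i‖ ≤ (p : ℝ) ^ (-(n : ℤ)) then (p : K) ^ (n * d) else 0 := by
  classical
  have h1 : ∀ j : Fin d → Fin (p ^ n), ψ (frq p d m n j ⬝ᵥ v) =
      ∏ i, ψ ((p : ℚ_[p]) ^ (m - n) * ((j i : ℕ) : ℚ_[p]) * v i) := by
    intro j
    unfold dotProduct frq
    exact psi_sum ψ _ _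
  simp only [h1]
  have h2 := Finset.prod_univ_sum (fun _ : Fin d => (Finset.univ : Finset (Fin (p ^ n))))
    (fun i j => ψ ((p : ℚ_[p]) ^ (m - n) * ((j : ℕ) : ℚ_[p]) * v i))
  rw [Fintype.piFinset_univ] at h2
  rw [← h2]
  simp only [sum_one ψ m hm n _ (hv _)]
  by_cases h : ∀ i, ‖v i‖ ≤ (p : ℝ) ^ (-(n : ℤ))
  · rw [if_pos h, Finset.prod_congr rfl fun i _ => if_pos (h i), Finset.prod_const,
      Finset.card_univ, Fintype.card_fin, pow_mul]
  · rw [if_neg h]
    push Not at h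
    obtain ⟨i, hi⟩ := h
    exact Finset.prod_eq_zero (Finset.mem_univ i) (if_neg (not_le.2 hi))

theorem haar_ball (I : SB K p d →ₗ[K] K) (hI : IsHaar I) (x : Q p d) (n : ℤ) :
    I (ball K x n) = (p : K) ^ (-(n * d)) := by
  have h1 : ball K x n = transl (-x) (ball K 0 n) := by
    ext u
    rw [transl_apply, ball_apply, ball_apply]
    by_cases h : u ∈ ballSet x n
    · rw [Set.indicator_of_mem h, Set.indicator_of_mem]
      · rfl
      · intro i
        have := h i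
        simpa [sub_eq_add_neg] using this
    · rw [Set.indicator_of_notMem h, Set.indicator_of_notMem]
      intro h'
      apply h
      intro i
      have := h' i
      simpa [sub_eq_add_neg] using this
  rw [h1, hI.trans, hI.ball]

end EXPaux

open EXPaux in
theorem EXP (hLevel : StmLevel) : StmEXP := by
  classical
  intro K _ _ p _ d ψ hψ m hm I hI h hh
  obtain ⟨n, -, hn⟩ := hLevel K p d h
  have hp1 : (1 : ℝ) < p := by exact_mod_cast (Fact.out : p.Prime).one_lt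
  have hpK : (p : K) ≠ 0 := by exact_mod_cast (Fact.out : p.Prime).ne_zero
  refine ⟨Finset.univ.image (frq p d m n), ?_⟩
  rw [Finset.sum_image fun a _ b _ hab => frq_inj m n hab]
  ext x
  have hR : (∑ j, I (mulC (chr ψ hψ (-frq p d m n j)) h) •
      mulC (chr ψ hψ (frq p d m n j)) (ball K 0 0)).1 x =
      ∑ j, I (mulC (chr ψ hψ (-frq p d m n j)) h) * (ψ (frq p d m n j ⬝ᵥ x) *
        (ballSet (0 : Q p d) 0).indicator 1 x) := by
    simp [Finset.sum_apply]
  rw [hR]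
  by_cases hx : x ∈ ballSet (0 : Q p d) 0
  swap
  · rw [hh x hx]
    simp [Set.indicator_of_notMem hx]
  rw [Set.indicator_of_mem hx]
  simp only [Pi.one_apply, mul_one]
  have h1 : ∑ j, I (mulC (chr ψ hψ (-frq p d m n j)) h) * ψ (frq p d m n j ⬝ᵥ x) =
      I (∑ j, ψ (frq p d m n j ⬝ᵥ x) • mulC (chr ψ hψ (-frq p d m n j)) h) := by
    rw [map_sum]
    refine Finset.sum_congr rfl fun j _ => ?_
    rw [map_smul, smul_eq_mul, mul_comm]
  have hx1 : ∀ i, ‖x i‖ ≤ 1 := by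
    intro i
    have := hx i
    simpa using this
  have h2 : (∑ j, ψ (frq p d m n j ⬝ᵥ x) • mulC (chr ψ hψ (-frq p d m n j)) h) =
      ((p : K) ^ (n * d) * h.1 x) • ball K x n := by
    ext u
    have h3 : (∑ j, ψ (frq p d m n j ⬝ᵥ x) • mulC (chr ψ hψ (-frq p d m n j)) h).1 u =
        ∑ j, ψ (frq p d m n j ⬝ᵥ (x - u)) * h.1 u := by
      have h4 : (∑ j, ψ (frq p d m n j ⬝ᵥ x) • mulC (chr ψ hψ (-frq p d m n j)) h).1 u =
          ∑ j, ψ (frq p d m n j ⬝ᵥ x) * (ψ ((-frq p d m n j) ⬝ᵥ u) * h.1 u) := by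
        simp [Finset.sum_apply]
      rw [h4]
      refine Finset.sum_congr rfl fun j _ => ?_
      rw [dotProduct_sub, sub_eq_add_neg, AddChar.map_add_eq_mul, neg_dotProduct]
      ring
    rw [h3]
    have h5 : (((p : K) ^ (n * d) * h.1 x) • ball K x n).1 u =
        (p : K) ^ (n * d) * h.1 x * (ballSet x (n : ℤ)).indicator 1 u := rfl
    rw [h5, ← Finset.sum_mul]
    by_cases hu : u ∈ ballSet (0 : Q p d) 0
    · have hu1 : ∀ i, ‖u i‖ ≤ 1 := by
        intro i
        have := hu i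
        simpa using this
      have hxu : ∀ i, ‖(x - u) i‖ ≤ 1 := by
        intro i
        rw [Pi.sub_apply]
        rw [sub_eq_add_neg]
        refine (Padic.nonarchimedean _ _).trans (max_le (hx1 i) ?_)
        rw [norm_neg]
        exact hu1 i
      rw [char_sum ψ m hm n (x - u) hxu]
      by_cases hc : u ∈ ballSet x (n : ℤ)
      · rw [Set.indicator_of_mem hc, if_pos]
        · have h6 : h.1 u = h.1 x := by
            have h7 := hn x (u - x) (by
              intro i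
              have := hc i
              simpa using this)
            rw [add_sub_cancel] at h7
            exact h7
          rw [h6]
          simp
        · intro i
          rw [Pi.sub_apply, norm_sub_rev]
          exact hc i
      · rw [Set.indicator_of_notMem hc, if_neg]
        · simp
        · intro h'
          apply hc
          intro i
          have := h' i
          rw [Pi.sub_apply, norm_sub_rev] at this
          exact this
    · rw [hh u hu, mul_zero, Set.indicator_of_notMem, mul_zero]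
      intro hc
      apply hu
      intro i
      have h7 : ‖u i - x i‖ ≤ 1 := by
        refine (hc i).trans ?_
        rw [zpow_neg, zpow_natCast]
        exact inv_le_one_of_one_le₀ (one_le_pow₀ hp1.le)
      have h8 : ‖u i‖ ≤ 1 := by
        have h9 : u i = (u i - x i) + x i := by ring
        rw [h9]
        exact (Padic.nonarchimedean _ _).trans (max_le h7 (hx1 i))
      simpa using h8
  rw [h1, h2, map_smul, haar_ball I hI, smul_eq_mul]
  have h3 : (p : K) ^ (n * d) * (p : K) ^ (-((n : ℤ) * d)) = 1 := by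
    rw [zpow_neg, ← zpow_natCast (p : K) (n * d)]
    push_cast
    exact mul_inv_cancel₀ (zpow_ne_zero _ hpK)
  calc h.1 x = ((p : K) ^ (n * d) * (p : K) ^ (-((n : ℤ) * d))) * h.1 x := by rw [h3, one_mul]
    _ = _ := by ring

theorem FE (hEXP : StmEXP) : StmFE := by
  classical
  intro K _ _ _ p _ d ψ hψ m hm I hI N hN h B hh hB
  obtain ⟨s, hs⟩ := hEXP K p d ψ hψ m hm I hI h hh
  have hB0 : 0 ≤ B := (norm_nonneg _).trans (hB 0)
  have hN0 : N 0 = 0 := by
    have := hN.smul 0 0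
    rwa [zero_smul, norm_zero, zero_mul] at this
  have hC0 : 0 ≤ B * N (ball K 0 0) := mul_nonneg hB0 (hN.nonneg _)
  have hrho : ∀ b : Q p d, mulC (chr ψ hψ b) (ball K 0 0) = rho ψ hψ 0 b 0 (ball K 0 0) := by
    intro b
    ext x
    rw [mulC_apply, rho_apply, chr_apply]
    simp
  have key : ∀ t : Finset (Q p d), N (∑ b ∈ t, I (mulC (chr ψ hψ (-b)) h) •
      mulC (chr ψ hψ b) (ball K 0 0)) ≤ B * N (ball K 0 0) := by
    intro t
    induction t using Finset.induction_on with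
    | empty => rw [Finset.sum_empty, hN0]; exact hC0
    | insert b t hb ih =>
      rw [Finset.sum_insert hb]
      refine (hN.add _ _).trans (max_le ?_ ih)
      rw [hN.smul, hrho, hN.inv]
      exact mul_le_mul_of_nonneg_right (hB _) (hN.nonneg _)
  rw [hs]
  exact key s

end Pool.R902.HN
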