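import Pool.Agent.R902.HN.Stm

/-! FT (MP_3d6eda_nt): the Fourier transform is a bijection of `𝒮`. helper710. -/

set_option autoImplicit false

open scoped Matrix

namespace Pool.R902.HN

noncomputable section

namespace FTaux

variable {K : Type} [NormedField K] {p : ℕ} [Fact p.Prime] {d : ℕ}

theorem mem_ball0 (x : Q p d) (n : ℤ) :
    x ∈ ballSet (0 : Q p d) n ↔ ∀ i, ‖x i‖ ≤ (p : ℝ) ^ (-n) := by
  simp [ballSet]

theorem add_mem (n : ℤ) (x z : Q p d) (hz : z ∈ ballSet (0 : Q p d) n) :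
    x + z ∈ ballSet (0 : Q p d) n ↔ x ∈ ballSet (0 : Q p d) n := by
  rw [mem_ball0] at *
  rw [mem_ball0]
  constructor
  · intro h i
    have h1 := h i
    have h2 : x i = (x + z) i + -(z i) := by simp
    rw [h2]
    refine (IsUltrametricDist.norm_add_le_max _ _).trans (max_le h1 ?_)
    rw [norm_neg]
    exact hz i
  · intro h i
    exact (IsUltrametricDist.norm_add_le_max _ _).trans (max_le (h i) (hz i))

theorem shift_mem (n : ℤ) (x a : Q p d) :
    x + a ∈ ballSet a n ↔ x ∈ ballSet (0 : Q p d) n := by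
  simp [ballSet]

theorem dot_le (m n : ℤ) (y x : Q p d) (hy : y ∈ ballSet (0 : Q p d) (m - n))
    (hx : x ∈ ballSet (0 : Q p d) n) : ‖y ⬝ᵥ x‖ ≤ (p : ℝ) ^ (-m) := by
  have hp : (0 : ℝ) < p := by exact_mod_cast (Fact.out : p.Prime).pos
  rw [mem_ball0] at hy hx
  unfold dotProduct
  apply IsUltrametricDist.norm_sum_le_of_forall_le_of_nonneg (by positivity)
  intro i _
  rw [norm_mul]
  calc ‖y i‖ * ‖x i‖ ≤ (p : ℝ) ^ (-(m - n)) * (p : ℝ) ^ (-n) :=
        mul_le_mul (hy i) (hx i) (norm_nonneg _) (by positivity)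
    _ = (p : ℝ) ^ (-m) := by
        rw [← zpow_add₀ hp.ne']
        congr 1
        ring

variable (ψ : AddChar ℚ_[p] K) (hψ : IsOpen {t : ℚ_[p] | ψ t = 1})

theorem chr_ball_shift (I : SB K p d →ₗ[K] K) (hI : IsHaar I) (y a : Q p d) (n : ℤ) :
    I (mulC (chr ψ hψ y) (ball K a n)) = ψ (a ⬝ᵥ y) * I (mulC (chr ψ hψ y) (ball K 0 n)) := by
  rw [← hI.trans a, ← smul_eq_mul, ← map_smul]
  congr 1
  ext x
  change ψ (y ⬝ᵥ (x + a)) * (ballSet a n).indicator 1 (x + a) =
    ψ (a ⬝ᵥ y) * (ψ (y ⬝ᵥ x) * (ballSet (0 : Q p d) n).indicator 1 x)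
  rw [dotProduct_add, AddChar.map_add_eq_mul, dotProduct_comm a y]
  by_cases hx : x ∈ ballSet (0 : Q p d) n
  · rw [Set.indicator_of_mem hx, Set.indicator_of_mem ((shift_mem n x a).2 hx)]
    simp only [Pi.one_apply]
    ring
  · rw [Set.indicator_of_notMem hx, Set.indicator_of_notMem fun h => hx ((shift_mem n x a).1 h)]
    ring

theorem chr_ball_zero (m : ℤ) (hm : IsCond ψ m) (I : SB K p d →ₗ[K] K) (hI : IsHaar I)
    (y : Q p d) (n : ℤ) :
    I (mulC (chr ψ hψ y) (ball K 0 n)) =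
      (p : K) ^ (-(n * d)) * (ballSet (0 : Q p d) (m - n)).indicator 1 y := by
  have hp : (0 : ℝ) < p := by exact_mod_cast (Fact.out : p.Prime).pos
  by_cases hy : y ∈ ballSet (0 : Q p d) (m - n)
  · rw [Set.indicator_of_mem hy, Pi.one_apply, mul_one, ← hI.ball n]
    congr 1
    ext x
    change ψ (y ⬝ᵥ x) * (ballSet (0 : Q p d) n).indicator 1 x =
      (ballSet (0 : Q p d) n).indicator 1 x
    by_cases hx : x ∈ ballSet (0 : Q p d) n
    · rw [hm.1 _ (dot_le m n y x hy hx), one_mul]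
    · rw [Set.indicator_of_notMem hx, mul_zero]
  · rw [Set.indicator_of_notMem hy, mul_zero]
    rw [mem_ball0] at hy
    push Not at hy
    obtain ⟨i, hi⟩ := hy
    obtain ⟨t, ht, ht1⟩ := hm.2
    have hyi : (p : ℝ) ^ (-(m - n) + 1) ≤ ‖y i‖ := by
      by_contra hc
      push Not at hc
      exact absurd ((Padic.norm_le_pow_iff_norm_lt_pow_add_one (y i) (-(m - n))).2 hc)
        (not_le.2 hi)
    have hyi0 : y i ≠ 0 := by
      intro h0
      rw [h0, norm_zero] at hyi
      have : (0 : ℝ) < (p : ℝ) ^ (-(m - n) + 1) := by positivity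
      linarith
    set x₀ : Q p d := Pi.single i (t / y i) with hx₀
    have hdot : y ⬝ᵥ x₀ = t := by
      rw [hx₀, dotProduct_single]
      field_simp
    have hmem : x₀ ∈ ballSet (0 : Q p d) n := by
      rw [mem_ball0]
      intro j
      by_cases hj : j = i
      · rw [hj, hx₀, Pi.single_eq_same, norm_div, div_le_iff₀ (norm_pos_iff.2 hyi0)]
        calc ‖t‖ ≤ (p : ℝ) ^ (-m + 1) := ht
          _ = (p : ℝ) ^ (-n) * (p : ℝ) ^ (-(m - n) + 1) := by
              rw [← zpow_add₀ hp.ne']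
              congr 1
              ring
          _ ≤ (p : ℝ) ^ (-n) * ‖y i‖ := mul_le_mul_of_nonneg_left hyi (by positivity)
      · rw [hx₀, Pi.single_eq_of_ne hj, norm_zero]
        positivity
    have hJ : I (mulC (chr ψ hψ y) (ball K 0 n)) =
        ψ t * I (mulC (chr ψ hψ y) (ball K 0 n)) := by
      conv_lhs => rw [← hI.trans x₀]
      rw [← smul_eq_mul, ← map_smul]
      congr 1
      ext x
      change ψ (y ⬝ᵥ (x + x₀)) * (ballSet (0 : Q p d) n).indicator 1 (x + x₀) =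
        ψ t * (ψ (y ⬝ᵥ x) * (ballSet (0 : Q p d) n).indicator 1 x)
      rw [dotProduct_add, AddChar.map_add_eq_mul, hdot]
      by_cases hx : x ∈ ballSet (0 : Q p d) n
      · rw [Set.indicator_of_mem hx, Set.indicator_of_mem ((add_mem n x x₀ hmem).2 hx)]
        simp only [Pi.one_apply]
        ring
      · rw [Set.indicator_of_notMem hx,
          Set.indicator_of_notMem fun h => hx ((add_mem n x x₀ hmem).1 h)]
        ring
    have h2 : (ψ t - 1) * I (mulC (chr ψ hψ y) (ball K 0 n)) = 0 := by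
      rw [sub_mul, one_mul, ← hJ, sub_self]
    rcases mul_eq_zero.1 h2 with h | h
    · exact absurd (sub_eq_zero.1 h) ht1
    · exact h

theorem chr_ball (m : ℤ) (hm : IsCond ψ m) (I : SB K p d →ₗ[K] K) (hI : IsHaar I)
    (y a : Q p d) (n : ℤ) :
    I (mulC (chr ψ hψ y) (ball K a n)) =
      ψ (a ⬝ᵥ y) * (p : K) ^ (-(n * d)) * (ballSet (0 : Q p d) (m - n)).indicator 1 y := by
  rw [chr_ball_shift ψ hψ I hI, chr_ball_zero ψ hψ m hm I hI, mul_assoc]

/-- the transform as a function -/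
def G (I : SB K p d →ₗ[K] K) : SB K p d →ₗ[K] (Q p d → K) where
  toFun f y := I (mulC (chr ψ hψ y) f)
  map_add' f g := by
    funext y
    rw [map_add, map_add]
    rfl
  map_smul' c f := by
    funext y
    rw [map_smul, map_smul]
    rfl

theorem G_ball (m : ℤ) (hm : IsCond ψ m) (I : SB K p d →ₗ[K] K) (hI : IsHaar I)
    (a : Q p d) (n : ℤ) : G ψ hψ I (ball K a n) =
      ((p : K) ^ (-(n * d)) • mulC (chr ψ hψ a) (ball K 0 (m - n))).1 := by
  funext y
  change I (mulC (chr ψ hψ y) (ball K a n)) = (p : K) ^ (-(n * d)) *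
    (ψ (a ⬝ᵥ y) * (ballSet (0 : Q p d) (m - n)).indicator 1 y)
  rw [chr_ball ψ hψ m hm I hI]
  ring

theorem G_mem (hSpan : StmSpan) (m : ℤ) (hm : IsCond ψ m) (I : SB K p d →ₗ[K] K)
    (hI : IsHaar I) (f : SB K p d) : G ψ hψ I f ∈ SB K p d := by
  have h : (⊤ : Submodule K (SB K p d)) ≤ (SB K p d).comap (G ψ hψ I) := by
    rw [← hSpan K p d, Submodule.span_le]
    rintro f ⟨z, n, rfl⟩
    change G ψ hψ I (ball K z n) ∈ SB K p d
    rw [G_ball ψ hψ m hm I hI]
    exact Subtype.prop _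
  exact h (Submodule.mem_top (x := f))

/-- reflection -/
def neg : SB K p d →ₗ[K] SB K p d where
  toFun f := ⟨fun x => f.1 (-x), f.2.1.comp_continuous continuous_neg,
    f.2.2.comp_homeomorph (Homeomorph.neg (Q p d))⟩
  map_add' f g := by ext x; simp
  map_smul' c f := by ext x; simp

end FTaux

open FTaux

theorem FT (hSpan : StmSpan) : StmFT := by
  intro K _ _ p _ d ψ hψ m hm I hI
  have hpK : (p : K) ≠ 0 := by exact_mod_cast (Fact.out : p.Prime).ne_zero
  let F0 : SB K p d →ₗ[K] SB K p d :=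
    (G ψ hψ I).codRestrict (SB K p d) (G_mem ψ hψ hSpan m hm I hI)
  have hF0 : ∀ f y, (F0 f).1 y = I (mulC (chr ψ hψ y) f) := fun f y => rfl
  have hF0b : ∀ (a : Q p d) (n : ℤ), F0 (ball K a n) =
      (p : K) ^ (-(n * d)) • mulC (chr ψ hψ a) (ball K 0 (m - n)) := by
    intro a n
    apply Subtype.ext
    exact G_ball ψ hψ m hm I hI a n
  have hsq : F0 ∘ₗ F0 = (p : K) ^ (-(m * d)) • neg := by
    apply LinearMap.ext_on (hSpan K p d)
    rintro f ⟨a, n, rfl⟩
    ext x
    rw [LinearMap.comp_apply, hF0b, map_smul]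
    change (p : K) ^ (-(n * d)) * I (mulC (chr ψ hψ x) (mulC (chr ψ hψ a) (ball K 0 (m - n)))) =
      (p : K) ^ (-(m * d)) * (ballSet a n).indicator 1 (-x)
    have h1 : mulC (chr ψ hψ x) (mulC (chr ψ hψ a) (ball K 0 (m - n))) =
        mulC (chr ψ hψ (x + a)) (ball K 0 (m - n)) := by
      ext y
      change ψ (x ⬝ᵥ y) * (ψ (a ⬝ᵥ y) * _) = ψ ((x + a) ⬝ᵥ y) * _
      rw [add_dotProduct, AddChar.map_add_eq_mul, mul_assoc]
    rw [h1, chr_ball_zero ψ hψ m hm I hI, show m - (m - n) = n by ring, ← mul_assoc,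
      ← zpow_add₀ hpK]
    congr 1
    · congr 1
      ring
    · have h2 : x + a ∈ ballSet (0 : Q p d) n ↔ -x ∈ ballSet a n := by
        simp only [ballSet, Set.mem_ofPred_eq, Pi.add_apply, Pi.neg_apply, Pi.zero_apply, sub_zero]
        refine forall_congr' fun i => ?_
        rw [← norm_neg (x i + a i), neg_add, ← sub_eq_add_neg]
      by_cases h3 : x + a ∈ ballSet (0 : Q p d) n
      · rw [Set.indicator_of_mem h3, Set.indicator_of_mem (h2.1 h3)]
        rfl
      · rw [Set.indicator_of_notMem h3, Set.indicator_of_notMem fun h => h3 (h2.2 h)]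
  have hc : (p : K) ^ (-(m * d)) ≠ 0 := zpow_ne_zero _ hpK
  have hnn : ∀ f : SB K p d, neg (neg f) = f := by
    intro f
    ext x
    change f.1 (- -x) = f.1 x
    rw [neg_neg]
  have hbij : Function.Bijective F0 := by
    constructor
    · rw [← LinearMap.ker_eq_bot, LinearMap.ker_eq_bot']
      intro f hf
      have h1 := LinearMap.congr_fun hsq f
      rw [LinearMap.comp_apply, hf, map_zero, LinearMap.smul_apply] at h1
      rcases smul_eq_zero.1 h1.symm with h | h
      · exact absurd h hc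
      · rw [← hnn f, h, map_zero]
    · intro g
      refine ⟨((p : K) ^ (-(m * d)))⁻¹ • F0 (neg g), ?_⟩
      have h1 := LinearMap.congr_fun hsq (neg g)
      rw [LinearMap.comp_apply, LinearMap.smul_apply, hnn] at h1
      rw [map_smul, h1, smul_smul, inv_mul_cancel₀ hc, one_smul]
  refine ⟨LinearEquiv.ofBijective F0 hbij, fun f y => hF0 f y, fun a n y => ?_⟩
  rw [LinearEquiv.ofBijective_apply, hF0]
  exact chr_ball ψ hψ m hm I hI y a n

end

end Pool.R902.HN
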