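import Pool.Agent.R902.HN.Stm

/-! Piece HD for MP_3d6eda_nt: existence of the Haar functional with values in `K`. -/

open scoped Matrix

namespace Pool.R902.HN

noncomputable section

variable {K : Type} [NormedField K] {p : ℕ} [Fact p.Prime] {d : ℕ}

namespace HDaux

/-- `p^n ℤ_p^d` as a subgroup. -/
def U (p : ℕ) [Fact p.Prime] (d : ℕ) (n : ℤ) : AddSubgroup (Q p d) where
  carrier := ballSet 0 n
  add_mem' := by
    intro a b ha hb i
    have h1 := ha i
    have h2 := hb i
    simp only [Pi.zero_apply, sub_zero] at h1 h2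
    simp only [Pi.add_apply, Pi.zero_apply, sub_zero]
    exact (IsUltrametricDist.norm_add_le_max _ _).trans (max_le h1 h2)
  zero_mem' := by
    intro i
    simp only [Pi.zero_apply, sub_zero, norm_zero]
    positivity
  neg_mem' := by
    intro a ha i
    have h1 := ha i
    simpa using h1

theorem mem_U {n : ℤ} {x : Q p d} : x ∈ U p d n ↔ x ∈ ballSet (0 : Q p d) n := Iff.rfl

theorem mem_ballSet_iff {n : ℤ} {x z : Q p d} : x ∈ ballSet z n ↔ x - z ∈ U p d n := by
  simp [mem_U, ballSet]

theorem U_mono {m n : ℤ} (h : m ≤ n) : U p d n ≤ U p d m := by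
  intro x hx i
  refine (hx i).trans ?_
  have hp : (1 : ℝ) ≤ p := by exact_mod_cast (Fact.out : p.Prime).one_lt.le
  exact zpow_le_zpow_right₀ hp (by omega)

/-- `f` is invariant under `p^n ℤ_p^d`. -/
def P (n : ℤ) (f : Q p d → K) : Prop := ∀ x y, y ∈ U p d n → f (x + y) = f x

omit [NormedField K] in
theorem P.mono {m n : ℤ} (h : m ≤ n) {f : Q p d → K} (hf : P m f) : P n f :=
  fun x y hy => hf x y (U_mono h hy)

omit [NormedField K] in
theorem P.out {n : ℤ} {f : Q p d → K} (hf : P n f) (x : Q p d) :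
    f ((QuotientAddGroup.mk x : Q p d ⧸ U p d n).out) = f x := by
  obtain ⟨h, hh⟩ := QuotientAddGroup.mk_out_eq_add (U p d n) x
  rw [hh]
  exact hf x h h.2

/-- The normalized sum over the cosets of `p^n ℤ_p^d`. -/
def J (n : ℤ) (f : Q p d → K) : K :=
  (p : K) ^ (-(n * d)) * ∑ᶠ c : Q p d ⧸ U p d n, f c.out

theorem isOpen_U (n : ℤ) : IsOpen ((U p d n : AddSubgroup (Q p d)) : Set (Q p d)) :=
  (isClopen_ballSet (0 : Q p d) n).isOpen

theorem finite_supp (n : ℤ) (f : SB K p d) :
    (Function.support fun c : Q p d ⧸ U p d n => f.1 c.out).Finite := by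
  have : DiscreteTopology (Q p d ⧸ U p d n) := QuotientAddGroup.discreteTopology (isOpen_U n)
  have h1 : ((QuotientAddGroup.mk : Q p d → Q p d ⧸ U p d n) '' (tsupport f.1)).Finite := by
    have hc : IsCompact (tsupport f.1) := f.2.2
    exact (hc.image QuotientAddGroup.continuous_mk).finite_of_discrete
  refine h1.subset ?_
  intro c hc
  refine ⟨c.out, subset_tsupport _ hc, ?_⟩
  exact QuotientAddGroup.out_eq' c

theorem J_add (n : ℤ) (f g : SB K p d) : J n (f + g).1 = J n f.1 + J n g.1 := by
  unfold J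
  rw [← mul_add, ← finsum_add_distrib (finite_supp n f) (finite_supp n g)]
  rfl

theorem J_smul (n : ℤ) (c : K) (f : SB K p d) : J n (c • f).1 = c * J n f.1 := by
  unfold J
  rw [mul_left_comm, mul_finsum _ c]
  rfl

theorem J_transl (n : ℤ) (a : Q p d) (f : SB K p d) (hf : P n f.1) :
    J n (transl a f).1 = J n f.1 := by
  unfold J
  congr 1
  symm
  rw [← finsum_comp_equiv (Equiv.addRight (QuotientAddGroup.mk a : Q p d ⧸ U p d n))]
  refine finsum_congr fun c => ?_
  have h : Equiv.addRight (QuotientAddGroup.mk a : Q p d ⧸ U p d n) c =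
      QuotientAddGroup.mk (c.out + a) := by
    rw [Equiv.coe_addRight, QuotientAddGroup.mk_add, QuotientAddGroup.out_eq']
  rw [h, hf.out]
  rfl

theorem P_transl (n : ℤ) (a : Q p d) (f : SB K p d) (hf : P n f.1) : P n (transl a f).1 := by
  intro x y hy
  simp only [transl_apply]
  rw [add_right_comm]
  exact hf _ _ hy

/-- The splitting of a coset of `p^n ℤ_p^d` into cosets of `p^(n+1) ℤ_p^d`. -/
def split (n : ℤ) (q : (Q p d ⧸ U p d n) × (Fin d → Fin (p ^ 1))) : Q p d ⧸ U p d (n + 1) :=
  QuotientAddGroup.mk (q.1.out + fun i => (p : ℚ_[p]) ^ n * ((q.2 i : ℕ) : ℚ_[p]))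

theorem small_mem (n : ℤ) (j : Fin d → Fin (p ^ 1)) :
    (fun i => (p : ℚ_[p]) ^ n * ((j i : ℕ) : ℚ_[p])) ∈ U p d n := by
  intro i
  simp only [Pi.zero_apply, sub_zero, norm_mul, norm_zpow, Padic.norm_p, inv_zpow']
  have h : ‖((j i : ℕ) : ℚ_[p])‖ ≤ 1 := by
    have := Padic.norm_int_le_one (p := p) ((j i : ℕ) : ℤ)
    simpa using this
  have hp : (0 : ℝ) < (p : ℝ) ^ (-n) :=
    zpow_pos (by exact_mod_cast (Fact.out : p.Prime).pos) _
  nlinarith

theorem split_bij (hCover : StmCover) (n : ℤ) :
    Function.Bijective (split n : (Q p d ⧸ U p d n) × (Fin d → Fin (p ^ 1)) → _) := by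
  constructor
  · rintro ⟨c, j⟩ ⟨c', j'⟩ h
    unfold split at h
    simp only at h
    have h' := QuotientAddGroup.eq.1 h
    have h2 : -(c.out) + c'.out ∈ U p d n := by
      have h3 := U_mono (p := p) (d := d) (show n ≤ n + 1 by omega) h'
      have h4 := (U p d n).sub_mem ((U p d n).add_mem h3 (small_mem n j)) (small_mem n j')
      convert h4 using 1
      abel
    have hc : c = c' := by
      rw [← QuotientAddGroup.out_eq' c, ← QuotientAddGroup.out_eq' c']
      exact QuotientAddGroup.eq.2 h2
    subst hc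
    have h5 : (-(fun i => (p : ℚ_[p]) ^ n * ((j i : ℕ) : ℚ_[p])) +
        fun i => (p : ℚ_[p]) ^ n * ((j' i : ℕ) : ℚ_[p])) ∈ U p d (n + 1) := by
      convert h' using 1
      abel
    obtain ⟨j0, -, hj0⟩ := hCover p d n 1
      (fun i => (p : ℚ_[p]) ^ n * ((j' i : ℕ) : ℚ_[p])) (small_mem n j')
    have e1 : j = j0 := by
      refine hj0 j ?_
      beta_reduce
      rw [mem_ballSet_iff]
      convert h5 using 1
      · rw [Nat.cast_one]
      · abel
    have e2 : j' = j0 := by
      refine hj0 j' ?_
      beta_reduce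
      rw [mem_ballSet_iff, sub_self]
      exact (U p d (n + (1 : ℕ))).zero_mem
    rw [e1, e2]
  · intro c
    obtain ⟨x, rfl⟩ := QuotientAddGroup.mk_surjective c
    obtain ⟨h, hh⟩ := QuotientAddGroup.mk_out_eq_add (U p d n) x
    obtain ⟨j, hj, -⟩ := hCover p d n 1 (x - (QuotientAddGroup.mk x : Q p d ⧸ U p d n).out) (by
      change _ ∈ U p d n
      rw [hh]
      have := (U p d n).neg_mem h.2
      convert this using 1
      abel)
    refine ⟨(QuotientAddGroup.mk x, j), ?_⟩
    unfold split
    simp only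
    rw [QuotientAddGroup.eq]
    rw [mem_ballSet_iff] at hj
    convert hj using 1
    · rw [Nat.cast_one]
    · abel

theorem J_succ [CharZero K] (hCover : StmCover) (n : ℤ) (f : SB K p d) (hf : P n f.1) :
    J (n + 1) f.1 = J n f.1 := by
  unfold J
  have hp0 : (p : K) ≠ 0 := by exact_mod_cast (Fact.out : p.Prime).ne_zero
  have h1 : ∑ᶠ c : Q p d ⧸ U p d (n + 1), f.1 c.out
      = (p : K) ^ d * ∑ᶠ c : Q p d ⧸ U p d n, f.1 c.out := by
    rw [← finsum_comp_equiv (Equiv.ofBijective _ (split_bij hCover n))]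
    have h2 : ∀ q : (Q p d ⧸ U p d n) × (Fin d → Fin (p ^ 1)),
        f.1 (((Equiv.ofBijective _ (split_bij hCover n)) q).out) = f.1 q.1.out := by
      intro q
      rw [Equiv.ofBijective_apply]
      unfold split
      rw [(hf.mono (by omega)).out]
      exact hf _ _ (small_mem n q.2)
    rw [finsum_congr h2, finsum_curry _ ?_]
    · rw [mul_finsum]
      refine finsum_congr fun c => ?_
      rw [finsum_eq_sum_of_fintype]
      simp
    · refine ((finite_supp n f).prod (Set.finite_univ (α := Fin d → Fin (p ^ 1)))).subset ?_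
      intro q hq
      exact ⟨hq, Set.mem_univ _⟩
  rw [h1, ← mul_assoc]
  congr 1
  rw [← zpow_natCast, ← zpow_add₀ hp0]
  congr 1
  ring

theorem J_le [CharZero K] (hCover : StmCover) {m n : ℤ} (h : m ≤ n) (f : SB K p d)
    (hf : P m f.1) : J n f.1 = J m f.1 := by
  obtain ⟨k, rfl⟩ := Int.le.dest h
  clear h
  induction k with
  | zero => simp
  | succ k ih =>
    rw [← ih]
    have := J_succ hCover (m + k) f (hf.mono (by omega))
    rw [← this]
    push_cast
    rw [add_assoc]

theorem J_eq [CharZero K] (hCover : StmCover) {m n : ℤ} (f : SB K p d)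
    (hm : P m f.1) (hn : P n f.1) : J n f.1 = J m f.1 := by
  rw [← J_le hCover (le_max_left m n) f hm, ← J_le hCover (le_max_right m n) f hn]

theorem exists_level (hLevel : StmLevel) (f : SB K p d) : ∃ n : ℤ, P n f.1 := by
  obtain ⟨n, -, hn⟩ := hLevel K p d f
  exact ⟨n, fun x y hy => hn x y hy⟩

end HDaux

open HDaux

theorem HD (hLevel : StmLevel) (hCover : StmCover) : StmHD := by
  intro K _ _ p _ d
  choose lev hlev using fun f : SB K p d => exists_level hLevel f
  have key : ∀ (f : SB K p d) (n : ℤ), P n f.1 → J (lev f) f.1 = J n f.1 := fun f n hn =>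
    J_eq hCover f hn (hlev f)
  refine ⟨{ toFun := fun f => J (lev f) f.1, map_add' := ?_, map_smul' := ?_ }, ?_, ?_⟩
  · intro f g
    have hf : P (max (lev f) (lev g)) f.1 := (hlev f).mono (le_max_left _ _)
    have hg : P (max (lev f) (lev g)) g.1 := (hlev g).mono (le_max_right _ _)
    have hfg : P (max (lev f) (lev g)) (f + g).1 := by
      intro x y hy
      change f.1 (x + y) + g.1 (x + y) = f.1 x + g.1 x
      rw [hf x y hy, hg x y hy]
    rw [key _ _ hf, key _ _ hg, key _ _ hfg, J_add]
  · intro c f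
    have hcf : P (lev f) (c • f).1 := by
      intro x y hy
      change c • f.1 (x + y) = c • f.1 x
      rw [hlev f x y hy]
    rw [key _ _ hcf, J_smul]
    rfl
  · intro a f
    change J (lev (transl a f)) (transl a f).1 = J (lev f) f.1
    rw [key _ _ (P_transl _ a f (hlev f)), J_transl _ a f (hlev f)]
  · intro n
    change J (lev (ball K 0 n)) (ball K 0 n).1 = _
    have hb : P n (ball K (0 : Q p d) n).1 := by
      intro x y hy
      simp only [ball_apply]
      by_cases hx : x ∈ ballSet (0 : Q p d) n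
      · have hxy : x + y ∈ ballSet (0 : Q p d) n := (U p d n).add_mem hx hy
        rw [Set.indicator_of_mem hx, Set.indicator_of_mem hxy]
        rfl
      · have hxy : x + y ∉ ballSet (0 : Q p d) n := by
          intro h
          apply hx
          have := (U p d n).sub_mem h hy
          rwa [add_sub_cancel_right] at this
        rw [Set.indicator_of_notMem hx, Set.indicator_of_notMem hxy]
    rw [key _ _ hb]
    unfold J
    rw [finsum_eq_single _ (0 : Q p d ⧸ U p d n)]
    · have h0 : (0 : Q p d ⧸ U p d n) = QuotientAddGroup.mk (0 : Q p d) := rfl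
      rw [h0, hb.out]
      simp only [ball_apply]
      rw [Set.indicator_of_mem (show (0 : Q p d) ∈ ballSet (0 : Q p d) n from
        (U p d n).zero_mem)]
      simp
    · intro c hc
      simp only [ball_apply]
      refine Set.indicator_of_notMem ?_ _
      intro h
      apply hc
      rw [← QuotientAddGroup.out_eq' c]
      exact (QuotientAddGroup.eq_zero_iff _).2 h

end

end Pool.R902.HN
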