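import Pool.Agent.R902.HN.Stm

/-! HN-LEV: level of a Schwartz-Bruhat function, span of balls. -/

set_option autoImplicit false

namespace Pool.R902.HN

theorem mem_ballSet_zero {p : ℕ} [Fact p.Prime] {d : ℕ} (x : Q p d) (n : ℤ) :
    x ∈ ballSet (0 : Q p d) n ↔ ‖x‖ ≤ (p : ℝ) ^ (-n) := by
  have hp : (0 : ℝ) ≤ (p : ℝ) ^ (-n) := by positivity
  rw [pi_norm_le_iff_of_nonneg hp]
  simp [ballSet]

theorem Level : StmLevel := by
  intro K _ p _ d f
  have hp : (1 : ℝ) < p := by exact_mod_cast (Fact.out : p.Prime).one_lt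
  have hlc := f.2.1
  have hc : IsCompact (tsupport f.1) := f.2.2
  obtain ⟨R, hR⟩ := hc.isBounded.exists_norm_le
  obtain ⟨δ, hδ, hδ'⟩ := lebesgue_number_lemma_of_metric (c := fun v : K => f.1 ⁻¹' {v}) hc
    (fun v => hlc.isOpen_fiber v) (fun x _ => Set.mem_iUnion.2 ⟨f.1 x, rfl⟩)
  have hconst : ∀ x ∈ tsupport f.1, ∀ y, dist y x < δ → f.1 y = f.1 x := by
    intro x hx y hy
    obtain ⟨v, hv⟩ := hδ' x hx
    have h1 : f.1 y = v := hv hy
    have h2 : f.1 x = v := hv (Metric.mem_ball_self hδ)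
    rw [h1, h2]
  obtain ⟨n₁, hn₁⟩ := pow_unbounded_of_one_lt R hp
  obtain ⟨n₂, hn₂⟩ := pow_unbounded_of_one_lt (1 / δ) hp
  refine ⟨max n₁ n₂, fun x hx => ?_, fun x y hy => ?_⟩
  · by_contra h
    apply hx
    rw [mem_ballSet_zero, neg_neg, zpow_natCast]
    have h1 : x ∈ tsupport f.1 := subset_tsupport _ h
    exact (hR x h1).trans (hn₁.le.trans (pow_le_pow_right₀ hp.le (le_max_left _ _)))
  · rw [mem_ballSet_zero] at hy
    have hy' : ‖y‖ < δ := by
      refine lt_of_le_of_lt hy ?_
      rw [zpow_neg, zpow_natCast]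
      have h1 : 1 / δ < (p : ℝ) ^ (max n₁ n₂) :=
        hn₂.trans_le (pow_le_pow_right₀ hp.le (le_max_right _ _))
      rw [inv_lt_comm₀ (by positivity) hδ, ← one_div]
      exact h1
    by_cases h1 : x ∈ tsupport f.1
    · exact hconst x h1 _ (by simpa [dist_eq_norm] using hy')
    · by_cases h2 : x + y ∈ tsupport f.1
      · exact (hconst _ h2 x (by simpa [dist_eq_norm] using hy')).symm
      · rw [image_eq_zero_of_notMem_tsupport h1, image_eq_zero_of_notMem_tsupport h2]

theorem Span (hCover : StmCover) : StmSpan := by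
  intro K _ p _ d
  have hp : (1 : ℝ) < p := by exact_mod_cast (Fact.out : p.Prime).one_lt
  rw [Submodule.eq_top_iff']
  intro f
  obtain ⟨n, h0, hinv⟩ := Level K p d f
  set z : (Fin d → Fin (p ^ (2 * n))) → Q p d :=
    fun j i => (p : ℚ_[p]) ^ (-(n : ℤ)) * ((j i : ℕ) : ℚ_[p]) with hz
  have hsum : f = ∑ j, f.1 (z j) • ball K (z j) (n : ℤ) := by
    apply Subtype.ext
    funext x
    rw [Submodule.coe_sum, Finset.sum_apply]
    by_cases hx : x ∈ ballSet (0 : Q p d) (-(n : ℤ))
    · obtain ⟨j₀, hj₀, huniq⟩ := hCover p d (-(n : ℤ)) (2 * n) x hx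
      have hcast : (-(n : ℤ) + ((2 * n : ℕ) : ℤ)) = (n : ℤ) := by push_cast; ring
      rw [Finset.sum_eq_single j₀]
      · have h1 : x ∈ ballSet (z j₀) (n : ℤ) := by
          simp only [hcast] at hj₀
          exact hj₀
        have h2 : x - z j₀ ∈ ballSet (0 : Q p d) (n : ℤ) := by
          intro i
          simpa using h1 i
        have h3 := hinv (z j₀) (x - z j₀) h2
        rw [add_sub_cancel] at h3
        rw [h3]
        simp [Set.indicator_of_mem h1]
      · intro j _ hj
        have h1 : x ∉ ballSet (z j) (n : ℤ) := by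
          intro h
          apply hj
          apply huniq
          simp only [hcast]
          exact h
        simp [Set.indicator_of_notMem h1]
      · intro h; exact absurd (Finset.mem_univ _) h
    · rw [h0 x hx]
      symm
      apply Finset.sum_eq_zero
      intro j _
      have h1 : x ∉ ballSet (z j) (n : ℤ) := by
        intro h
        apply hx
        intro i
        have h2 : ‖x i - z j i‖ ≤ (p : ℝ) ^ (-(-(n : ℤ))) := by
          refine (h i).trans ?_
          apply zpow_le_zpow_right₀ hp.le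
          omega
        have h3 : ‖z j i‖ ≤ (p : ℝ) ^ (-(-(n : ℤ))) := by
          rw [hz]
          simp only [norm_mul, Padic.norm_p_zpow]
          have h4 : ‖((j i : ℕ) : ℚ_[p])‖ ≤ 1 := Padic.norm_int_le_one (j i : ℤ)
          calc (p : ℝ) ^ (-(-(n : ℤ))) * ‖((j i : ℕ) : ℚ_[p])‖ ≤ (p : ℝ) ^ (-(-(n : ℤ))) * 1 :=
                mul_le_mul_of_nonneg_left h4 (by positivity)
            _ = _ := mul_one _
        have h5 : x i - (0 : Q p d) i = (x i - z j i) + z j i := by simp
        rw [h5]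
        exact (Padic.nonarchimedean _ _).trans (max_le h2 h3)
      simp [Set.indicator_of_notMem h1]
  rw [hsum]
  exact Submodule.sum_mem _ fun j _ =>
    Submodule.smul_mem _ _ (Submodule.subset_span ⟨z j, n, rfl⟩)

end Pool.R902.HN
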