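import Pool.Agent.R902.HN.Stm

/-!
# HN-MN: assembly of the main estimate
-/

set_option autoImplicit false

open scoped Matrix

namespace Pool.R902.HN

namespace MNaux

variable {K : Type} [NormedField K] {p : ℕ} [Fact p.Prime] {d : ℕ}

theorem mulC_mul (χ χ' : LocallyConstant (Q p d) K) (f : SB K p d) :
    mulC (χ * χ') f = mulC χ (mulC χ' f) := by
  ext x
  simp [mul_assoc]

theorem mulC_one (f : SB K p d) : mulC (1 : LocallyConstant (Q p d) K) f = f := by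
  ext x
  simp

theorem bdQ_block [IsUltrametricDist K] [CharZero K] (hTH : StmTH) (ψ : AddChar ℚ_[p] K)
    (hψ : IsOpen {t : ℚ_[p] | ψ t = 1}) (h1 : ∀ t, ‖ψ t‖ = 1) (m : ℤ) (I : SB K p d →ₗ[K] K)
    (B : ℝ) (i : Fin d) (j : ℕ) (f : SB K p d) (hf : BdQ ψ hψ m I f B) :
    BdQ ψ hψ m I (mulC (block ψ hψ m i j) f) B := by
  classical
  unfold block
  induction cset p j using Finset.induction_on with
  | empty => rw [Finset.prod_empty, mulC_one]; exact hf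
  | insert c s hc ih =>
    rw [Finset.prod_insert hc, mulC_mul]
    exact hTH K p d ψ hψ h1 m I _ B i j c ih

theorem bdQ_prod [IsUltrametricDist K] [CharZero K] (hTH : StmTH) (ψ : AddChar ℚ_[p] K)
    (hψ : IsOpen {t : ℚ_[p] | ψ t = 1}) (h1 : ∀ t, ‖ψ t‖ = 1) (m : ℤ) (I : SB K p d →ₗ[K] K)
    (B : ℝ) (f : SB K p d) (hf : BdQ ψ hψ m I f B) (S : Finset (Fin d × ℕ)) :
    BdQ ψ hψ m I (mulC (∏ q ∈ S, block ψ hψ m q.1 q.2) f) B := by
  classical
  induction S using Finset.induction_on with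
  | empty => rw [Finset.prod_empty, mulC_one]; exact hf
  | insert c s hc ih =>
    rw [Finset.prod_insert hc, mulC_mul]
    exact bdQ_block hTH ψ hψ h1 m I B c.1 c.2 _ ih

theorem bdF_prod [IsUltrametricDist K] [CharZero K] (hBLK : StmBLK)
    (hp : ‖(p : K)‖ = (p : ℝ)⁻¹) (ψ : AddChar ℚ_[p] K)
    (hψ : IsOpen {t : ℚ_[p] | ψ t = 1}) (m : ℤ) (hm : IsCond ψ m) (I : SB K p d →ₗ[K] K)
    (hI : IsHaar I) (h : SB K p d) (hh : ∀ x, x ∉ ballSet (0 : Q p d) 0 → h.1 x = 0)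
    (S : Finset (Fin d × ℕ)) : (∀ q ∈ S, 1 ≤ q.2) → ∀ B : ℝ,
    BdF ψ hψ I (mulC (∏ q ∈ S, block ψ hψ m q.1 q.2) h) B →
    BdF ψ hψ I h ((∏ q ∈ S, (p : ℝ) ^ ((3 : ℝ) / 2 ^ (q.2 - 1))) * B) := by
  classical
  induction S using Finset.induction_on with
  | empty =>
    intro _ B hB
    rw [Finset.prod_empty, mulC_one] at hB
    rw [Finset.prod_empty, one_mul]
    exact hB
  | insert c s hc ih =>
    intro hS B hB
    rw [Finset.prod_insert hc, mulC_mul] at hB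
    have h1 : ∀ x, x ∉ ballSet (0 : Q p d) 0 →
        (mulC (∏ q ∈ s, block ψ hψ m q.1 q.2) h).1 x = 0 := by
      intro x hx
      rw [mulC_apply, hh x hx, mul_zero]
    have h2 := hBLK K p hp d ψ hψ m hm I hI c.1 c.2 (hS c (Finset.mem_insert_self _ _)) _ B h1 hB
    have h3 := ih (fun q hq => hS q (Finset.mem_insert_of_mem hq)) _ h2
    rw [Finset.prod_insert hc]
    have h4 : (p : ℝ) ^ ((3 : ℝ) / 2 ^ (c.2 - 1)) *
        (∏ q ∈ s, (p : ℝ) ^ ((3 : ℝ) / 2 ^ (q.2 - 1))) * B =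
        (∏ q ∈ s, (p : ℝ) ^ ((3 : ℝ) / 2 ^ (q.2 - 1))) *
        ((p : ℝ) ^ ((3 : ℝ) / 2 ^ (c.2 - 1)) * B) := by ring
    rw [h4]
    exact h3

omit [Fact p.Prime] in
theorem prod_le (hp0 : (1 : ℝ) ≤ p) (n : ℕ) :
    ∏ j ∈ Finset.Icc 1 n, (p : ℝ) ^ ((3 : ℝ) / 2 ^ (j - 1)) ≤ (p : ℝ) ^ (6 : ℕ) := by
  have hpos : (0 : ℝ) < p := by linarith
  have h1 : ∏ j ∈ Finset.Icc 1 n, (p : ℝ) ^ ((3 : ℝ) / 2 ^ (j - 1)) =
      (p : ℝ) ^ ((6 : ℝ) - 6 / 2 ^ n) := by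
    induction n with
    | zero => simp
    | succ n ih =>
      rw [Finset.prod_Icc_succ_top (by omega), ih, ← Real.rpow_add hpos]
      congr 1
      rw [Nat.add_sub_cancel, pow_succ]
      field_simp
      ring
  rw [h1]
  have h2 : (0 : ℝ) ≤ 6 / 2 ^ n := by positivity
  calc (p : ℝ) ^ ((6 : ℝ) - 6 / 2 ^ n) ≤ (p : ℝ) ^ (((6 : ℕ) : ℝ)) :=
        Real.rpow_le_rpow_of_exponent_le hp0 (by push_cast; linarith)
    _ = (p : ℝ) ^ (6 : ℕ) := Real.rpow_natCast _ _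

end MNaux

open MNaux in
theorem MN (hLevel : StmLevel) (hRU : StmRU) (hTH : StmTH) (hSUPP : StmSUPP) (hBLK : StmBLK) :
    StmMN := by
  classical
  intro K _ _ _ p _ hp d ψ hψ m hm I hI f B hB
  have h1 : ∀ t, ‖ψ t‖ = 1 := (hRU K p hp ψ m hm).1
  obtain ⟨n, hn, -⟩ := hLevel K p d f
  have hB0 : 0 ≤ B := (norm_nonneg _).trans (hB 0 0)
  have hp1 : (1 : ℝ) ≤ p := by exact_mod_cast (Fact.out : p.Prime).one_lt.le
  obtain ⟨S, hS⟩ : ∃ S : Finset (Fin d × ℕ), S = Finset.univ ×ˢ Finset.Icc 1 n := ⟨_, rfl⟩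
  have h2 := bdQ_prod hTH ψ hψ h1 m I B f hB S
  have h3 : BdF ψ hψ I (mulC (∏ q ∈ S, block ψ hψ m q.1 q.2) f) B := by
    intro y
    have h4 := h2 0 y
    have h5 : mulC (quad ψ hψ (fun i => 2 * (p : ℚ_[p]) ^ (m + 1) * (((0 : Fin d → ℕ) i : ℕ) :
        ℚ_[p]))) (mulC (∏ q ∈ S, block ψ hψ m q.1 q.2) f) =
        mulC (∏ q ∈ S, block ψ hψ m q.1 q.2) f := by
      ext x
      rw [mulC_apply, quad_apply]
      simp
    rw [h5] at h4
    exact h4
  have h4 : mulC (∏ q ∈ S, block ψ hψ m q.1 q.2) f =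
      mulC (∏ q ∈ S, block ψ hψ m q.1 q.2) (mulC (ballLC K 0 0) f) := by
    ext x
    rw [mulC_apply, mulC_apply, mulC_apply, ballLC_apply]
    by_cases hx : x ∈ ballSet (0 : Q p d) 0
    · rw [Set.indicator_of_mem hx]
      simp
    · rw [Set.indicator_of_notMem hx, zero_mul, mul_zero]
      by_cases hxn : x ∈ ballSet (0 : Q p d) (-(n : ℤ))
      · obtain ⟨i, j, hj1, hjn, hb⟩ := hSUPP K p d ψ hψ m hm n x hxn hx
        have h5 : (∏ q ∈ S, block ψ hψ m q.1 q.2) x = 0 := by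
          have h6 : (i, j) ∈ S := by
            rw [hS]
            simp [hj1, hjn]
          rw [← Finset.mul_prod_erase S _ h6]
          change block ψ hψ m i j x * _ = 0
          rw [hb, zero_mul]
        rw [h5, zero_mul]
      · rw [hn x hxn, mul_zero]
  rw [h4] at h3
  have h5 : ∀ x, x ∉ ballSet (0 : Q p d) 0 → (mulC (ballLC K 0 0) f).1 x = 0 := by
    intro x hx
    rw [mulC_apply, ballLC_apply, Set.indicator_of_notMem hx, zero_mul]
  have h6 := bdF_prod hBLK hp ψ hψ m hm I hI _ h5 S (by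
    intro q hq
    rw [hS] at hq
    simp only [Finset.mem_product, Finset.mem_Icc] at hq
    exact hq.2.1) B h3
  have h7 : ∏ q ∈ S, (p : ℝ) ^ ((3 : ℝ) / 2 ^ (q.2 - 1)) ≤ (p : ℝ) ^ (6 * d) := by
    rw [hS, Finset.prod_product]
    simp only []
    rw [Finset.prod_const, Finset.card_univ, Fintype.card_fin, pow_mul]
    refine pow_le_pow_left₀ ?_ (prod_le hp1 n) d
    exact Finset.prod_nonneg fun j _ => Real.rpow_nonneg (by linarith) _
  intro y
  exact (h6 y).trans (mul_le_mul_of_nonneg_right h7 hB0)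

end Pool.R902.HN
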