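import Pool.Agent.R902.HN.FT

/-! NGB (MP_3d6eda_nt): the norm `N_𝒢` bounds the quadratic Fourier coefficients. helper710. -/

set_option autoImplicit false

open scoped Matrix

namespace Pool.R902.HN

noncomputable section

namespace NGBaux

open FTaux

variable {K : Type} [NormedField K] {p : ℕ} [Fact p.Prime] {d : ℕ}
variable (ψ : AddChar ℚ_[p] K) (hψ : IsOpen {t : ℚ_[p] | ψ t = 1})

/-- multiplication by the quadratic function is invertible -/
def ME (c : Q p d) : SB K p d ≃ₗ[K] SB K p d :=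
  LinearEquiv.ofLinearMap (mulC (quad ψ hψ c)) (mulC (quad ψ hψ (-c)))
    (by
      ext f x
      change ψ ((1 / 2) * ∑ i, c i * x i ^ 2) * (ψ ((1 / 2) * ∑ i, (-c) i * x i ^ 2) * f.1 x) = f.1 x
      rw [← mul_assoc, ← AddChar.map_add_eq_mul]
      have : (1 / 2) * ∑ i, c i * x i ^ 2 + (1 / 2) * ∑ i, (-c) i * x i ^ 2 = 0 := by
        simp only [Pi.neg_apply, neg_mul, Finset.sum_neg_distrib]
        ring
      rw [this, AddChar.map_zero_eq_one, one_mul])
    (by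
      ext f x
      change ψ ((1 / 2) * ∑ i, (-c) i * x i ^ 2) * (ψ ((1 / 2) * ∑ i, c i * x i ^ 2) * f.1 x) = f.1 x
      rw [← mul_assoc, ← AddChar.map_add_eq_mul]
      have : (1 / 2) * ∑ i, (-c) i * x i ^ 2 + (1 / 2) * ∑ i, c i * x i ^ 2 = 0 := by
        simp only [Pi.neg_apply, neg_mul, Finset.sum_neg_distrib]
        ring
      rw [this, AddChar.map_zero_eq_one, one_mul])

/-- `(a, b) ↦ (b - c a, -a)` -/
def gE (c : Q p d) : (Q p d × Q p d) ≃ₗ[ℚ_[p]] (Q p d × Q p d) where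
  toFun w := (w.2 - c * w.1, -w.1)
  invFun w := (-w.2, w.1 - c * w.2)
  map_add' v w := by
    refine Prod.ext ?_ ?_
    · funext i; simp; ring
    · funext i; simp; ring
  map_smul' r w := by
    refine Prod.ext ?_ ?_
    · funext i; simp; ring
    · funext i; simp
  left_inv w := by
    refine Prod.ext ?_ ?_
    · funext i; simp
    · funext i; simp
  right_inv w := by
    refine Prod.ext ?_ ?_
    · funext i; simp
    · funext i; simp

theorem gE_symp (c : Q p d) : IsSymp (gE c) := by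
  intro w w'
  change (w.2 - c * w.1) ⬝ᵥ (-w'.1) - (-w.1) ⬝ᵥ (w'.2 - c * w'.1) = w.1 ⬝ᵥ w'.2 - w.2 ⬝ᵥ w'.1
  simp only [dotProduct, Pi.sub_apply, Pi.mul_apply, Pi.neg_apply, ← Finset.sum_sub_distrib]
  refine Finset.sum_congr rfl fun i _ => ?_
  ring

theorem M_rho (c : Q p d) (a b : Q p d) (t : ℚ_[p]) (f : SB K p d) :
    mulC (quad ψ hψ c) (rho ψ hψ a b t f) =
      rho ψ hψ a (b - c * a) t (mulC (quad ψ hψ c) f) := by
  ext x
  change ψ ((1 / 2) * ∑ i, c i * x i ^ 2) *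
      (ψ (t + (1 / 2) * (a ⬝ᵥ b)) * ψ (b ⬝ᵥ x) * f.1 (x + a)) =
    ψ (t + (1 / 2) * (a ⬝ᵥ (b - c * a))) * ψ ((b - c * a) ⬝ᵥ x) *
      (ψ ((1 / 2) * ∑ i, c i * (x + a) i ^ 2) * f.1 (x + a))
  rw [← mul_assoc, ← mul_assoc, ← mul_assoc, ← AddChar.map_add_eq_mul, ← AddChar.map_add_eq_mul,
    ← AddChar.map_add_eq_mul, ← AddChar.map_add_eq_mul]
  congr 2
  have e1 : a ⬝ᵥ (b - c * a) = a ⬝ᵥ b - ∑ i, c i * a i ^ 2 := by
    simp only [dotProduct, Pi.sub_apply, Pi.mul_apply, ← Finset.sum_sub_distrib]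
    refine Finset.sum_congr rfl fun i _ => ?_
    ring
  have e2 : (b - c * a) ⬝ᵥ x = b ⬝ᵥ x - ∑ i, c i * a i * x i := by
    simp only [dotProduct, Pi.sub_apply, Pi.mul_apply, ← Finset.sum_sub_distrib]
    refine Finset.sum_congr rfl fun i _ => ?_
    ring
  have e3 : ∑ i, c i * (x + a) i ^ 2 =
      ∑ i, c i * x i ^ 2 + 2 * (∑ i, c i * a i * x i) + ∑ i, c i * a i ^ 2 := by
    rw [Finset.mul_sum, ← Finset.sum_add_distrib, ← Finset.sum_add_distrib]
    refine Finset.sum_congr rfl fun i _ => ?_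
    rw [Pi.add_apply]
    ring
  rw [e1, e2, e3]
  ring

theorem F_rho (I : SB K p d →ₗ[K] K) (hI : IsHaar I) (F : SB K p d → SB K p d)
    (hF : ∀ f y, (F f).1 y = I (mulC (chr ψ hψ y) f)) (a b : Q p d) (t : ℚ_[p]) (f : SB K p d) :
    F (rho ψ hψ a b t f) = rho ψ hψ b (-a) t (F f) := by
  ext y
  rw [hF]
  change _ = ψ (t + (1 / 2) * (b ⬝ᵥ (-a))) * ψ ((-a) ⬝ᵥ y) * (F f).1 (y + b)
  rw [hF, ← hI.trans (-a), ← AddChar.map_add_eq_mul, ← smul_eq_mul, ← map_smul]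
  congr 1
  ext x
  change ψ (y ⬝ᵥ (x + -a)) * (ψ (t + (1 / 2) * (a ⬝ᵥ b)) * ψ (b ⬝ᵥ (x + -a)) * f.1 (x + -a + a)) =
    ψ (t + (1 / 2) * (b ⬝ᵥ (-a)) + (-a) ⬝ᵥ y) * (ψ ((y + b) ⬝ᵥ x) * f.1 x)
  rw [neg_add_cancel_right, ← mul_assoc, ← mul_assoc, ← mul_assoc, ← AddChar.map_add_eq_mul,
    ← AddChar.map_add_eq_mul, ← AddChar.map_add_eq_mul]
  congr 2
  rw [dotProduct_add, dotProduct_add, dotProduct_neg, dotProduct_neg, neg_dotProduct,
    add_dotProduct, dotProduct_comm a b, dotProduct_comm a y]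
  ring

end NGBaux

open FTaux NGBaux

theorem NGB (hFT : StmFT) (hSN : StmSN) : StmNGB := by
  intro K _ _ _ p _ d ψ hψ m hm I hI f k y
  have hp : (0 : ℝ) < p := by exact_mod_cast (Fact.out : p.Prime).pos
  have hp1 : (1 : ℝ) ≤ p := by exact_mod_cast (Fact.out : p.Prime).one_lt.le
  obtain ⟨s1, s2, -, -, -, -, -⟩ := hSN K p d
  obtain ⟨F, hF, hFb⟩ := hFT K p d ψ hψ m hm I hI
  set c : Q p d := fun i => 2 * (p : ℚ_[p]) ^ (m + 1) * (k i : ℚ_[p]) with hc
  set T : SB K p d ≃ₗ[K] SB K p d := (ME ψ hψ c).trans F with hT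
  have hTf : ∀ f, T f = F (mulC (quad ψ hψ c) f) := fun f => rfl
  have hint : IsIntertwiner ψ hψ (gE c) T := by
    intro w t h
    rw [hTf, hTf, M_rho, F_rho ψ hψ I hI F hF]
    rfl
  have hMe : mulC (quad ψ hψ c) (ball K (0 : Q p d) 0) = ball K 0 0 := by
    ext x
    change ψ ((1 / 2) * ∑ i, c i * x i ^ 2) * (ballSet (0 : Q p d) 0).indicator 1 x =
      (ballSet (0 : Q p d) 0).indicator 1 x
    by_cases hx : x ∈ ballSet (0 : Q p d) 0
    · have h1 : (1 / 2) * ∑ i, c i * x i ^ 2 =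
          ∑ i, (p : ℚ_[p]) ^ (m + 1) * (k i : ℚ_[p]) * x i ^ 2 := by
        rw [Finset.mul_sum]
        refine Finset.sum_congr rfl fun i _ => ?_
        rw [hc]
        ring
      have h2 : ‖∑ i, (p : ℚ_[p]) ^ (m + 1) * (k i : ℚ_[p]) * x i ^ 2‖ ≤ (p : ℝ) ^ (-m) := by
        apply IsUltrametricDist.norm_sum_le_of_forall_le_of_nonneg (by positivity)
        intro i _
        rw [mem_ball0] at hx
        have hxi := hx i
        rw [neg_zero, zpow_zero] at hxi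
        rw [norm_mul, norm_mul, norm_pow, norm_zpow, Padic.norm_p]
        have h3 : ‖(k i : ℚ_[p])‖ ≤ 1 := by
          have := Padic.norm_int_le_one (p := p) (k i : ℤ)
          exact_mod_cast this
        have h4 : ‖x i‖ ^ 2 ≤ 1 := pow_le_one₀ (norm_nonneg _) hxi
        have h5 : ((p : ℝ)⁻¹) ^ (m + 1) ≤ (p : ℝ) ^ (-m) := by
          rw [inv_zpow', ]
          exact zpow_le_zpow_right₀ hp1 (by omega)
        calc ((p : ℝ)⁻¹) ^ (m + 1) * ‖(k i : ℚ_[p])‖ * ‖x i‖ ^ 2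
            ≤ ((p : ℝ)⁻¹) ^ (m + 1) * 1 * 1 := by gcongr
          _ ≤ (p : ℝ) ^ (-m) := by rw [mul_one, mul_one]; exact h5
      rw [h1, hm.1 _ h2, one_mul]
    · rw [Set.indicator_of_notMem hx, mul_zero]
  have hTe : ∀ y, (T (ball K (0 : Q p d) 0)).1 y = (ballSet (0 : Q p d) m).indicator 1 y := by
    intro y
    rw [hTf, hMe, hFb, zero_dotProduct, AddChar.map_zero_eq_one]
    simp
  have hsup : supNorm (T (ball K (0 : Q p d) 0)) = 1 := by
    apply le_antisymm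
    · apply s2
      intro x
      rw [hTe]
      by_cases hx : x ∈ ballSet (0 : Q p d) m
      · rw [Set.indicator_of_mem hx]
        simp
      · rw [Set.indicator_of_notMem hx]
        simp
    · have h1 := s1 (T (ball K (0 : Q p d) 0)) 0
      rw [hTe, Set.indicator_of_mem (by rw [mem_ball0]; intro i; simp; positivity)] at h1
      simpa using h1
  unfold NG
  refine le_iSup_of_le (gE c) (le_iSup_of_le (gE_symp c) (le_iSup_of_le T
    (le_iSup_of_le hint ?_)))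
  apply ENNReal.ofReal_le_ofReal
  rw [hsup, div_one]
  have h1 := s1 (T f) y
  rw [hTf, hF] at h1
  rw [hTf]
  exact h1

end

end Pool.R902.HN
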