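import Pool.Agent.R902.HN.Stm

/-!
# HN-NGN: `N_G` is a finite invariant norm
-/

set_option autoImplicit false

open scoped Matrix

namespace Pool.R902.HN

namespace NGNaux

variable {K : Type} [NormedField K] {p : ℕ} [Fact p.Prime] {d : ℕ}

theorem sup_rho [IsUltrametricDist K] (hSN : StmSN) (ψ : AddChar ℚ_[p] K)
    (hψ : IsOpen {t : ℚ_[p] | ψ t = 1}) (h1 : ∀ t, ‖ψ t‖ = 1) (a b : Q p d) (t : ℚ_[p])
    (f : SB K p d) : supNorm (rho ψ hψ a b t f) = supNorm f := by
  obtain ⟨s1, s2, -⟩ := hSN K p d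
  have hx : ∀ x, ‖(rho ψ hψ a b t f).1 x‖ = ‖f.1 (x + a)‖ := by
    intro x
    rw [rho_apply, norm_mul, norm_mul, h1, h1, one_mul, one_mul]
  apply le_antisymm
  · refine s2 _ _ fun x => ?_
    rw [hx]
    exact s1 f _
  · refine s2 _ _ fun x => ?_
    have h2 := s1 (rho ψ hψ a b t f) (x - a)
    rw [hx, sub_add_cancel] at h2
    exact h2

theorem ball_ne : ball K (0 : Q p d) 0 ≠ 0 := by
  intro h
  have h1 : (ball K (0 : Q p d) 0).1 0 = 0 := by rw [h]; rfl
  rw [ball_apply] at h1
  have h2 : (0 : Q p d) ∈ ballSet (0 : Q p d) 0 := by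
    intro i
    simp
  rw [Set.indicator_of_mem h2] at h1
  simp at h1

theorem sup_pos [IsUltrametricDist K] (hSN : StmSN) (T : SB K p d ≃ₗ[K] SB K p d) :
    0 < supNorm (T (ball K 0 0)) := by
  obtain ⟨-, -, -, s4, -, -, s7⟩ := hSN K p d
  refine lt_of_le_of_ne (s4 _) fun h => ?_
  have h1 := s7 _ h.symm
  rw [LinearEquiv.map_eq_zero_iff] at h1
  exact ball_ne h1

end NGNaux

open NGNaux in
theorem NGN (hORB : StmORB) (hSN : StmSN) (hRU : StmRU) : StmNGN := by
  intro K _ _ _ p _ hp d ψ hψ m hm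
  have h1 : ∀ t, ‖ψ t‖ = 1 := (hRU K p hp ψ m hm).1
  have hsn := hSN K p d
  obtain ⟨s1, s2, s3, s4, s5, s6, s7⟩ := hsn
  have hsr := sup_rho (d := d) hSN ψ hψ h1
  have hfin : ∀ f : SB K p d, ∃ C : ℝ, 0 ≤ C ∧
      ∀ (g : (Q p d × Q p d) ≃ₗ[ℚ_[p]] (Q p d × Q p d)) (T : SB K p d ≃ₗ[K] SB K p d),
      IsIntertwiner ψ hψ g T → supNorm (T f) / supNorm (T (ball K 0 0)) ≤ C := by
    intro f
    have hf : f ∈ Submodule.span K {f : SB K p d | ∃ (a b : Q p d) (t : ℚ_[p]),
        f = rho ψ hψ a b t (ball K 0 0)} := by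
      rw [hORB K p d ψ hψ m hm]
      exact Submodule.mem_top
    induction hf using Submodule.span_induction with
    | mem f hf =>
      obtain ⟨a, b, t, rfl⟩ := hf
      refine ⟨1, zero_le_one, fun g T hT => ?_⟩
      have h2 := hT (a, b) t (ball K 0 0)
      rw [h2, hsr, div_self (sup_pos hSN T).ne']
    | zero =>
      refine ⟨0, le_rfl, fun g T hT => ?_⟩
      have h2 : supNorm (0 : SB K p d) = 0 := by
        have := s5 0 0
        rwa [zero_smul, norm_zero, zero_mul] at this
      rw [map_zero, h2, zero_div]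
    | add f g _ _ hf hg =>
      obtain ⟨C, hC0, hC⟩ := hf
      obtain ⟨C', hC0', hC'⟩ := hg
      refine ⟨max C C', le_max_of_le_left hC0, fun g' T hT => ?_⟩
      have hpos := sup_pos hSN T
      rw [map_add, div_le_iff₀ hpos]
      have e1 := hC g' T hT
      have e2 := hC' g' T hT
      rw [div_le_iff₀ hpos] at e1 e2
      refine (s6 _ _).trans (max_le ?_ ?_)
      · exact e1.trans (mul_le_mul_of_nonneg_right (le_max_left _ _) hpos.le)
      · exact e2.trans (mul_le_mul_of_nonneg_right (le_max_right _ _) hpos.le)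
    | smul c f _ hf =>
      obtain ⟨C, hC0, hC⟩ := hf
      refine ⟨‖c‖ * C, by positivity, fun g T hT => ?_⟩
      rw [map_smul, s5, mul_div_assoc]
      exact mul_le_mul_of_nonneg_left (hC g T hT) (norm_nonneg _)
  have htop : ∀ f : SB K p d, NG ψ hψ f ≠ ⊤ := by
    intro f
    obtain ⟨C, -, hC⟩ := hfin f
    have h2 : NG ψ hψ f ≤ ENNReal.ofReal C := by
      unfold NG
      refine iSup_le fun g => iSup_le fun _ => iSup_le fun T => iSup_le fun hT => ?_
      exact ENNReal.ofReal_le_ofReal (hC g T hT)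
    exact ne_top_of_le_ne_top ENNReal.ofReal_ne_top h2
  refine ⟨htop, ?_, ?_, ?_, ?_, ?_⟩
  · intro f
    exact ENNReal.toReal_nonneg
  · intro c f
    have h2 : NG ψ hψ (c • f) = ENNReal.ofReal ‖c‖ * NG ψ hψ f := by
      unfold NG
      simp only [ENNReal.mul_iSup]
      refine iSup_congr fun g => iSup_congr fun _ => iSup_congr fun T => iSup_congr fun _ => ?_
      rw [map_smul, s5, mul_div_assoc, ENNReal.ofReal_mul (norm_nonneg _)]
    rw [h2, ENNReal.toReal_mul, ENNReal.toReal_ofReal (norm_nonneg _)]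
  · intro f g
    have h2 : NG ψ hψ (f + g) ≤ max (NG ψ hψ f) (NG ψ hψ g) := by
      conv_lhs => unfold NG
      refine iSup_le fun g' => iSup_le fun hg' => iSup_le fun T => iSup_le fun hT => ?_
      have hpos := sup_pos hSN T
      have e1 : ENNReal.ofReal (supNorm (T f) / supNorm (T (ball K 0 0))) ≤ NG ψ hψ f := by
        unfold NG
        exact le_iSup_of_le g' (le_iSup_of_le hg' (le_iSup_of_le T (le_iSup_of_le hT le_rfl)))
      have e2 : ENNReal.ofReal (supNorm (T g) / supNorm (T (ball K 0 0))) ≤ NG ψ hψ g := by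
        unfold NG
        exact le_iSup_of_le g' (le_iSup_of_le hg' (le_iSup_of_le T (le_iSup_of_le hT le_rfl)))
      refine le_trans ?_ (max_le_max e1 e2)
      rw [← ENNReal.ofReal_max]
      refine ENNReal.ofReal_le_ofReal ?_
      rw [map_add, max_div_div_right hpos.le]
      exact div_le_div_of_nonneg_right (s6 _ _) hpos.le
    rw [← ENNReal.toReal_max (htop f) (htop g)]
    exact ENNReal.toReal_mono (max_ne_top (htop f) (htop g)) h2
  · intro f hf
    have h2 : NG ψ hψ f = 0 := by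
      rcases (ENNReal.toReal_eq_zero_iff _).1 hf with h | h
      · exact h
      · exact absurd h (htop f)
    have h3 : ENNReal.ofReal (supNorm ((LinearEquiv.refl K (SB K p d)) f) /
        supNorm ((LinearEquiv.refl K (SB K p d)) (ball K 0 0))) ≤ NG ψ hψ f := by
      unfold NG
      refine le_iSup_of_le (LinearEquiv.refl _ _) (le_iSup_of_le ?_
        (le_iSup_of_le (LinearEquiv.refl _ _) (le_iSup_of_le ?_ le_rfl)))
      · intro w w'
        rfl
      · intro w t f
        rfl
    rw [h2, nonpos_iff_eq_zero, ENNReal.ofReal_eq_zero] at h3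
    have hpos := sup_pos hSN (LinearEquiv.refl K (SB K p d))
    have h4 : supNorm ((LinearEquiv.refl K (SB K p d)) f) ≤ 0 := by
      rw [div_le_iff₀ hpos, zero_mul] at h3
      exact h3
    exact s7 f (le_antisymm h4 (s4 f))
  · intro a b t f
    have h2 : NG ψ hψ (rho ψ hψ a b t f) = NG ψ hψ f := by
      unfold NG
      refine iSup_congr fun g => iSup_congr fun _ => iSup_congr fun T => iSup_congr fun hT => ?_
      rw [hT (a, b) t f, hsr]
    rw [h2]

end Pool.R902.HN
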