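import Pool.Agent.R902.HN.Stm

/-! ORB: the Heisenberg orbit of the indicator function of the unit ball spans `𝒮`. -/

open scoped Matrix

namespace Pool.R902.HN

theorem ORB_aux1 {K : Type} [NormedField K] {p : ℕ} [Fact p.Prime] {d : ℕ} (a : Q p d)
    (f : SB K p d) :
    mulC (ballLC K a 0) f = transl (-a) (mulC (ballLC K 0 0) (transl a f)) := by
  ext x
  have h : x + -a ∈ ballSet (0 : Q p d) 0 ↔ x ∈ ballSet a 0 := by
    simp only [ballSet, Set.mem_ofPred_eq, Pi.add_apply, Pi.neg_apply, Pi.zero_apply, sub_zero]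
    simp only [← sub_eq_add_neg]
  rw [mulC_apply, transl_apply, mulC_apply, transl_apply, neg_add_cancel_right, ballLC_apply,
    ballLC_apply]
  by_cases hx : x ∈ ballSet a 0
  · rw [Set.indicator_of_mem hx, Set.indicator_of_mem (h.2 hx), Pi.one_apply, Pi.one_apply]
  · rw [Set.indicator_of_notMem hx, Set.indicator_of_notMem (fun h' => hx (h.1 h'))]

theorem ORB_aux2 {K : Type} [NormedField K] {p : ℕ} [Fact p.Prime] {d : ℕ}
    (ψ : AddChar ℚ_[p] K) (hψ : IsOpen {t : ℚ_[p] | ψ t = 1}) (a b : Q p d) :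
    transl (-a) (mulC (chr ψ hψ b) (ball K 0 0)) =
      rho ψ hψ (-a) b (-(b ⬝ᵥ a) + (1 / 2) * (a ⬝ᵥ b)) (ball K (0 : Q p d) 0) := by
  ext x
  rw [transl_apply, mulC_apply, rho_apply, chr_apply, ← AddChar.map_add_eq_mul]
  congr 2
  rw [dotProduct_add, dotProduct_neg, neg_dotProduct]
  ring

theorem ORB (hEXP : StmEXP) (hCut : StmCut) (hHD : StmHD) : StmORB := by
  intro K _ _ p _ d ψ hψ m hm
  obtain ⟨I, hI⟩ := hHD K p d
  rw [eq_top_iff]
  intro f _
  obtain ⟨s, hs⟩ := hCut K p d f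
  rw [hs]
  refine Submodule.sum_mem _ fun a _ => ?_
  rw [ORB_aux1]
  obtain ⟨s', hs'⟩ := hEXP K p d ψ hψ m hm I hI (mulC (ballLC K 0 0) (transl a f)) (by
    intro x hx
    rw [mulC_apply, ballLC_apply, Set.indicator_of_notMem hx, zero_mul])
  rw [hs', map_sum]
  refine Submodule.sum_mem _ fun b _ => ?_
  rw [map_smul, ORB_aux2]
  exact Submodule.smul_mem _ _ (Submodule.subset_span ⟨_, _, _, rfl⟩)

end Pool.R902.HN
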