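import Pool.Agent.R902.HN.Stm

/-! Piece RU of project HN (MP_3d6eda_nt): values of a character of conductor exponent `m`. -/

set_option autoImplicit false

namespace Pool.R902.HN

open Polynomial

section

variable {K : Type} [NormedField K] {p : ℕ} [Fact p.Prime]

theorem psi_pow (ψ : AddChar ℚ_[p] K) (n : ℕ) (t : ℚ_[p]) : ψ t ^ n = ψ (n * t) := by
  rw [← AddChar.map_nsmul_eq_pow, nsmul_eq_mul]

theorem p_pos (p : ℕ) [Fact p.Prime] : (0 : ℝ) < p := by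
  exact_mod_cast (Fact.out : p.Prime).pos

theorem p_gt (p : ℕ) [Fact p.Prime] : (1 : ℝ) < p := by
  exact_mod_cast (Fact.out : p.Prime).one_lt

theorem norm_p_pow_mul (n : ℕ) (t : ℚ_[p]) :
    ‖((p ^ n : ℕ) : ℚ_[p]) * t‖ = (p : ℝ) ^ (-(n : ℤ)) * ‖t‖ := by
  rw [norm_mul]
  congr 1
  push_cast
  exact Padic.norm_p_pow n

theorem norm_psi (ψ : AddChar ℚ_[p] K) (m : ℤ) (hm : IsCond ψ m) (t : ℚ_[p]) : ‖ψ t‖ = 1 := by
  obtain ⟨N, hN⟩ : ∃ N : ℕ, ‖((p ^ N : ℕ) : ℚ_[p]) * t‖ ≤ (p : ℝ) ^ (-m) := by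
    have h0 : (0 : ℝ) < (p : ℝ) ^ (-m) := zpow_pos (p_pos p) _
    obtain ⟨N, hN⟩ := exists_pow_lt_of_lt_one (show (0 : ℝ) < (p : ℝ) ^ (-m) / (‖t‖ + 1) by
      positivity) (show (p : ℝ)⁻¹ < 1 from inv_lt_one_of_one_lt₀ (p_gt p))
    refine ⟨N, ?_⟩
    rw [norm_p_pow_mul, zpow_neg, zpow_natCast, ← inv_pow]
    have h1 : (0 : ℝ) ≤ ‖t‖ := norm_nonneg t
    rw [lt_div_iff₀ (by positivity)] at hN
    have h2 : (0 : ℝ) ≤ ((p : ℝ)⁻¹) ^ N := by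
      have := p_pos p
      positivity
    nlinarith
  have h1 : ψ t ^ (p ^ N) = 1 := by
    rw [psi_pow]
    exact hm.1 _ hN
  have h2 : ‖ψ t‖ ^ (p ^ N) = 1 := by rw [← norm_pow, h1, norm_one]
  exact (pow_eq_one_iff_of_nonneg (norm_nonneg _)
    (pow_pos (Fact.out : p.Prime).pos N).ne').1 h2

theorem psi_ne_one (ψ : AddChar ℚ_[p] K) (m : ℤ) (hm : IsCond ψ m) (w : ℚ_[p])
    (hw : (p : ℝ) ^ (-m + 1) ≤ ‖w‖) : ψ w ≠ 1 := by
  intro h1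
  obtain ⟨s, hs, hs1⟩ := hm.2
  have hwpos : 0 < ‖w‖ := lt_of_lt_of_le (zpow_pos (p_pos p) _) hw
  have hw0 : w ≠ 0 := norm_pos_iff.1 hwpos
  -- reduce to ‖w‖ exactly: multiply w by a power of p
  obtain ⟨v, hv⟩ := Padic.norm_eq_zpow_neg_valuation (p := p) hw0 |> fun h => (⟨_, h⟩ : ∃ v : ℤ, ‖w‖ = (p : ℝ) ^ (-v))
  have hle : -m + 1 ≤ -v := by
    rw [hv] at hw
    exact (zpow_le_zpow_iff_right₀ (p_gt p)).1 hw
  obtain ⟨n, hn⟩ := Int.eq_ofNat_of_zero_le (show (0 : ℤ) ≤ -v - (-m + 1) by omega)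
  set u : ℚ_[p] := ((p ^ n : ℕ) : ℚ_[p]) * w with hu
  have hun : ‖u‖ = (p : ℝ) ^ (-m + 1) := by
    rw [hu, norm_p_pow_mul, hv, ← zpow_add₀ (p_pos p).ne']
    congr 1
    omega
  have hu1 : ψ u = 1 := by rw [hu, ← psi_pow, h1, one_pow]
  have hu0 : u ≠ 0 := by
    intro h
    rw [h, norm_zero] at hun
    exact (zpow_pos (p_pos p) _).ne hun
  have hsu : ‖s / u‖ ≤ 1 := by
    rw [norm_div, hun, div_le_one (zpow_pos (p_pos p) _)]
    exact hs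
  obtain ⟨x, hx⟩ : ∃ x : ℤ_[p], (x : ℚ_[p]) = s / u := ⟨⟨s / u, hsu⟩, rfl⟩
  obtain ⟨a, ha, ha2⟩ := PadicInt.exists_mem_range x
  have h3 : ‖s / u - a‖ ≤ (p : ℝ) ^ (-1 : ℤ) := by
    have h4 : ‖x - (a : ℤ_[p])‖ < 1 := by
      rw [← PadicInt.mem_nonunits]
      exact (IsLocalRing.mem_maximalIdeal _).1 ha2
    have h5 : ‖x - (a : ℤ_[p])‖ = ‖s / u - a‖ := by
      rw [PadicInt.norm_def]
      push_cast
      rw [hx]
    rw [h5] at h4
    have h6 := Padic.norm_le_pow_iff_norm_lt_pow_add_one (s / u - (a : ℚ_[p])) (-1)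
    rw [h6]
    simpa using h4
  have h7 : ψ (s - a * u) = 1 := by
    apply hm.1
    have h8 : s - a * u = (s / u - a) * u := by
      field_simp
    rw [h8, norm_mul, hun]
    calc ‖s / u - (a : ℚ_[p])‖ * (p : ℝ) ^ (-m + 1) ≤ (p : ℝ) ^ (-1 : ℤ) * (p : ℝ) ^ (-m + 1) :=
          mul_le_mul_of_nonneg_right h3 (zpow_pos (p_pos p) _).le
      _ = (p : ℝ) ^ (-m) := by
          rw [← zpow_add₀ (p_pos p).ne']
          congr 1
          ring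
  apply hs1
  calc ψ s = ψ ((s - a * u) + a * u) := by ring_nf
    _ = 1 := by rw [AddChar.map_add_eq_mul, h7, ← psi_pow, hu1, one_pow, one_mul]

variable [IsUltrametricDist K]

theorem norm_one_sub_pow (z : K) (hz : ‖z‖ = 1) (a : ℕ) : ‖1 - z ^ a‖ ≤ ‖1 - z‖ := by
  induction a with
  | zero => simp
  | succ a ih =>
    have h : 1 - z ^ (a + 1) = (1 - z ^ a) + z ^ a * (1 - z) := by ring
    rw [h]
    refine (IsUltrametricDist.norm_add_le_max _ _).trans (max_le ih ?_)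
    rw [norm_mul, norm_pow, hz, one_pow, one_mul]

theorem norm_one_sub (z : K) (n : ℕ) (hz : IsPrimitiveRoot z (p ^ (n + 1)))
    (hp : ‖(p : K)‖ = (p : ℝ)⁻¹) :
    ‖z - 1‖ ^ (p ^ n * (p - 1)) = (p : ℝ)⁻¹ := by
  classical
  have hN : p ^ (n + 1) ≠ 0 := pow_ne_zero _ (Fact.out : p.Prime).ne_zero
  have hN0 : 0 < p ^ (n + 1) := Nat.pos_of_ne_zero hN
  have hnorm : ∀ μ : K, μ ^ (p ^ (n + 1)) = 1 → ‖μ‖ = 1 := by
    intro μ h
    have h2 : ‖μ‖ ^ (p ^ (n + 1)) = 1 := by rw [← norm_pow, h, norm_one]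
    exact (pow_eq_one_iff_of_nonneg (norm_nonneg _) hN).1 h2
  have key : ∀ μ ∈ primitiveRoots (p ^ (n + 1)) K, ‖1 - μ‖ = ‖1 - z‖ := by
    intro μ hμ
    rw [mem_primitiveRoots hN0] at hμ
    have : NeZero (p ^ (n + 1)) := ⟨hN⟩
    obtain ⟨a, -, ha⟩ := hz.eq_pow_of_pow_eq_one hμ.pow_eq_one
    obtain ⟨b, -, hb⟩ := hμ.eq_pow_of_pow_eq_one hz.pow_eq_one
    apply le_antisymm
    · rw [← ha]
      exact norm_one_sub_pow z (hnorm z hz.pow_eq_one) a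
    · rw [← hb]
      exact norm_one_sub_pow μ (hnorm μ hμ.pow_eq_one) b
  have h1 : (p : K) = ∏ μ ∈ primitiveRoots (p ^ (n + 1)) K, (1 - μ) := by
    have h2 := eval_one_cyclotomic_prime_pow (R := K) (p := p) n
    rw [cyclotomic_eq_prod_X_sub_primitiveRoots hz, eval_prod] at h2
    rw [← h2]
    refine Finset.prod_congr rfl fun μ _ => ?_
    simp
  have h3 : (p : ℝ)⁻¹ = ∏ μ ∈ primitiveRoots (p ^ (n + 1)) K, ‖1 - μ‖ := by
    rw [← hp, h1, norm_prod]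
  rw [h3, Finset.prod_congr rfl key, Finset.prod_const, hz.card_primitiveRoots,
    Nat.totient_prime_pow_succ (Fact.out : p.Prime), norm_sub_rev]

end

theorem RU : StmRU := by
  intro K _ _ _ p _ hp ψ m hm
  refine ⟨norm_psi ψ m hm, ?_⟩
  intro k hk t ht
  obtain ⟨n, rfl⟩ : ∃ n, k = n + 1 := ⟨k - 1, by omega⟩
  have h1 : ψ t ^ p ^ (n + 1) = 1 := by
    rw [psi_pow]
    apply hm.1
    rw [norm_p_pow_mul, ht, ← zpow_add₀ (p_pos p).ne']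
    apply le_of_eq
    congr 1
    push_cast
    ring
  have h2 : ¬ ψ t ^ p ^ n = 1 := by
    rw [psi_pow]
    apply psi_ne_one ψ m hm
    rw [norm_p_pow_mul, ht, ← zpow_add₀ (p_pos p).ne']
    apply le_of_eq
    congr 1
    push_cast
    ring
  have h3 : orderOf (ψ t) = p ^ (n + 1) := orderOf_eq_prime_pow h2 h1
  have h4 : IsPrimitiveRoot (ψ t) (p ^ (n + 1)) := by
    rw [← h3]
    exact IsPrimitiveRoot.orderOf (ψ t)
  have h5 := norm_one_sub (ψ t) n h4 hp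
  have hp1 : 1 < p := (Fact.out : p.Prime).one_lt
  have hN : p ^ n * (p - 1) ≠ 0 := by
    apply mul_ne_zero (pow_ne_zero _ (by omega)) (by omega)
  have h6 : ‖ψ t - 1‖ = ((p : ℝ)⁻¹) ^ (((p ^ n * (p - 1) : ℕ) : ℝ)⁻¹) := by
    rw [← h5]
    exact (Real.pow_rpow_inv_natCast (norm_nonneg _) hN).symm
  rw [h6, Real.inv_rpow (p_pos p).le, ← Real.rpow_neg (p_pos p).le]
  congr 1
  rw [Nat.add_sub_cancel, Nat.cast_mul, Nat.cast_pow, Nat.cast_sub hp1.le, Nat.cast_one]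
  ring

end Pool.R902.HN
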