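import Pool.Agent.R902.HN.Stm

/-! Piece SN of MP_3d6eda_nt: the supremum norm on `𝒮`. -/

namespace Pool.R902.HN

theorem SN : StmSN := by
  intro K _ _ p _ d
  have hatt : ∀ f : SB K p d, ∃ x, ∀ y, ‖f.1 y‖ ≤ ‖f.1 x‖ := by
    intro f
    exact (f.2.1.continuous.norm).exists_forall_ge_of_hasCompactSupport f.2.2.norm
  have hbdd : ∀ f : SB K p d, BddAbove (Set.range fun x => ‖f.1 x‖) := by
    intro f
    obtain ⟨x, hx⟩ := hatt f
    exact ⟨‖f.1 x‖, by rintro _ ⟨y, rfl⟩; exact hx y⟩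
  have hle : ∀ (f : SB K p d) (x : Q p d), ‖f.1 x‖ ≤ supNorm f := fun f x => le_ciSup (hbdd f) x
  have hub : ∀ (f : SB K p d) (B : ℝ), (∀ x, ‖f.1 x‖ ≤ B) → supNorm f ≤ B :=
    fun f B h => ciSup_le h
  have hex : ∀ f : SB K p d, ∃ x, supNorm f = ‖f.1 x‖ := by
    intro f
    obtain ⟨x, hx⟩ := hatt f
    exact ⟨x, le_antisymm (hub f _ hx) (hle f x)⟩
  have hnn : ∀ f : SB K p d, 0 ≤ supNorm f := by
    intro f
    obtain ⟨x, hx⟩ := hex f
    rw [hx]
    exact norm_nonneg _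
  refine ⟨hle, hub, hex, hnn, ?_, ?_, ?_⟩
  · intro c f
    apply le_antisymm
    · apply hub
      intro x
      show ‖c * f.1 x‖ ≤ _
      rw [norm_mul]
      exact mul_le_mul_of_nonneg_left (hle f x) (norm_nonneg _)
    · obtain ⟨x, hx⟩ := hex f
      rw [hx, ← norm_mul]
      exact hle (c • f) x
  · intro f g
    apply hub
    intro x
    show ‖f.1 x + g.1 x‖ ≤ _
    exact (IsUltrametricDist.norm_add_le_max _ _).trans (max_le_max (hle f x) (hle g x))
  · intro f hf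
    apply Subtype.ext
    funext x
    have h := hle f x
    rw [hf] at h
    exact norm_le_zero_iff.mp h

end Pool.R902.HN
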