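import Pool.Agent.R902.HN.Stm

/-! Pieces TH and SUPP of project HN (MP_3d6eda_nt). -/

set_option autoImplicit false

open scoped Matrix

namespace Pool.R902.HN

theorem TH : StmTH := by
  intro K _ _ _ p _ d ψ hψ hn m I f B i j c hf k y
  classical
  set q : ℚ_[p] := (p : ℚ_[p]) ^ (m + 1) with hq
  set b : ℚ_[p] := c / (p : ℚ_[p]) ^ j with hb
  set y' : Q p d := y - (2 * q * b) • (Pi.single i 1 : Q p d) with hy'
  set k' : Fin d → ℕ := k + Pi.single i 1 with hk'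
  have key : mulC (chr ψ hψ y) (mulC (quad ψ hψ (fun i => 2 * q * (k i : ℚ_[p])))
      (mulC (theta ψ hψ m i j c) f)) =
      ψ (q * b ^ 2) • mulC (chr ψ hψ y') (mulC (quad ψ hψ (fun i => 2 * q * (k' i : ℚ_[p]))) f)
        - mulC (chr ψ hψ y) (mulC (quad ψ hψ (fun i => 2 * q * (k i : ℚ_[p]))) f) := by
    ext x
    have e1 : (y' ⬝ᵥ x) = y ⬝ᵥ x - 2 * q * b * x i := by
      rw [hy', sub_dotProduct, smul_dotProduct, single_dotProduct]
      simp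
    have e2 : (1 / 2 : ℚ_[p]) * ∑ l, 2 * q * (k' l : ℚ_[p]) * x l ^ 2 =
        (1 / 2) * ∑ l, 2 * q * (k l : ℚ_[p]) * x l ^ 2 + q * x i ^ 2 := by
      have h1 : ∀ l, 2 * q * (k' l : ℚ_[p]) * x l ^ 2 =
          2 * q * (k l : ℚ_[p]) * x l ^ 2 + (if l = i then 2 * q * x i ^ 2 else 0) := by
        intro l
        rw [hk']
        by_cases hl : l = i
        · subst hl
          simp
          ring
        · simp [hl]
      rw [Finset.sum_congr rfl fun l _ => h1 l, Finset.sum_add_distrib, Finset.sum_ite_eq']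
      simp
      ring
    have e3 : ψ (y ⬝ᵥ x) * (ψ ((1 / 2) * ∑ l, 2 * q * (k l : ℚ_[p]) * x l ^ 2) *
        ψ (q * (x i - b) ^ 2)) =
        ψ (q * b ^ 2) * (ψ (y' ⬝ᵥ x) * ψ ((1 / 2) * ∑ l, 2 * q * (k' l : ℚ_[p]) * x l ^ 2)) := by
      rw [← AddChar.map_add_eq_mul, ← AddChar.map_add_eq_mul, ← AddChar.map_add_eq_mul,
        ← AddChar.map_add_eq_mul, e1, e2]
      congr 1
      ring
    show ψ (y ⬝ᵥ x) * (ψ ((1 / 2) * ∑ l, 2 * q * (k l : ℚ_[p]) * x l ^ 2) *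
        ((ψ (q * (x i - b) ^ 2) - 1) * f.1 x)) =
      ψ (q * b ^ 2) * (ψ (y' ⬝ᵥ x) * (ψ ((1 / 2) * ∑ l, 2 * q * (k' l : ℚ_[p]) * x l ^ 2) *
        f.1 x)) - ψ (y ⬝ᵥ x) * (ψ ((1 / 2) * ∑ l, 2 * q * (k l : ℚ_[p]) * x l ^ 2) * f.1 x)
    linear_combination f.1 x * e3
  show ‖I _‖ ≤ B
  rw [key, map_sub, map_smul]
  rw [sub_eq_add_neg]
  refine (IsUltrametricDist.norm_add_le_max _ _).trans (max_le ?_ (by
    rw [norm_neg]
    exact hf k y))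
  rw [smul_eq_mul, norm_mul, hn, one_mul]
  exact hf k' y'

theorem SUPP : StmSUPP := by
  intro K _ p _ d ψ hψ m hm n x hx hx0
  have hp1 : (1 : ℝ) < p := by exact_mod_cast (Fact.out : p.Prime).one_lt
  have hp0 : (0 : ℝ) < p := by linarith
  simp only [ballSet, Set.mem_setOf_eq, Pi.zero_apply, sub_zero, neg_neg, neg_zero, zpow_zero,
    not_forall, not_le] at hx hx0
  obtain ⟨i, hi⟩ := hx0
  have hxi : x i ≠ 0 := norm_pos_iff.1 (one_pos.trans hi)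
  obtain ⟨v, hv⟩ : ∃ v : ℤ, ‖x i‖ = (p : ℝ) ^ (-v) := ⟨_, Padic.norm_eq_zpow_neg_valuation hxi⟩
  have hv1 : 0 < -v := by
    rw [hv] at hi
    exact (one_lt_zpow_iff_right₀ hp1).1 hi
  have hvn : -v ≤ n := by
    have h := hx i
    rw [hv] at h
    exact (zpow_le_zpow_iff_right₀ hp1).1 h
  obtain ⟨j, hj⟩ := Int.eq_ofNat_of_zero_le hv1.le
  have hjn : ‖x i‖ = (p : ℝ) ^ (j : ℤ) := by rw [hv, hj]
  have hun : ‖(p : ℚ_[p]) ^ j * x i‖ = 1 := by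
    rw [norm_mul, Padic.norm_p_pow, hjn, ← zpow_add₀ hp0.ne']
    simp
  obtain ⟨u, hu⟩ : ∃ u : ℤ_[p], (u : ℚ_[p]) = (p : ℚ_[p]) ^ j * x i := ⟨⟨_, hun.le⟩, rfl⟩
  set c : ℕ := u.appr j with hc
  have hc1 : c < p ^ j := PadicInt.appr_lt u j
  have hc2 : ‖u - (c : ℤ_[p])‖ ≤ (p : ℝ) ^ (-(j : ℤ)) := by
    rw [PadicInt.norm_le_pow_iff_mem_span_pow]
    exact PadicInt.appr_spec j u
  have hc3 : ‖(p : ℚ_[p]) ^ j * x i - c‖ ≤ (p : ℝ) ^ (-(j : ℤ)) := by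
    rw [PadicInt.norm_def] at hc2
    push_cast at hc2
    rwa [hu] at hc2
  have hj1 : 1 ≤ j := by omega
  have hcp : ¬ p ∣ c := by
    intro hd
    obtain ⟨e, he⟩ := hd
    have h1 : ‖((c : ℕ) : ℚ_[p])‖ < 1 := by
      rw [he]
      push_cast
      rw [norm_mul]
      calc ‖(p : ℚ_[p])‖ * ‖(e : ℚ_[p])‖ ≤ ‖(p : ℚ_[p])‖ * 1 :=
            mul_le_mul_of_nonneg_left (by
              have := Padic.norm_int_le_one (p := p) (e : ℤ)
              rwa [Int.cast_natCast] at this) (norm_nonneg _)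
        _ < 1 := by rw [mul_one]; exact Padic.norm_p_lt_one
    have h2 : ‖(p : ℚ_[p]) ^ j * x i - c‖ < 1 := by
      refine hc3.trans_lt ?_
      rw [zpow_neg, zpow_natCast]
      exact inv_lt_one_of_one_lt₀ (one_lt_pow₀ hp1 (by omega))
    have h3 : ‖(p : ℚ_[p]) ^ j * x i‖ < 1 := by
      have h4 : (p : ℚ_[p]) ^ j * x i = ((p : ℚ_[p]) ^ j * x i - c) + c := by ring
      rw [h4]
      exact (Padic.nonarchimedean _ _).trans_lt (max_lt h2 h1)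
    linarith
  refine ⟨i, j, hj1, by omega, ?_⟩
  have hpj : (p : ℚ_[p]) ^ j ≠ 0 := pow_ne_zero _ (by
    exact_mod_cast (Fact.out : p.Prime).ne_zero)
  have hθ : theta ψ hψ m i j c x = 0 := by
    rw [theta_apply, sub_eq_zero]
    apply hm.1
    have h1 : x i - c / (p : ℚ_[p]) ^ j = ((p : ℚ_[p]) ^ j)⁻¹ * ((p : ℚ_[p]) ^ j * x i - c) := by
      field_simp
    have h2 : ‖x i - c / (p : ℚ_[p]) ^ j‖ ≤ 1 := by
      rw [h1, norm_mul, norm_inv, Padic.norm_p_pow]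
      calc ((p : ℝ) ^ (-(j : ℤ)))⁻¹ * ‖(p : ℚ_[p]) ^ j * x i - c‖
          ≤ ((p : ℝ) ^ (-(j : ℤ)))⁻¹ * (p : ℝ) ^ (-(j : ℤ)) :=
            mul_le_mul_of_nonneg_left hc3 (by positivity)
        _ = 1 := inv_mul_cancel₀ (zpow_pos hp0 _).ne'
    rw [norm_mul, norm_pow]
    calc ‖(p : ℚ_[p]) ^ (m + 1)‖ * ‖x i - c / (p : ℚ_[p]) ^ j‖ ^ 2
        ≤ ‖(p : ℚ_[p]) ^ (m + 1)‖ * 1 :=
          mul_le_mul_of_nonneg_left (pow_le_one₀ (norm_nonneg _) h2) (norm_nonneg _)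
      _ = (p : ℝ) ^ (-(m + 1)) := by rw [mul_one, Padic.norm_p_zpow]
      _ ≤ (p : ℝ) ^ (-m) := zpow_le_zpow_right₀ hp1.le (by omega)
  have hmem : c ∈ cset p j := by
    rw [cset, Finset.mem_filter, Finset.mem_range]
    exact ⟨hc1, hcp⟩
  have hprod : block ψ hψ m i j x = ∏ c ∈ cset p j, theta ψ hψ m i j c x := by
    rw [block]
    exact map_prod (LocallyConstant.evalMonoidHom x) _ _
  rw [hprod]
  exact Finset.prod_eq_zero hmem hθ

end Pool.R902.HN
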