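import Pool.Agent.R902.HN.CND
import Pool.Agent.R902.HN.SN
import Pool.Agent.R902.HN.RU
import Pool.Agent.R902.HN.COV
import Pool.Agent.R902.HN.LEV
import Pool.Agent.R902.HN.HD
import Pool.Agent.R902.HN.FT
import Pool.Agent.R902.HN.NGB
import Pool.Agent.R902.HN.EXP
import Pool.Agent.R902.HN.ORB
import Pool.Agent.R902.HN.NGN
import Pool.Agent.R902.HN.AL
import Pool.Agent.R902.HN.TH
import Pool.Agent.R902.HN.MN
import Pool.Agent.R902.HN.BLK

open scoped Matrix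

namespace Pool.R902.HN

theorem stmBLK : StmBLK := BLK (FT (Span Cover)) SN AL DQ RU

theorem stmMN : StmMN := MN Level RU TH SUPP stmBLK

theorem stmEXP : StmEXP := EXP Level

theorem stmNGN : StmNGN := NGN (ORB stmEXP (Cut Level Cover) (HD Level Cover)) SN RU

theorem stmNGB : StmNGB := NGB (FT (Span Cover)) SN

section

variable {K : Type} [NormedField K] {p : ℕ} [Fact p.Prime] {d : ℕ}

theorem hnorm_sum (ψ : AddChar ℚ_[p] K) (hψ : IsOpen {t : ℚ_[p] | ψ t = 1}) (N : SB K p d → ℝ)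
    (hN : IsHNorm ψ hψ N) {ι : Type} (s : Finset ι) (g : ι → SB K p d) (R : ℝ) (hR : 0 ≤ R)
    (h : ∀ a ∈ s, N (g a) ≤ R) : N (∑ a ∈ s, g a) ≤ R := by
  classical
  induction s using Finset.induction_on with
  | empty =>
    have h0 : N (0 : SB K p d) = 0 := by
      have := hN.smul 0 0
      simpa using this
    simpa [h0] using hR
  | insert a s ha ih =>
    rw [Finset.sum_insert ha]
    exact (hN.add _ _).trans (max_le (h a (Finset.mem_insert_self _ _))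
      (ih fun b hb => h b (Finset.mem_insert_of_mem hb)))

theorem rho_transl (ψ : AddChar ℚ_[p] K) (hψ : IsOpen {t : ℚ_[p] | ψ t = 1}) (a : Q p d)
    (f : SB K p d) : rho ψ hψ a 0 0 f = transl a f := by
  ext x
  simp

theorem cut_transl (ψ : AddChar ℚ_[p] K) (hψ : IsOpen {t : ℚ_[p] | ψ t = 1}) (a : Q p d)
    (f : SB K p d) :
    mulC (ballLC K a 0) f = rho ψ hψ (-a) 0 0 (mulC (ballLC K 0 0) (transl a f)) := by
  rw [rho_transl]
  ext x
  simp only [mulC_apply, transl_apply, ballLC_apply, neg_add_cancel_right]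
  congr 1
  by_cases hx : x ∈ ballSet a 0
  · have hx' : x + -a ∈ ballSet (0 : Q p d) 0 := by
      intro i
      simpa [sub_eq_add_neg] using hx i
    rw [Set.indicator_of_mem hx, Set.indicator_of_mem hx']
    rfl
  · have hx' : x + -a ∉ ballSet (0 : Q p d) 0 := by
      intro h
      apply hx
      intro i
      simpa [sub_eq_add_neg] using h i
    rw [Set.indicator_of_notMem hx, Set.indicator_of_notMem hx']

end

theorem stmFE_aux (K : Type) [NormedField K] [IsUltrametricDist K] [CharZero K] (p : ℕ)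
    [Fact p.Prime] (hK : ‖(p : K)‖ = (p : ℝ)⁻¹) (d : ℕ) (ψ : AddChar ℚ_[p] K)
    (hψ : IsOpen {t : ℚ_[p] | ψ t = 1}) (m : ℤ) (hm : IsCond ψ m) (I : SB K p d →ₗ[K] K)
    (hI : IsHaar I) (N : SB K p d → ℝ) (hN : IsHNorm ψ hψ N) (f : SB K p d) (B : ℝ)
    (hB : BdQ ψ hψ m I f B) :
    N (mulC (ballLC K 0 0) f) ≤ (p : ℝ) ^ (6 * d) * B * N (ball K 0 0) := by
  have h1 := stmMN K p hK d ψ hψ m hm I hI f B hB
  refine FE stmEXP K p d ψ hψ m hm I hI N hN _ _ ?_ h1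
  intro x hx
  rw [mulC_apply, ballLC_apply, Set.indicator_of_notMem hx, zero_mul]

theorem main_general (K : Type) [NormedField K] [IsUltrametricDist K] [CharZero K] (p : ℕ)
    [Fact p.Prime] (hK : ‖(p : K)‖ = (p : ℝ)⁻¹) (d : ℕ) (ψ : AddChar ℚ_[p] K)
    (hψ : IsOpen {t : ℚ_[p] | ψ t = 1}) (hne : ∃ t, ψ t ≠ 1) :
    (∀ f : SB K p d, NG ψ hψ f ≠ ⊤) ∧ IsHNorm ψ hψ (fun f : SB K p d => (NG ψ hψ f).toReal) ∧
    ∀ N : SB K p d → ℝ, IsHNorm ψ hψ N →
      ∃ C : ℝ, 0 < C ∧ ∀ f : SB K p d, N f ≤ C * (NG ψ hψ f).toReal := by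
  obtain ⟨m, hm⟩ := CND K p ψ hψ hne
  obtain ⟨I, hI⟩ := HD Level Cover K p d
  obtain ⟨hfin, hnorm⟩ := stmNGN K p hK d ψ hψ m hm
  refine ⟨hfin, hnorm, fun N hN => ?_⟩
  have hp0 : (0 : ℝ) < p := by exact_mod_cast (Fact.out : p.Prime).pos
  have he := hN.nonneg (ball K 0 0)
  refine ⟨(p : ℝ) ^ (6 * d) * N (ball K 0 0) + 1, by positivity, fun f => ?_⟩
  obtain ⟨B, hB⟩ : ∃ B : ℝ, B = (NG ψ hψ f).toReal := ⟨_, rfl⟩
  have hB0 : 0 ≤ B := by rw [hB]; exact ENNReal.toReal_nonneg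
  rw [← hB]
  have hpiece : ∀ a : Q p d, N (mulC (ballLC K a 0) f) ≤ (p : ℝ) ^ (6 * d) * B * N (ball K 0 0) := by
    intro a
    rw [cut_transl ψ hψ a f, hN.inv]
    refine stmFE_aux K p hK d ψ hψ m hm I hI N hN (transl a f) B ?_
    intro k y
    have h1 := stmNGB K p d ψ hψ m hm I hI (transl a f) k y
    have h2 := hnorm.inv a 0 0 f
    simp only [rho_transl] at h2
    rw [hB, ← h2]
    exact (ENNReal.ofReal_le_iff_le_toReal (hfin _)).mp h1
  obtain ⟨s, hs⟩ := Cut Level Cover K p d f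
  have h3 : N f ≤ (p : ℝ) ^ (6 * d) * B * N (ball K 0 0) := by
    rw [hs]
    exact hnorm_sum ψ hψ N hN s _ _ (by positivity) fun a _ => hpiece a
  calc N f ≤ (p : ℝ) ^ (6 * d) * B * N (ball K 0 0) := h3
    _ = ((p : ℝ) ^ (6 * d) * N (ball K 0 0)) * B := by ring
    _ ≤ ((p : ℝ) ^ (6 * d) * N (ball K 0 0) + 1) * B := by nlinarith

end Pool.R902.HN
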