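import Pool.Agent.R902.HN.Disp
import Pool.Agent.R902.HN.Final

/-! From the statement with bundled linear maps to the plain statement. -/

open scoped Matrix

namespace Pool.R902.HNB

open Pool.R902.HN

noncomputable section

variable {K : Type} [NormedField K] {p : ℕ} [Fact p.Prime] {d : ℕ}

/-- The bundled character. -/
def toChar (ψ : ℚ_[p] → K) (h : HND.IsChar ψ) : AddChar ℚ_[p] K where
  toFun := ψ
  map_zero_eq_one' := h.zero
  map_add_eq_mul' := h.add

theorem toChar_apply (ψ : ℚ_[p] → K) (h : HND.IsChar ψ) (t : ℚ_[p]) : toChar ψ h t = ψ t := rfl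

theorem toChar_open (ψ : ℚ_[p] → K) (h : HND.IsChar ψ) : IsOpen {t : ℚ_[p] | toChar ψ h t = 1} :=
  h.smooth

theorem rho_val (ψ : ℚ_[p] → K) (h : HND.IsChar ψ) (a b : Q p d) (t : ℚ_[p]) (f : SB K p d) :
    (rho (toChar ψ h) (toChar_open ψ h) a b t f).1 = HND.act ψ a b t f.1 := rfl

theorem unit_val : HND.unitInd K p d = (ball K (0 : Q p d) 0).1 := by
  have : {x : Q p d | ∀ i, ‖x i‖ ≤ 1} = ballSet (0 : Q p d) 0 := by
    ext x
    simp [ballSet]
  unfold HND.unitInd
  rw [this]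
  rfl

open Classical in
/-- Extension of a linear bijection of `𝒮` to a map on all functions. -/
def ext (T : SB K p d ≃ₗ[K] SB K p d) (f : Q p d → K) : Q p d → K :=
  if h : HND.InS f then (T ⟨f, h⟩).1 else f

theorem ext_pos (T : SB K p d ≃ₗ[K] SB K p d) (f : Q p d → K) (h : HND.InS f) :
    ext T f = (T ⟨f, h⟩).1 := dif_pos h

theorem ext_lin (T : SB K p d ≃ₗ[K] SB K p d) : HND.IsLinBij (ext T) where
  bij := by
    refine ⟨?_, ?_, ?_⟩
    · intro f hf
      change HND.InS (ext T f)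
      rw [ext_pos T f hf]
      exact (T ⟨f, hf⟩).2
    · intro f hf g hg hfg
      rw [ext_pos T f hf, ext_pos T g hg] at hfg
      have := T.injective (Subtype.ext hfg)
      exact congrArg Subtype.val this
    · intro g hg
      refine ⟨(T.symm ⟨g, hg⟩).1, (T.symm ⟨g, hg⟩).2, ?_⟩
      rw [ext_pos T _ (T.symm ⟨g, hg⟩).2]
      change (T (T.symm ⟨g, hg⟩)).1 = g
      rw [LinearEquiv.apply_symm_apply]
  add := by
    intro f g hf hg
    have h : HND.InS (fun x => f x + g x) := ((⟨f, hf⟩ : SB K p d) + (⟨g, hg⟩ : SB K p d)).2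
    rw [ext_pos T _ h, ext_pos T f hf, ext_pos T g hg]
    have e : (⟨fun x => f x + g x, h⟩ : SB K p d) = (⟨f, hf⟩ : SB K p d) + (⟨g, hg⟩ : SB K p d) := rfl
    rw [e, map_add]
    rfl
  smul := by
    intro c f hf
    have h : HND.InS (fun x => c * f x) := (c • (⟨f, hf⟩ : SB K p d)).2
    rw [ext_pos T _ h, ext_pos T f hf]
    have e : (⟨fun x => c * f x, h⟩ : SB K p d) = c • (⟨f, hf⟩ : SB K p d) := rfl
    rw [e, map_smul]
    rfl

theorem ext_tw (ψ : ℚ_[p] → K) (h : HND.IsChar ψ)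
    (g : (Q p d × Q p d) ≃ₗ[ℚ_[p]] (Q p d × Q p d)) (T : SB K p d ≃ₗ[K] SB K p d)
    (hT : IsIntertwiner (toChar ψ h) (toChar_open ψ h) g T) : HND.IsTw ψ g (ext T) where
  lin := ext_lin T
  tw := by
    intro a b t f hf
    have h1 : HND.InS (HND.act ψ a b t f) :=
      (rho (toChar ψ h) (toChar_open ψ h) a b t ⟨f, hf⟩).2
    rw [ext_pos T _ h1, ext_pos T f hf]
    have h2 := hT (a, b) t ⟨f, hf⟩
    exact congrArg Subtype.val h2

/-- A function preserving `ω` as a linear equivalence. -/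
def toG (g : Q p d × Q p d → Q p d × Q p d) (hg : HND.IsSp g) :
    (Q p d × Q p d) ≃ₗ[ℚ_[p]] (Q p d × Q p d) :=
  LinearEquiv.ofBijective
    { toFun := g
      map_add' := hg.add
      map_smul' := hg.smul } hg.bij

theorem toG_apply (g : Q p d × Q p d → Q p d × Q p d) (hg : HND.IsSp g) (v : Q p d × Q p d) :
    toG g hg v = g v := rfl

/-- A linear bijection of `𝒮` as a linear equivalence. -/
def toT (T : (Q p d → K) → (Q p d → K)) (hT : HND.IsLinBij T) : SB K p d ≃ₗ[K] SB K p d :=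
  LinearEquiv.ofBijective
    { toFun := fun f => ⟨T f.1, hT.bij.mapsTo f.2⟩
      map_add' := by
        intro f g
        exact Subtype.ext (hT.add f.1 g.1 f.2 g.2)
      map_smul' := by
        intro c f
        exact Subtype.ext (hT.smul c f.1 f.2) } (by
    constructor
    · intro f g hfg
      exact Subtype.ext (hT.bij.injOn f.2 g.2 (congrArg Subtype.val hfg))
    · intro g
      obtain ⟨f, hf, hfg⟩ := hT.bij.surjOn g.2
      exact ⟨⟨f, hf⟩, Subtype.ext hfg⟩)

theorem toT_val (T : (Q p d → K) → (Q p d → K)) (hT : HND.IsLinBij T) (f : SB K p d) :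
    (toT T hT f).1 = T f.1 := rfl

theorem NG_eq (ψ : ℚ_[p] → K) (h : HND.IsChar ψ) (f : SB K p d) :
    HND.NG ψ f.1 = NG (toChar ψ h) (toChar_open ψ h) f := by
  apply le_antisymm
  · apply sSup_le
    rintro r ⟨g, T, hg, hT, rfl⟩
    have h1 : IsSymp (toG g hg) := fun w w' => hg.form w w'
    have h2 : IsIntertwiner (toChar ψ h) (toChar_open ψ h) (toG g hg) (toT T hT.lin) := by
      intro w t f
      apply Subtype.ext
      exact hT.tw w.1 w.2 t f.1 f.2
    have h3 : ENNReal.ofReal (HND.supN (T f.1) / HND.supN (T (HND.unitInd K p d))) =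
        ENNReal.ofReal (supNorm (toT T hT.lin f) / supNorm (toT T hT.lin (ball K 0 0))) := by
      rw [unit_val]
      rfl
    rw [h3]
    unfold NG
    exact le_iSup_of_le (toG g hg) (le_iSup_of_le h1 (le_iSup_of_le (toT T hT.lin)
      (le_iSup_of_le h2 le_rfl)))
  · unfold NG
    refine iSup_le fun g => iSup_le fun hg => iSup_le fun T => iSup_le fun hT => ?_
    apply le_sSup
    refine ⟨g, ext T, ⟨g.bijective, g.map_add, fun c v => g.map_smul c v, fun v w => hg v w⟩,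
      ext_tw ψ h g T hT, ?_⟩
    rw [ext_pos T f.1 f.2, unit_val, ext_pos T _ (ball K (0 : Q p d) 0).2]
    rfl

theorem hnorm_to (ψ : ℚ_[p] → K) (h : HND.IsChar ψ) (N : (Q p d → K) → ℝ)
    (hN : HND.IsHNorm ψ N) :
    IsHNorm (toChar ψ h) (toChar_open ψ h) (fun f : SB K p d => N f.1) where
  nonneg f := hN.norm.nonneg f.1 f.2
  smul c f := hN.norm.smul c f.1 f.2
  add f g := hN.norm.add f.1 g.1 f.2 g.2
  eq_zero f hf := Subtype.ext (funext (hN.norm.eq_zero f.1 f.2 hf))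
  inv a b t f := hN.inv a b t f.1 f.2

theorem hnorm_of (ψ : ℚ_[p] → K) (h : HND.IsChar ψ) (N : (Q p d → K) → ℝ)
    (hN : IsHNorm (toChar ψ h) (toChar_open ψ h) (fun f : SB K p d => N f.1)) :
    HND.IsHNorm ψ N where
  norm :=
    { nonneg := fun f hf => hN.nonneg ⟨f, hf⟩
      smul := fun c f hf => hN.smul c ⟨f, hf⟩
      add := fun f g hf hg => hN.add ⟨f, hf⟩ ⟨g, hg⟩
      eq_zero := fun f hf h0 x => congrFun (congrArg Subtype.val (hN.eq_zero ⟨f, hf⟩ h0)) x }
  inv := fun a b t f hf => hN.inv a b t ⟨f, hf⟩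

theorem main_plain (K : Type) [NormedField K] [IsUltrametricDist K] [CharZero K] (p : ℕ)
    [Fact p.Prime] (hK : ‖(p : K)‖ = (p : ℝ)⁻¹) (d : ℕ) (ψ : ℚ_[p] → K) (h : HND.IsChar ψ) :
    (∀ f : HND.E p d → K, HND.InS f → HND.NG ψ f ≠ ⊤) ∧
    HND.IsHNorm ψ (fun f : HND.E p d → K => (HND.NG ψ f).toReal) ∧
    ∀ N : (HND.E p d → K) → ℝ, HND.IsHNorm ψ N →
      ∃ C : ℝ, 0 < C ∧ ∀ f, HND.InS f → N f ≤ C * (HND.NG ψ f).toReal := by
  obtain ⟨h1, h2, h3⟩ := main_general K p hK d (toChar ψ h) (toChar_open ψ h) h.nontrivial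
  refine ⟨fun f hf => ?_, ?_, fun N hN => ?_⟩
  · have := NG_eq ψ h (⟨f, hf⟩ : SB K p d)
    rw [this]
    exact h1 _
  · apply hnorm_of ψ h
    have e : (fun f : SB K p d => (HND.NG ψ f.1).toReal) =
        fun f : SB K p d => (NG (toChar ψ h) (toChar_open ψ h) f).toReal := by
      funext f
      rw [NG_eq ψ h f]
    rw [e]
    exact h2
  · obtain ⟨C, hC, hCf⟩ := h3 _ (hnorm_to ψ h N hN)
    refine ⟨C, hC, fun f hf => ?_⟩
    have := hCf ⟨f, hf⟩
    rw [← NG_eq ψ h (⟨f, hf⟩ : SB K p d)] at this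
    exact this

end

end Pool.R902.HNB
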