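import Pool.Agent.R902.HN.Stm

/-! CND (helper865): the conductor of a smooth character. -/

namespace Pool.R902.HN

theorem CND : StmCND := by
  intro K _ p _ ψ hψ h
  obtain ⟨t0, ht0⟩ := h
  have hp : 1 < (p : ℝ) := by exact_mod_cast (Fact.out : p.Prime).one_lt
  have hp0 : (0 : ℝ) < p := by linarith
  have h0 : ψ 0 = 1 := AddChar.map_zero_eq_one ψ
  have ht00 : t0 ≠ 0 := by
    intro h
    rw [h] at ht0
    exact ht0 h0
  -- the character is trivial on a small ball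
  have hsmall : ∃ z : ℤ, ∀ t : ℚ_[p], ‖t‖ ≤ (p : ℝ) ^ (-z) → ψ t = 1 := by
    obtain ⟨ε, hε, hball⟩ := Metric.isOpen_iff.mp hψ 0 h0
    obtain ⟨n, hn⟩ := exists_pow_lt_of_lt_one hε (inv_lt_one_of_one_lt₀ hp)
    refine ⟨n, fun t ht => hball ?_⟩
    rw [Metric.mem_ball, dist_zero_right]
    refine lt_of_le_of_lt ht ?_
    rw [zpow_neg, zpow_natCast, ← inv_pow]
    exact hn
  have hbdd : ∃ b : ℤ, ∀ z : ℤ, (∀ t : ℚ_[p], ‖t‖ ≤ (p : ℝ) ^ (-z) → ψ t = 1) → b ≤ z := by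
    refine ⟨t0.valuation, fun z hz => ?_⟩
    by_contra hlt
    apply ht0
    apply hz
    rw [Padic.norm_eq_zpow_neg_valuation ht00]
    exact zpow_le_zpow_right₀ hp.le (by omega)
  obtain ⟨m, hm1, hm2⟩ := Int.exists_least_of_bdd hbdd hsmall
  refine ⟨m, hm1, ?_⟩
  by_contra hcon
  push Not at hcon
  have := hm2 (m - 1) (fun t ht => hcon t (by
    have e : -m + 1 = -(m - 1) := by ring
    rw [e]
    exact ht))
  omega

end Pool.R902.HN
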