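import Mathlib

/-! Shared definitions for MP_3d6eda_nt (invariant norms of the Heisenberg group).
`K` is any complete or incomplete ultrametric field; in the end `K = ℂ_p`. -/

open scoped Matrix

namespace Pool.R902.HN

noncomputable section

variable (K : Type) [NormedField K] (p : ℕ) [Fact p.Prime] (d : ℕ)

/-- The space `ℚ_p^d`. -/
abbrev Q (p : ℕ) [Fact p.Prime] (d : ℕ) : Type := Fin d → ℚ_[p]

/-- `𝒮`: the locally constant compactly supported functions `ℚ_p^d → K`. -/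
def SB : Submodule K (Q p d → K) where
  carrier := {f | IsLocallyConstant f ∧ HasCompactSupport f}
  add_mem' := fun hf hg => ⟨hf.1.add hg.1, hf.2.add hg.2⟩
  zero_mem' := ⟨IsLocallyConstant.const 0, HasCompactSupport.zero⟩
  smul_mem' := fun c _ hf => ⟨(IsLocallyConstant.const c).mul hf.1,
    HasCompactSupport.mul_left (f := fun _ => c) hf.2⟩

variable {K p d}

/-- Multiplication of elements of `𝒮` by a locally constant function. -/
def mulC (χ : LocallyConstant (Q p d) K) : SB K p d →ₗ[K] SB K p d where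
  toFun f := ⟨fun x => χ x * f.1 x, χ.isLocallyConstant.mul f.2.1,
    HasCompactSupport.mul_left (f := fun x => χ x) f.2.2⟩
  map_add' f g := by ext x; simp [mul_add]
  map_smul' c f := by ext x; simp [mul_left_comm]

@[simp] theorem mulC_apply (χ : LocallyConstant (Q p d) K) (f : SB K p d) (x : Q p d) :
    (mulC χ f).1 x = χ x * f.1 x := rfl

/-- Translation: `(transl a f)(x) = f (x + a)`. -/
def transl (a : Q p d) : SB K p d →ₗ[K] SB K p d where
  toFun f := ⟨fun x => f.1 (x + a), f.2.1.comp_continuous (continuous_add_const a),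
    f.2.2.comp_homeomorph (Homeomorph.addRight a)⟩
  map_add' f g := by ext x; simp
  map_smul' c f := by ext x; simp

@[simp] theorem transl_apply (a : Q p d) (f : SB K p d) (x : Q p d) :
    (transl a f).1 x = f.1 (x + a) := rfl

/-- A character of `ℚ_p` with open kernel is locally constant. -/
theorem isLC (ψ : AddChar ℚ_[p] K) (hψ : IsOpen {t : ℚ_[p] | ψ t = 1}) :
    IsLocallyConstant (fun t : ℚ_[p] => ψ t) := by
  rw [IsLocallyConstant.iff_exists_open]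
  intro x
  refine ⟨(fun t => t - x) ⁻¹' {t | ψ t = 1}, hψ.preimage (continuous_sub_right x), by simp, ?_⟩
  intro y hy
  have h : ψ (y - x) = 1 := hy
  calc ψ y = ψ ((y - x) + x) := by ring_nf
    _ = ψ x := by rw [AddChar.map_add_eq_mul, h, one_mul]

/-- The character `x ↦ ψ (y · x)` of `ℚ_p^d`. -/
def chr (ψ : AddChar ℚ_[p] K) (hψ : IsOpen {t : ℚ_[p] | ψ t = 1}) (y : Q p d) :
    LocallyConstant (Q p d) K where
  toFun x := ψ (y ⬝ᵥ x)
  isLocallyConstant := (isLC ψ hψ).comp_continuous (by unfold dotProduct; fun_prop)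

@[simp] theorem chr_apply (ψ : AddChar ℚ_[p] K) (hψ : IsOpen {t : ℚ_[p] | ψ t = 1})
    (y x : Q p d) : chr ψ hψ y x = ψ (y ⬝ᵥ x) := rfl

/-- The quadratic function `x ↦ ψ (½ ∑ c_i x_i²)`. -/
def quad (ψ : AddChar ℚ_[p] K) (hψ : IsOpen {t : ℚ_[p] | ψ t = 1}) (c : Q p d) :
    LocallyConstant (Q p d) K where
  toFun x := ψ ((1 / 2) * ∑ i, c i * x i ^ 2)
  isLocallyConstant := (isLC ψ hψ).comp_continuous (by fun_prop)

@[simp] theorem quad_apply (ψ : AddChar ℚ_[p] K) (hψ : IsOpen {t : ℚ_[p] | ψ t = 1})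
    (c x : Q p d) : quad ψ hψ c x = ψ ((1 / 2) * ∑ i, c i * x i ^ 2) := rfl

/-- The Schrödinger representation:
`(ρ([a,b,t]) f)(x) = ψ(t + ½ a·b) ψ(b·x) f(x+a)`. -/
def rho (ψ : AddChar ℚ_[p] K) (hψ : IsOpen {t : ℚ_[p] | ψ t = 1}) (a b : Q p d)
    (t : ℚ_[p]) : SB K p d →ₗ[K] SB K p d where
  toFun f := ⟨fun x => ψ (t + (1 / 2) * (a ⬝ᵥ b)) * ψ (b ⬝ᵥ x) * f.1 (x + a), by
    have h := (ψ (t + (1 / 2) * (a ⬝ᵥ b)) • mulC (chr ψ hψ b) (transl a f)).2
    convert h using 1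
    ext x
    simp [mul_assoc]⟩
  map_add' f g := by ext x; simp [mul_add]
  map_smul' c f := by ext x; simp [mul_left_comm]

@[simp] theorem rho_apply (ψ : AddChar ℚ_[p] K) (hψ : IsOpen {t : ℚ_[p] | ψ t = 1})
    (a b : Q p d) (t : ℚ_[p]) (f : SB K p d) (x : Q p d) :
    (rho ψ hψ a b t f).1 x = ψ (t + (1 / 2) * (a ⬝ᵥ b)) * ψ (b ⬝ᵥ x) * f.1 (x + a) := rfl

/-- The ball `{x | ∀ i, ‖x_i - z_i‖ ≤ p^{-n}} = z + p^n ℤ_p^d`. -/
def ballSet (z : Q p d) (n : ℤ) : Set (Q p d) := {x | ∀ i, ‖x i - z i‖ ≤ (p : ℝ) ^ (-n)}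

theorem isClopen_ballSet (z : Q p d) (n : ℤ) : IsClopen (ballSet z n) := by
  have hp : (0 : ℝ) < (p : ℝ) ^ (-n) :=
    zpow_pos (by exact_mod_cast (Fact.out : p.Prime).pos) _
  have h : ballSet z n = ⋂ i, (fun x : Q p d => x i) ⁻¹' (Metric.closedBall (z i) ((p : ℝ) ^ (-n))) := by
    ext x
    simp [ballSet, dist_eq_norm]
  rw [h]
  refine isClopen_iInter_of_finite fun i => ?_
  exact (IsUltrametricDist.isClopen_closedBall (z i) hp.ne').preimage (continuous_apply i)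

/-- The indicator function of a ball as a locally constant function. -/
def ballLC (K : Type) [NormedField K] (z : Q p d) (n : ℤ) : LocallyConstant (Q p d) K :=
  LocallyConstant.charFn K (isClopen_ballSet z n)

@[simp] theorem ballLC_apply (z : Q p d) (n : ℤ) (x : Q p d) :
    ballLC K z n x = (ballSet z n).indicator 1 x := rfl

/-- The indicator function of the ball `z + p^n ℤ_p^d` as an element of `𝒮`. -/
def ball (K : Type) [NormedField K] (z : Q p d) (n : ℤ) : SB K p d :=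
  ⟨(ballSet z n).indicator 1,
    (ballLC K z n).isLocallyConstant, by
      refine HasCompactSupport.intro (K := ballSet z n) ?_ ?_
      · have h : ballSet z n = Set.univ.pi
            (fun i => Metric.closedBall (z i) ((p : ℝ) ^ (-n))) := by
          ext x
          simp [ballSet, dist_eq_norm]
        rw [h]
        exact isCompact_univ_pi fun i => isCompact_closedBall _ _
      · intro x hx
        exact Set.indicator_of_notMem hx _⟩

@[simp] theorem ball_apply (z : Q p d) (n : ℤ) (x : Q p d) :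
    (ball K z n).1 x = (ballSet z n).indicator 1 x := rfl

/-- The supremum norm. -/
def supNorm (f : SB K p d) : ℝ := ⨆ x, ‖f.1 x‖

/-- `N` is an `ℋ`-invariant (non-archimedean) norm on `𝒮`. -/
structure IsHNorm (ψ : AddChar ℚ_[p] K) (hψ : IsOpen {t : ℚ_[p] | ψ t = 1})
    (N : SB K p d → ℝ) : Prop where
  nonneg : ∀ f, 0 ≤ N f
  smul : ∀ (c : K) (f : SB K p d), N (c • f) = ‖c‖ * N f
  add : ∀ f g : SB K p d, N (f + g) ≤ max (N f) (N g)
  eq_zero : ∀ f : SB K p d, N f = 0 → f = 0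
  inv : ∀ (a b : Q p d) (t : ℚ_[p]) (f : SB K p d), N (rho ψ hψ a b t f) = N f

/-- `g` is a symplectic linear automorphism of `ℚ_p^d × ℚ_p^d` for
`ω((a,b),(a',b')) = a·b' - b·a'`. -/
def IsSymp (g : (Q p d × Q p d) ≃ₗ[ℚ_[p]] (Q p d × Q p d)) : Prop :=
  ∀ w w' : Q p d × Q p d,
    (g w).1 ⬝ᵥ (g w').2 - (g w).2 ⬝ᵥ (g w').1 = w.1 ⬝ᵥ w'.2 - w.2 ⬝ᵥ w'.1

/-- `T` is an intertwining operator for `g`: `T ρ([w,t]) = ρ([wg,t]) T`. -/
def IsIntertwiner (ψ : AddChar ℚ_[p] K) (hψ : IsOpen {t : ℚ_[p] | ψ t = 1})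
    (g : (Q p d × Q p d) ≃ₗ[ℚ_[p]] (Q p d × Q p d)) (T : SB K p d ≃ₗ[K] SB K p d) : Prop :=
  ∀ (w : Q p d × Q p d) (t : ℚ_[p]) (f : SB K p d),
    T (rho ψ hψ w.1 w.2 t f) = rho ψ hψ (g w).1 (g w).2 t (T f)

/-- `N_𝒢(f)`, the supremum over all `g ∈ Sp_{2d}(ℚ_p)` and all intertwining operators `T` for `g`
of `‖T f‖_∞ / ‖T 1_{ℤ_p^d}‖_∞`, with values in `[0,∞]`. -/
def NG (ψ : AddChar ℚ_[p] K) (hψ : IsOpen {t : ℚ_[p] | ψ t = 1}) (f : SB K p d) : ENNReal :=
  ⨆ (g : (Q p d × Q p d) ≃ₗ[ℚ_[p]] (Q p d × Q p d)) (_ : IsSymp g)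
    (T : SB K p d ≃ₗ[K] SB K p d) (_ : IsIntertwiner ψ hψ g T),
    ENNReal.ofReal (supNorm (T f) / supNorm (T (ball K 0 0)))

/-- `ψ` is trivial on `p^m ℤ_p` but not on `p^{m-1} ℤ_p`. -/
def IsCond (ψ : AddChar ℚ_[p] K) (m : ℤ) : Prop :=
  (∀ t : ℚ_[p], ‖t‖ ≤ (p : ℝ) ^ (-m) → ψ t = 1) ∧
    ∃ t : ℚ_[p], ‖t‖ ≤ (p : ℝ) ^ (-m + 1) ∧ ψ t ≠ 1

/-- `I` is the Haar functional on `𝒮`: translation invariant, with `I(1_{p^n ℤ_p^d}) = p^{-nd}`. -/
structure IsHaar (I : SB K p d →ₗ[K] K) : Prop where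
  trans : ∀ (a : Q p d) (f : SB K p d), I (transl a f) = I f
  ball : ∀ n : ℤ, I (ball K 0 n) = (p : K) ^ (-(n * d))

end

end Pool.R902.HN
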