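import Mathlib

/-! Plain definitions in which the theorem on MP_3d6eda_nt is stated. `K` is a normed field
(in the end `ℂ_p`), `𝒮` the space of locally constant compactly supported functions
`ℚ_p^d → K`. -/

namespace Pool.R902.HND

noncomputable section

/-- The space `ℚ_p^d`. -/
abbrev E (p : ℕ) [Fact p.Prime] (d : ℕ) : Type := Fin d → ℚ_[p]

variable {p : ℕ} [Fact p.Prime] {d : ℕ} {K : Type} [NormedField K]

/-- `a · b = ∑ a_i b_i`. -/
def dot (a b : E p d) : ℚ_[p] := ∑ i, a i * b i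

/-- `ω((a,b),(a',b')) = a·b' - b·a'`. -/
def omega (v w : E p d × E p d) : ℚ_[p] := dot v.1 w.2 - dot v.2 w.1

/-- `ψ` is a non-trivial smooth character of `ℚ_p`. -/
structure IsChar (ψ : ℚ_[p] → K) : Prop where
  zero : ψ 0 = 1
  add : ∀ s t, ψ (s + t) = ψ s * ψ t
  smooth : IsOpen {t | ψ t = 1}
  nontrivial : ∃ t, ψ t ≠ 1

/-- `f ∈ 𝒮`: `f` is locally constant and compactly supported. -/
def InS (f : E p d → K) : Prop := IsLocallyConstant f ∧ HasCompactSupport f

/-- `(ρ([a,b,t]) f)(x) = ψ(t + ½ a·b) ψ(b·x) f(x+a)`. -/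
def act (ψ : ℚ_[p] → K) (a b : E p d) (t : ℚ_[p]) (f : E p d → K) : E p d → K :=
  fun x => ψ (t + 1 / 2 * dot a b) * ψ (dot b x) * f (x + a)

/-- `N`, restricted to `𝒮`, is a non-archimedean norm. -/
structure IsNorm (N : (E p d → K) → ℝ) : Prop where
  nonneg : ∀ f, InS f → 0 ≤ N f
  smul : ∀ (c : K) (f), InS f → N (fun x => c * f x) = ‖c‖ * N f
  add : ∀ f g, InS f → InS g → N (fun x => f x + g x) ≤ max (N f) (N g)
  eq_zero : ∀ f, InS f → N f = 0 → ∀ x, f x = 0

/-- `N`, restricted to `𝒮`, is an `ℋ`-invariant non-archimedean norm. -/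
structure IsHNorm (ψ : ℚ_[p] → K) (N : (E p d → K) → ℝ) : Prop where
  norm : IsNorm N
  inv : ∀ (a b : E p d) (t : ℚ_[p]) (f), InS f → N (act ψ a b t f) = N f

/-- `‖f‖_∞`. -/
def supN (f : E p d → K) : ℝ := ⨆ x, ‖f x‖

/-- The indicator function of `ℤ_p^d`. -/
def unitInd (K : Type) [NormedField K] (p : ℕ) [Fact p.Prime] (d : ℕ) : E p d → K :=
  Set.indicator {x | ∀ i, ‖x i‖ ≤ 1} 1

/-- `g` is an element of `Sp_{2d}(ℚ_p)`: a bijective linear map of `ℚ_p^d × ℚ_p^d` preserving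
`ω`. -/
structure IsSp (g : E p d × E p d → E p d × E p d) : Prop where
  bij : Function.Bijective g
  add : ∀ v w, g (v + w) = g v + g w
  smul : ∀ (c : ℚ_[p]) v, g (c • v) = c • g v
  form : ∀ v w, omega (g v) (g w) = omega v w

/-- `T` restricts to a linear bijection of `𝒮`. -/
structure IsLinBij (T : (E p d → K) → (E p d → K)) : Prop where
  bij : Set.BijOn T {f | InS f} {f | InS f}
  add : ∀ f g, InS f → InS g → T (fun x => f x + g x) = fun x => T f x + T g x
  smul : ∀ (c : K) f, InS f → T (fun x => c * f x) = fun x => c * T f x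

/-- `T` is an intertwining operator for `g`: a linear bijection of `𝒮` with
`T ρ([w,t]) = ρ([wg,t]) T`. -/
structure IsTw (ψ : ℚ_[p] → K) (g : E p d × E p d → E p d × E p d)
    (T : (E p d → K) → (E p d → K)) : Prop where
  lin : IsLinBij T
  tw : ∀ (a b : E p d) (t : ℚ_[p]) (f), InS f →
    T (act ψ a b t f) = act ψ (g (a, b)).1 (g (a, b)).2 t (T f)

/-- `N_𝒢(f)`: the supremum, in `[0,∞]`, of `‖T f‖_∞ / ‖T 1_{ℤ_p^d}‖_∞` over all
`g ∈ Sp_{2d}(ℚ_p)` and all intertwining operators `T` for `g`. -/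
def NG (ψ : ℚ_[p] → K) (f : E p d → K) : ENNReal :=
  sSup {r | ∃ g T, IsSp g ∧ IsTw ψ g T ∧
    r = ENNReal.ofReal (supN (T f) / supN (T (unitInd K p d)))}

end

end Pool.R902.HND
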