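import Pool.Agent.R902.HN.Defs

/-! Statements of the pieces for MP_3d6eda_nt. See NOTES.md for the proofs. -/

open scoped Matrix

namespace Pool.R902.HN

noncomputable section

variable {K : Type} [NormedField K] {p : ℕ} [Fact p.Prime] {d : ℕ}

/-- `θ_{i,j,c}(x) = ψ(p^m · p (x_i - c/p^j)²) - 1`. -/
def theta (ψ : AddChar ℚ_[p] K) (hψ : IsOpen {t : ℚ_[p] | ψ t = 1}) (m : ℤ) (i : Fin d)
    (j c : ℕ) : LocallyConstant (Q p d) K where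
  toFun x := ψ ((p : ℚ_[p]) ^ (m + 1) * (x i - c / (p : ℚ_[p]) ^ j) ^ 2) - 1
  isLocallyConstant := ((isLC ψ hψ).comp_continuous
    (f := fun x : Q p d => (p : ℚ_[p]) ^ (m + 1) * (x i - c / (p : ℚ_[p]) ^ j) ^ 2)
      (by fun_prop)).sub (IsLocallyConstant.const 1)

@[simp] theorem theta_apply (ψ : AddChar ℚ_[p] K) (hψ : IsOpen {t : ℚ_[p] | ψ t = 1}) (m : ℤ)
    (i : Fin d) (j c : ℕ) (x : Q p d) : theta ψ hψ m i j c x =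
      ψ ((p : ℚ_[p]) ^ (m + 1) * (x i - c / (p : ℚ_[p]) ^ j) ^ 2) - 1 := rfl

/-- The indices `c` of the block `j`. -/
def cset (p j : ℕ) : Finset ℕ := (Finset.range (p ^ j)).filter (fun c => ¬ p ∣ c)

/-- The product of all `θ_{i,j,c}` in the block `(i,j)`. -/
def block (ψ : AddChar ℚ_[p] K) (hψ : IsOpen {t : ℚ_[p] | ψ t = 1}) (m : ℤ) (i : Fin d)
    (j : ℕ) : LocallyConstant (Q p d) K := ∏ c ∈ cset p j, theta ψ hψ m i j c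

/-- `|I(ψ(y·x) f)| ≤ B` for all `y`. -/
def BdF (ψ : AddChar ℚ_[p] K) (hψ : IsOpen {t : ℚ_[p] | ψ t = 1}) (I : SB K p d →ₗ[K] K)
    (f : SB K p d) (B : ℝ) : Prop :=
  ∀ y : Q p d, ‖I (mulC (chr ψ hψ y) f)‖ ≤ B

/-- `|I(ψ(y·x) ψ(p^m ∑ p k_i x_i²) f)| ≤ B` for all `y ∈ ℚ_p^d`, `k ∈ ℕ^d`. -/
def BdQ (ψ : AddChar ℚ_[p] K) (hψ : IsOpen {t : ℚ_[p] | ψ t = 1}) (m : ℤ)
    (I : SB K p d →ₗ[K] K) (f : SB K p d) (B : ℝ) : Prop :=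
  ∀ (k : Fin d → ℕ) (y : Q p d),
    ‖I (mulC (chr ψ hψ y)
      (mulC (quad ψ hψ (fun i => 2 * (p : ℚ_[p]) ^ (m + 1) * (k i : ℚ_[p]))) f))‖ ≤ B

end

/-- CND. -/
def StmCND : Prop := ∀ (K : Type) [NormedField K] (p : ℕ) [Fact p.Prime] (ψ : AddChar ℚ_[p] K),
  IsOpen {t : ℚ_[p] | ψ t = 1} → (∃ t, ψ t ≠ 1) → ∃ m : ℤ, IsCond ψ m

/-- RU. -/
def StmRU : Prop := ∀ (K : Type) [NormedField K] [IsUltrametricDist K] [CharZero K] (p : ℕ)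
  [Fact p.Prime] (_ : ‖(p : K)‖ = (p : ℝ)⁻¹) (ψ : AddChar ℚ_[p] K) (m : ℤ), IsCond ψ m →
  (∀ t, ‖ψ t‖ = 1) ∧
  ∀ (k : ℕ), 1 ≤ k → ∀ t : ℚ_[p], ‖t‖ = (p : ℝ) ^ ((k : ℤ) - m) →
    ‖ψ t - 1‖ = (p : ℝ) ^ (-(1 : ℝ) / ((p : ℝ) ^ (k - 1) * ((p : ℝ) - 1)))

/-- LV, part 1: the level of an element of `𝒮`. -/
def StmLevel : Prop := ∀ (K : Type) [NormedField K] (p : ℕ) [Fact p.Prime] (d : ℕ) (f : SB K p d),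
  ∃ n : ℕ, (∀ x, x ∉ ballSet (0 : Q p d) (-(n : ℤ)) → f.1 x = 0) ∧
    ∀ x y : Q p d, y ∈ ballSet (0 : Q p d) (n : ℤ) → f.1 (x + y) = f.1 x

/-- LV, part 2: `p^a ℤ_p^d` is the disjoint union of `p^{(b-a)d}` balls `z + p^b ℤ_p^d`,
`z ∈ p^a {0,…,p^{b-a}-1}^d`. -/
def StmCover : Prop := ∀ (p : ℕ) [Fact p.Prime] (d : ℕ) (a : ℤ) (n : ℕ),
  ∀ x : Q p d, x ∈ ballSet (0 : Q p d) a →
    ∃! j : Fin d → Fin (p ^ n),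
      x ∈ ballSet (fun i => (p : ℚ_[p]) ^ a * ((j i : ℕ) : ℚ_[p])) (a + n)

/-- LV, part 3: `𝒮` is spanned by the indicator functions of balls. -/
def StmSpan : Prop := ∀ (K : Type) [NormedField K] (p : ℕ) [Fact p.Prime] (d : ℕ),
  Submodule.span K {f : SB K p d | ∃ (z : Q p d) (n : ℤ), f = ball K z n} = ⊤

/-- LV, part 4: cutting `f` into pieces supported on unit balls. -/
def StmCut : Prop := ∀ (K : Type) [NormedField K] (p : ℕ) [Fact p.Prime] (d : ℕ) (f : SB K p d),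
  ∃ s : Finset (Q p d), f = ∑ a ∈ s, mulC (ballLC K a 0) f

/-- HD. -/
def StmHD : Prop := ∀ (K : Type) [NormedField K] [CharZero K] (p : ℕ) [Fact p.Prime] (d : ℕ),
  ∃ I : SB K p d →ₗ[K] K, IsHaar I

/-- SN: the supremum norm. -/
def StmSN : Prop := ∀ (K : Type) [NormedField K] [IsUltrametricDist K] (p : ℕ) [Fact p.Prime]
  (d : ℕ),
  (∀ (f : SB K p d) (x : Q p d), ‖f.1 x‖ ≤ supNorm f) ∧
  (∀ (f : SB K p d) (B : ℝ), (∀ x, ‖f.1 x‖ ≤ B) → supNorm f ≤ B) ∧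
  (∀ f : SB K p d, ∃ x, supNorm f = ‖f.1 x‖) ∧
  (∀ f : SB K p d, 0 ≤ supNorm f) ∧
  (∀ (c : K) (f : SB K p d), supNorm (c • f) = ‖c‖ * supNorm f) ∧
  (∀ f g : SB K p d, supNorm (f + g) ≤ max (supNorm f) (supNorm g)) ∧
  (∀ f : SB K p d, supNorm f = 0 → f = 0)

/-- FT: the Fourier transform. -/
def StmFT : Prop := ∀ (K : Type) [NormedField K] [CharZero K] (p : ℕ) [Fact p.Prime] (d : ℕ)
  (ψ : AddChar ℚ_[p] K) (hψ : IsOpen {t : ℚ_[p] | ψ t = 1}) (m : ℤ), IsCond ψ m →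
  ∀ I : SB K p d →ₗ[K] K, IsHaar I →
  ∃ F : SB K p d ≃ₗ[K] SB K p d,
    (∀ f y, (F f).1 y = I (mulC (chr ψ hψ y) f)) ∧
    (∀ (a : Q p d) (n : ℤ) (y : Q p d), (F (ball K a n)).1 y =
      ψ (a ⬝ᵥ y) * (p : K) ^ (-(n * d)) * (ballSet (0 : Q p d) (m - n)).indicator 1 y)

/-- NGB: the norm `N_𝒢` bounds the quadratic Fourier coefficients. -/
def StmNGB : Prop := ∀ (K : Type) [NormedField K] [IsUltrametricDist K] [CharZero K] (p : ℕ)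
  [Fact p.Prime] (d : ℕ)
  (ψ : AddChar ℚ_[p] K) (hψ : IsOpen {t : ℚ_[p] | ψ t = 1}) (m : ℤ), IsCond ψ m →
  ∀ I : SB K p d →ₗ[K] K, IsHaar I → ∀ (f : SB K p d) (k : Fin d → ℕ) (y : Q p d),
    ENNReal.ofReal ‖I (mulC (chr ψ hψ y)
      (mulC (quad ψ hψ (fun i => 2 * (p : ℚ_[p]) ^ (m + 1) * (k i : ℚ_[p]))) f))‖ ≤ NG ψ hψ f

/-- EXP: Fourier expansion on `ℤ_p^d`. -/
def StmEXP : Prop := ∀ (K : Type) [NormedField K] [CharZero K] (p : ℕ) [Fact p.Prime] (d : ℕ)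
  (ψ : AddChar ℚ_[p] K) (hψ : IsOpen {t : ℚ_[p] | ψ t = 1}) (m : ℤ), IsCond ψ m →
  ∀ I : SB K p d →ₗ[K] K, IsHaar I → ∀ h : SB K p d,
  (∀ x, x ∉ ballSet (0 : Q p d) 0 → h.1 x = 0) →
  ∃ s : Finset (Q p d),
    h = ∑ b ∈ s, I (mulC (chr ψ hψ (-b)) h) • mulC (chr ψ hψ b) (ball K 0 0)

/-- AL: the abstract lemma. -/
def StmAL : Prop := ∀ (K : Type) [NormedField K] (V : Type) [AddCommGroup V]
  [Module K V] (ν : V → ℝ) (_ : ∀ v, 0 ≤ ν v) (_ : ∀ (c : K) v, ν (c • v) = ‖c‖ * ν v)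
  (_ : ∀ v w, ν (v + w) ≤ max (ν v) (ν w)) (X : V →ₗ[K] V) (P : Submodule K V)
  (_ : ∀ v ∈ P, X v ∈ P) (_ : ∀ v ∈ P, ν (X v) ≤ ν v) (r : ℝ) (_ : 0 < r) (_ : r < 1)
  (q : ℕ) (_ : 1 ≤ q) (_ : ∀ v ∈ P, ν (((X - 1) ^ q) v) ≤ r ^ q * ν v),
  ∃ μ : V → ℝ, (∀ v ∈ P, ν v ≤ μ v) ∧ (∀ v ∈ P, r ^ (q - 1) * μ v ≤ ν v) ∧
    ∀ (z : K) (a : ℕ), ∀ v ∈ P, ‖z‖ = 1 → r < ‖z - 1‖ →
      μ (z • (X ^ a) v - v) = ‖z - 1‖ * μ v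

/-- DQ: `(X-1)^{p^l} ≡ X^{p^l} - 1 mod p` in `ℤ[X]`. -/
def StmDQ : Prop := ∀ (p : ℕ) [Fact p.Prime] (l : ℕ), ∃ E : Polynomial ℤ,
  (Polynomial.X - 1) ^ (p ^ l) = Polynomial.X ^ (p ^ l) - 1 + (p : Polynomial ℤ) * E

/-- TH: multiplication by `θ` preserves the bound `BdQ`. -/
def StmTH : Prop := ∀ (K : Type) [NormedField K] [IsUltrametricDist K] [CharZero K] (p : ℕ)
  [Fact p.Prime] (d : ℕ)
  (ψ : AddChar ℚ_[p] K) (hψ : IsOpen {t : ℚ_[p] | ψ t = 1}) (_ : ∀ t, ‖ψ t‖ = 1) (m : ℤ),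
  ∀ I : SB K p d →ₗ[K] K, ∀ (f : SB K p d) (B : ℝ) (i : Fin d) (j c : ℕ),
  BdQ ψ hψ m I f B → BdQ ψ hψ m I (mulC (theta ψ hψ m i j c) f) B

/-- SUPP: the product of all `θ` kills everything outside `ℤ_p^d`. -/
def StmSUPP : Prop := ∀ (K : Type) [NormedField K] (p : ℕ)
  [Fact p.Prime] (d : ℕ)
  (ψ : AddChar ℚ_[p] K) (hψ : IsOpen {t : ℚ_[p] | ψ t = 1}) (m : ℤ), IsCond ψ m →
  ∀ (n : ℕ) (x : Q p d), x ∈ ballSet (0 : Q p d) (-(n : ℤ)) → x ∉ ballSet (0 : Q p d) 0 →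
    ∃ (i : Fin d) (j : ℕ), 1 ≤ j ∧ j ≤ n ∧ block ψ hψ m i j x = 0

/-- BLK: the loss in one block. -/
def StmBLK : Prop := ∀ (K : Type) [NormedField K] [IsUltrametricDist K] [CharZero K] (p : ℕ)
  [Fact p.Prime] (_ : ‖(p : K)‖ = (p : ℝ)⁻¹) (d : ℕ)
  (ψ : AddChar ℚ_[p] K) (hψ : IsOpen {t : ℚ_[p] | ψ t = 1}) (m : ℤ), IsCond ψ m →
  ∀ I : SB K p d →ₗ[K] K, IsHaar I → ∀ (i : Fin d) (j : ℕ), 1 ≤ j → ∀ (h : SB K p d) (B : ℝ),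
  (∀ x, x ∉ ballSet (0 : Q p d) 0 → h.1 x = 0) →
  BdF ψ hψ I (mulC (block ψ hψ m i j) h) B →
  BdF ψ hψ I h ((p : ℝ) ^ ((3 : ℝ) / 2 ^ (j - 1)) * B)

/-- MN: the main estimate. -/
def StmMN : Prop := ∀ (K : Type) [NormedField K] [IsUltrametricDist K] [CharZero K] (p : ℕ)
  [Fact p.Prime] (_ : ‖(p : K)‖ = (p : ℝ)⁻¹) (d : ℕ)
  (ψ : AddChar ℚ_[p] K) (hψ : IsOpen {t : ℚ_[p] | ψ t = 1}) (m : ℤ), IsCond ψ m →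
  ∀ I : SB K p d →ₗ[K] K, IsHaar I → ∀ (f : SB K p d) (B : ℝ),
  BdQ ψ hψ m I f B → BdF ψ hψ I (mulC (ballLC K 0 0) f) ((p : ℝ) ^ (6 * d) * B)

/-- FE. -/
def StmFE : Prop := ∀ (K : Type) [NormedField K] [IsUltrametricDist K] [CharZero K] (p : ℕ)
  [Fact p.Prime] (d : ℕ)
  (ψ : AddChar ℚ_[p] K) (hψ : IsOpen {t : ℚ_[p] | ψ t = 1}) (m : ℤ), IsCond ψ m →
  ∀ I : SB K p d →ₗ[K] K, IsHaar I → ∀ (N : SB K p d → ℝ), IsHNorm ψ hψ N →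
  ∀ (h : SB K p d) (B : ℝ), (∀ x, x ∉ ballSet (0 : Q p d) 0 → h.1 x = 0) →
  BdF ψ hψ I h B → N h ≤ B * N (ball K 0 0)

/-- ORB: `𝒮` is spanned by the orbit of `1_{ℤ_p^d}`. -/
def StmORB : Prop := ∀ (K : Type) [NormedField K] [CharZero K] (p : ℕ) [Fact p.Prime] (d : ℕ)
  (ψ : AddChar ℚ_[p] K) (hψ : IsOpen {t : ℚ_[p] | ψ t = 1}) (m : ℤ), IsCond ψ m →
  Submodule.span K {f : SB K p d | ∃ (a b : Q p d) (t : ℚ_[p]),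
    f = rho ψ hψ a b t (ball K 0 0)} = ⊤

/-- NGN: `N_𝒢` is finite and is an `ℋ`-invariant norm. -/
def StmNGN : Prop := ∀ (K : Type) [NormedField K] [IsUltrametricDist K] [CharZero K] (p : ℕ)
  [Fact p.Prime] (_ : ‖(p : K)‖ = (p : ℝ)⁻¹) (d : ℕ)
  (ψ : AddChar ℚ_[p] K) (hψ : IsOpen {t : ℚ_[p] | ψ t = 1}) (m : ℤ), IsCond ψ m →
  (∀ f : SB K p d, NG ψ hψ f ≠ ⊤) ∧ IsHNorm ψ hψ (fun f : SB K p d => (NG ψ hψ f).toReal)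

end Pool.R902.HN
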